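import Pool.Agent.Run7.h291.WL.C3

set_option autoImplicit false

/-! Large values in windows: the number of large values -/

namespace Run7.h291.WL

open Finset Filter MeasureTheory Topology Complex
open Pool.Agent.N748.MG Pool.Agent.N748.MJ Run7.h291.WN

/-- the smoothed weights -/
noncomputable def gr (V a κ x : ℝ) : ℝ := Real.exp (-(2 * V * x)) * min 1 (max 0 ((x - a) / κ))

lemma rp_nn (y : ℝ) : (0:ℝ) ≤ min 1 (max 0 y) := le_min zero_le_one (le_max_left _ _)
lemma rp_le (y : ℝ) : min 1 (max 0 y) ≤ (1:ℝ) := min_le_left _ _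

lemma gr_cont (V a κ : ℝ) : Continuous (gr V a κ) := by
  unfold gr
  fun_prop

lemma gr_nn (V a κ x : ℝ) : 0 ≤ gr V a κ x := mul_nonneg (Real.exp_pos _).le (rp_nn _)

lemma gr_zero {V a κ x : ℝ} (hκ : 0 < κ) (h : x ≤ a) : gr V a κ x = 0 := by
  unfold gr
  have h1 : (x - a) / κ ≤ 0 := div_nonpos_of_nonpos_of_nonneg (by linarith) hκ.le
  rw [max_eq_left h1, min_eq_right zero_le_one, mul_zero]

lemma gr_le (V a κ x : ℝ) : gr V a κ x ≤ Real.exp (-(2 * V * x)) :=
  mul_le_of_le_one_right (Real.exp_pos _).le (rp_le _)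

lemma gr_C2 (V a κ : ℝ) : ∃ C : ℝ, ∀ x, |gr V a κ x| * Real.exp (2 * V * x) ≤ C := by
  refine ⟨1, fun x => ?_⟩
  rw [abs_of_nonneg (gr_nn _ _ _ _)]
  calc gr V a κ x * Real.exp (2 * V * x) ≤ Real.exp (-(2 * V * x)) * Real.exp (2 * V * x) :=
        mul_le_mul_of_nonneg_right (gr_le _ _ _ _) (Real.exp_pos _).le
    _ = 1 := by rw [← Real.exp_add, neg_add_cancel, Real.exp_zero]

lemma gr_C1 {V a κ : ℝ} (hV : 0 < V) (hκ : 0 < κ) : ∃ C : ℝ, ∀ x, |gr V a κ x| * (1 + x ^ 2) ≤ C := by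
  -- `exp (-2Vx) (1 + x²)` is bounded on `[a, ∞)`
  have h1 : Tendsto (fun x : ℝ => Real.exp (-(2 * V * x)) * (1 + x ^ 2)) atTop (𝓝 0) := by
    have h2 := tendsto_rpow_mul_exp_neg_mul_atTop_nhds_zero 0 (2 * V) (by positivity)
    have h3 := tendsto_rpow_mul_exp_neg_mul_atTop_nhds_zero 2 (2 * V) (by positivity)
    have h4 := h2.add h3
    rw [add_zero] at h4
    refine h4.congr fun x => ?_
    rw [show -(2 * V) * x = -(2 * V * x) by ring, Real.rpow_zero, Real.rpow_two]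
    ring
  obtain ⟨x0, hx0⟩ := eventually_atTop.1 ((tendsto_order.1 h1).2 1 one_pos)
  have hc : Continuous fun x : ℝ => Real.exp (-(2 * V * x)) * (1 + x ^ 2) := by fun_prop
  obtain ⟨C, hC⟩ := (isCompact_Icc (a := a) (b := max x0 a)).exists_bound_of_continuousOn hc.continuousOn
  refine ⟨max C 1, fun x => ?_⟩
  rw [abs_of_nonneg (gr_nn _ _ _ _)]
  rcases le_or_gt x a with h | h
  · rw [gr_zero hκ h, zero_mul]
    exact zero_le_one.trans (le_max_right _ _)
  · have h5 : gr V a κ x * (1 + x ^ 2) ≤ Real.exp (-(2 * V * x)) * (1 + x ^ 2) :=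
      mul_le_mul_of_nonneg_right (gr_le _ _ _ _) (by positivity)
    rcases le_or_gt x (max x0 a) with h6 | h6
    · have h7 := hC x ⟨h.le, h6⟩
      rw [Real.norm_of_nonneg (by positivity)] at h7
      exact h5.trans (h7.trans (le_max_left _ _))
    · have h7 := hx0 x ((le_max_left _ _).trans h6.le)
      exact h5.trans (h7.le.trans (le_max_right _ _))

lemma gr_int_upper {V a κ : ℝ} (hV : 0 < V) (hκ : 0 < κ) : ∫ x, gr V a κ x ≤ Real.exp (-(2 * V * a)) / (2 * V) := by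
  have h1 : ∫ x, gr V a κ x = ∫ x in Set.Ioi a, gr V a κ x := by
    rw [← integral_indicator measurableSet_Ioi]
    refine integral_congr_ae (Eventually.of_forall fun x => ?_)
    simp only [Set.indicator_apply, Set.mem_Ioi]
    split_ifs with h
    · rfl
    · exact gr_zero hκ (not_lt.1 h)
  have hneg : -(2 * V) < 0 := by linarith
  have h2 : ∫ x in Set.Ioi a, Real.exp (-(2 * V) * x) = Real.exp (-(2 * V * a)) / (2 * V) := by
    rw [integral_exp_mul_Ioi hneg, show -(2 * V) * a = -(2 * V * a) by ring]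
    field_simp
  rw [h1, ← h2]
  refine setIntegral_mono_on ((g_int (gr_cont _ _ _) (gr_C1 hV hκ)).integrableOn) (integrableOn_exp_mul_Ioi hneg a)
    measurableSet_Ioi fun x _ => ?_
  rw [show -(2 * V) * x = -(2 * V * x) by ring]
  exact gr_le _ _ _ _

lemma gr_int_lower {V a κ : ℝ} (hV : 0 < V) (hκ : 0 < κ) :
    Real.exp (-(2 * V * (a + κ))) / (2 * V) ≤ ∫ x, gr V a κ x := by
  have hneg : -(2 * V) < 0 := by linarith
  have h2 : ∫ x in Set.Ioi (a + κ), Real.exp (-(2 * V) * x) = Real.exp (-(2 * V * (a + κ))) / (2 * V) := by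
    rw [integral_exp_mul_Ioi hneg, show -(2 * V) * (a + κ) = -(2 * V * (a + κ)) by ring]
    field_simp
  have hgi := g_int (gr_cont V a κ) (gr_C1 hV hκ)
  have h3 : ∫ x in Set.Ioi (a + κ), gr V a κ x ≤ ∫ x, gr V a κ x :=
    setIntegral_le_integral hgi (Eventually.of_forall fun x => gr_nn _ _ _ _)
  rw [← h2]
  refine le_trans (setIntegral_mono_on (integrableOn_exp_mul_Ioi hneg _) hgi.integrableOn measurableSet_Ioi
    fun x hx => ?_) h3
  have h4 : 1 ≤ (x - a) / κ := by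
    rw [le_div_iff₀ hκ]
    have : a + κ < x := hx
    linarith
  unfold gr
  rw [max_eq_right (by linarith), min_eq_left h4, mul_one, show -(2 * V) * x = -(2 * V * x) by ring]

/-- the local weight at a point -/
lemma FG_gr {V a κ δ u : ℝ} (_hV : 0 < V) (h0 : 0 < δ) (hz : 0 < mz δ u) :
    akR V * (2 * δ) ^ (V ^ 2) * FG V (gr V a κ) δ u =
      sq δ * min 1 (max 0 ((Real.log (mz δ u) - V * Real.log (1 / (2 * δ)) - a) / κ)) := by
  have ha := akp V
  have h2 : 0 < 2 * δ := by linarith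
  set x : ℝ := Real.log (mz δ u) - V * Real.log (1 / (2 * δ)) with hx
  have h3 : mz δ u ^ (2 * V) = Real.exp (2 * V * x) * (2 * δ) ^ (-(2 * V ^ 2)) := by
    rw [Real.rpow_def_of_pos hz, Real.rpow_def_of_pos h2, ← Real.exp_add]
    congr 1
    have h6 : Real.log (1 / (2 * δ)) = -Real.log (2 * δ) := by rw [one_div, Real.log_inv]
    rw [hx, h6]
    ring
  have h4 : (2 * δ) ^ (V ^ 2) * (2 * δ) ^ (V ^ 2) * (2 * δ) ^ (-(2 * V ^ 2)) = 1 := by
    rw [← Real.rpow_add h2, ← Real.rpow_add h2]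
    have : V ^ 2 + V ^ 2 + -(2 * V ^ 2) = 0 := by ring
    rw [this, Real.rpow_zero]
  have h5 : Real.exp (-(2 * V * x)) * Real.exp (2 * V * x) = 1 := by
    rw [← Real.exp_add, neg_add_cancel, Real.exp_zero]
  unfold FG Zk gr
  rw [← hx, h3]
  show akR V * (2 * δ) ^ V ^ 2 * (sq δ * (Real.exp (-(2 * V * x)) * min 1 (max 0 ((x - a) / κ))) *
    ((2 * δ) ^ V ^ 2 / akR V * (Real.exp (2 * V * x) * (2 * δ) ^ (-(2 * V ^ 2))))) = _
  calc _ = sq δ * min 1 (max 0 ((x - a) / κ)) * (Real.exp (-(2 * V * x)) * Real.exp (2 * V * x)) *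
        ((2 * δ) ^ (V ^ 2) * (2 * δ) ^ (V ^ 2) * (2 * δ) ^ (-(2 * V ^ 2))) * (akR V / akR V) := by ring
    _ = _ := by
      rw [h4, h5, div_self ha.ne']
      ring

/-- the set of the large values in a window -/
def LS (V c δ t H : ℝ) : Set ℝ := {u : ℝ | u ∈ Set.Icc t (t + H) ∧ c * (2 * δ) ^ (-V) < mz δ u}

lemma LS_meas (V c t H : ℝ) {δ : ℝ} (h1 : δ ≤ 1 / 16) : MeasurableSet (LS V c δ t H) := by
  unfold LS
  exact measurableSet_Icc.inter (measurableSet_lt measurable_const (TMA.cont h1).measurable)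

lemma LS_iff {V c δ : ℝ} (hc : 0 < c) (h0 : 0 < δ) {u : ℝ} (hz : 0 < mz δ u) :
    c * (2 * δ) ^ (-V) < mz δ u ↔ Real.log c < Real.log (mz δ u) - V * Real.log (1 / (2 * δ)) := by
  have h2 : 0 < 2 * δ := by linarith
  have h3 : 0 < (2 * δ) ^ (-V) := Real.rpow_pos_of_pos h2 _
  rw [← Real.log_lt_log_iff (by positivity) hz, Real.log_mul hc.ne' h3.ne', Real.log_rpow h2]
  have h6 : Real.log (1 / (2 * δ)) = -Real.log (2 * δ) := by rw [one_div, Real.log_inv]
  rw [h6]
  constructor <;> intro h <;> linarith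

lemma LS_fin (V c δ t H : ℝ) : volume (LS V c δ t H) < ⊤ := by
  refine (measure_mono (fun u hu => hu.1 : LS V c δ t H ⊆ Set.Icc t (t + H))).trans_lt ?_
  rw [Real.volume_Icc]
  exact ENNReal.ofReal_lt_top

lemma LS_int (V c δ : ℝ) {t H : ℝ} (h1 : δ ≤ 1 / 16) :
    volume.real (LS V c δ t H) = ∫ u in Set.Icc t (t + H), (LS V c δ t H).indicator (fun _ => (1:ℝ)) u := by
  rw [setIntegral_indicator (LS_meas V c t H h1), setIntegral_const, smul_eq_mul, mul_one]
  congr 1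
  exact (Set.inter_eq_right.2 fun u hu => hu.1).symm

lemma cnt_upper {V c a κ δ t H : ℝ} (hV : 0 < V) (hκ : 0 < κ) (hc : 0 < c) (h0 : 0 < δ) (h1 : δ ≤ 1 / 16) (hH : 0 ≤ H)
    (hac : a + κ ≤ Real.log c) :
    sq δ * volume.real (LS V c δ t H) ≤ akR V * (2 * δ) ^ (V ^ 2) * ∫ u in t..(t + H), FG V (gr V a κ) δ u := by
  have hFc := FG_cont hV (gr_cont V a κ) (B := a) (fun x hx => gr_zero hκ hx) h1
  rw [LS_int V c δ h1, intervalIntegral.integral_of_le (by linarith), ← integral_Icc_eq_integral_Ioc,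
    ← integral_const_mul, ← integral_const_mul]
  refine setIntegral_mono_on ?_ ((continuous_const.mul hFc).integrableOn_Icc) measurableSet_Icc fun u hu => ?_
  · refine Integrable.const_mul ?_ _
    refine (integrableOn_const (by rw [Real.volume_Icc]; exact ENNReal.ofReal_ne_top)).indicator (LS_meas V c t H h1)
  · by_cases h : u ∈ LS V c δ t H
    · rw [Set.indicator_of_mem h]
      have hz : 0 < mz δ u := lt_of_le_of_lt (mul_nonneg hc.le (Real.rpow_nonneg (by linarith) _)) h.2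
      have h3 := (LS_iff hc h0 hz).1 h.2
      rw [FG_gr hV h0 hz]
      have h4 : 1 ≤ (Real.log (mz δ u) - V * Real.log (1 / (2 * δ)) - a) / κ := by
        rw [le_div_iff₀ hκ]
        linarith
      rw [max_eq_right (by linarith), min_eq_left h4]
    · rw [Set.indicator_of_notMem h, mul_zero]
      exact mul_nonneg (mul_nonneg (akp V).le (Real.rpow_nonneg (by linarith) _)) (FG_nn (gr_nn V a κ) h0.le u)

lemma cnt_lower {V c a κ δ t H : ℝ} (hV : 0 < V) (hκ : 0 < κ) (hc : 0 < c) (h0 : 0 < δ) (h1 : δ ≤ 1 / 16) (hH : 0 ≤ H)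
    (hac : Real.log c ≤ a) :
    akR V * (2 * δ) ^ (V ^ 2) * (∫ u in t..(t + H), FG V (gr V a κ) δ u) ≤ sq δ * volume.real (LS V c δ t H) := by
  have hFc := FG_cont hV (gr_cont V a κ) (B := a) (fun x hx => gr_zero hκ hx) h1
  rw [LS_int V c δ h1, intervalIntegral.integral_of_le (by linarith), ← integral_Icc_eq_integral_Ioc,
    ← integral_const_mul, ← integral_const_mul]
  refine setIntegral_mono_on ((continuous_const.mul hFc).integrableOn_Icc) ?_ measurableSet_Icc fun u hu => ?_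
  · refine Integrable.const_mul ?_ _
    refine (integrableOn_const (by rw [Real.volume_Icc]; exact ENNReal.ofReal_ne_top)).indicator (LS_meas V c t H h1)
  · rcases eq_or_lt_of_le (TMA.mz_nn δ u) with hz | hz
    · have h3 : FG V (gr V a κ) δ u = 0 := by
        unfold FG Zk
        rw [← hz, Real.zero_rpow (by positivity)]
        ring
      rw [h3, mul_zero]
      exact mul_nonneg (sq_nn δ) (Set.indicator_nonneg (fun _ _ => zero_le_one) _)
    · rw [FG_gr hV h0 hz]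
      by_cases h : u ∈ LS V c δ t H
      · rw [Set.indicator_of_mem h]
        exact mul_le_mul_of_nonneg_left (rp_le _) (sq_nn δ)
      · rw [Set.indicator_of_notMem h, mul_zero]
        have h4 : ¬ (c * (2 * δ) ^ (-V) < mz δ u) := fun h5 => h ⟨hu, h5⟩
        rw [LS_iff hc h0 hz, not_lt] at h4
        have h5 : (Real.log (mz δ u) - V * Real.log (1 / (2 * δ)) - a) / κ ≤ 0 :=
          div_nonpos_of_nonpos_of_nonneg (by linarith) hκ.le
        rw [max_eq_left h5, min_eq_right zero_le_one, mul_zero]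

/-- the predicted density of the large values -/
noncomputable def QQ (V δ : ℝ) : ℝ := akR V * (2 * δ) ^ (V ^ 2) / (2 * V * sq δ)

theorem count (hM : S_MNB) (hL1 : S_LL1) (hL2 : S_LL2) (V θ D A : ℝ) (hV : 0 < V) (hθ : max 1 (V ^ 2) - 1 < θ)
    (hD : 0 ≤ D) (hA : 1 ≤ A) (ε : ℝ) (hε : 0 < ε) :
    Ev fun X δ => volume {t : ℝ | 0 ≤ t ∧ t ≤ X ∧ ∃ H : ℝ, δ ^ (-θ) ≤ H ∧ H ≤ δ ^ (-D) ∧ ∃ c : ℝ, 1 / A ≤ c ∧ c ≤ A ∧
      ε ≤ |volume.real (LS V c δ t H) / (H * QQ V δ) - c ^ (-(2 * V))|} ≤ ENNReal.ofReal (ε * X) := by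
  have hA0 : 0 < A := by linarith
  have hlA : 0 ≤ Real.log A := Real.log_nonneg hA
  -- the width
  obtain ⟨κ, hκ, hκ1⟩ : ∃ κ : ℝ, 0 < κ ∧ A ^ (2 * V) * (Real.exp (4 * V * κ) - 1) ≤ ε / 4 := by
    have h1 : Tendsto (fun κ : ℝ => A ^ (2 * V) * (Real.exp (4 * V * κ) - 1)) (𝓝[>] 0) (𝓝 0) := by
      have h2 : Continuous fun κ : ℝ => A ^ (2 * V) * (Real.exp (4 * V * κ) - 1) := by fun_prop
      have h3 := h2.tendsto 0
      simp only [mul_zero, Real.exp_zero, sub_self] at h3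
      exact h3.mono_left nhdsWithin_le_nhds
    obtain ⟨κ, h4, h5⟩ := (((tendsto_order.1 h1).2 (ε / 4) (by positivity)).and self_mem_nhdsWithin).exists
    exact ⟨κ, h5, h4.le⟩
  obtain ⟨J, hJ⟩ := exists_nat_gt (2 * Real.log A / κ)
  set aj : ℕ → ℝ := fun j => -(Real.log A) - κ + j * κ with haj
  set N : ℝ := (J:ℝ) + 4 with hN
  have hN0 : 0 < N := by positivity
  set ε2 : ℝ := min (ε / (8 * V)) (ε / N) with hε2
  have hε20 : 0 < ε2 := lt_min (by positivity) (by positivity)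
  have hI : ∀ a : ℝ, 0 < ∫ x, gr V a κ x := fun a =>
    lt_of_lt_of_le (by positivity) (gr_int_lower (a := a) hV hκ)
  have key : ∀ j : ℕ, Ev fun X δ => volume {t : ℝ | 0 ≤ t ∧ t ≤ X ∧ ∃ H : ℝ, δ ^ (-θ) ≤ H ∧ H ≤ δ ^ (-D) ∧
      ε2 ≤ |(1 / H) * (∫ u in t..(t + H), FG V (gr V (aj j) κ) δ u) - ∫ x, gr V (aj j) κ x|} ≤
        ENNReal.ofReal (ε2 * X) := fun j =>
    coreG hM hL1 hL2 V θ D hV hθ hD (gr V (aj j) κ) (gr_cont _ _ _) (gr_nn _ _ _) (aj j) (fun x hx => gr_zero hκ hx)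
      (gr_C1 hV hκ) (gr_C2 _ _ _) (hI _) ε2 hε20
  have hfin : ∀ m : ℕ, Ev fun X δ => ∀ j < m, volume {t : ℝ | 0 ≤ t ∧ t ≤ X ∧ ∃ H : ℝ, δ ^ (-θ) ≤ H ∧ H ≤ δ ^ (-D) ∧
      ε2 ≤ |(1 / H) * (∫ u in t..(t + H), FG V (gr V (aj j) κ) δ u) - ∫ x, gr V (aj j) κ x|} ≤
        ENNReal.ofReal (ε2 * X) := by
    intro m
    induction m with
    | zero => exact (Ev.of_le one_pos).mono fun X δ _ _ _ _ j hj => absurd hj (Nat.not_lt_zero j)
    | succ m ih =>
      refine (ih.and (key m)).mono ?_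
      rintro X δ _ _ _ ⟨h1, h2⟩ j hj
      rcases Nat.lt_succ_iff_lt_or_eq.1 hj with h | h
      · exact h1 j h
      · rw [h]
        exact h2
  refine (hfin (J + 3)).mono ?_
  rintro X δ hX1 h0 h1 hE
  have hX0 : 0 < X := by linarith
  set E : ℕ → Set ℝ := fun j => {t : ℝ | 0 ≤ t ∧ t ≤ X ∧ ∃ H : ℝ, δ ^ (-θ) ≤ H ∧ H ≤ δ ^ (-D) ∧
      ε2 ≤ |(1 / H) * (∫ u in t..(t + H), FG V (gr V (aj j) κ) δ u) - ∫ x, gr V (aj j) κ x|} with hEdef
  have hsub : {t : ℝ | 0 ≤ t ∧ t ≤ X ∧ ∃ H : ℝ, δ ^ (-θ) ≤ H ∧ H ≤ δ ^ (-D) ∧ ∃ c : ℝ, 1 / A ≤ c ∧ c ≤ A ∧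
      ε ≤ |volume.real (LS V c δ t H) / (H * QQ V δ) - c ^ (-(2 * V))|} ⊆ ⋃ j ∈ Finset.range (J + 3), E j := by
    rintro t ⟨t0, t1, H, hH1, hH2, c, hc1, hc2, hbad⟩
    by_contra hcon
    simp only [Set.mem_iUnion, not_exists, Finset.mem_range] at hcon
    have hHp : 0 < H := lt_of_lt_of_le (Real.rpow_pos_of_pos h0 _) hH1
    have hc0 : 0 < c := lt_of_lt_of_le (by positivity) hc1
    have hgood : ∀ j < J + 3, |(1 / H) * (∫ u in t..(t + H), FG V (gr V (aj j) κ) δ u) - ∫ x, gr V (aj j) κ x| < ε2 := by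
      intro j hj
      by_contra h
      exact hcon j hj ⟨t0, t1, H, hH1, hH2, not_lt.1 h⟩
    have hlc1 : -Real.log A ≤ Real.log c := by
      have := Real.log_le_log (by positivity) hc1
      rwa [one_div, Real.log_inv] at this
    have hlc2 : Real.log c ≤ Real.log A := Real.log_le_log hc0 hc2
    -- the grid point
    set j : ℕ := ⌊(Real.log c + Real.log A) / κ⌋₊ with hj
    have hnn : 0 ≤ (Real.log c + Real.log A) / κ := div_nonneg (by linarith) hκ.le
    have hj1 : (j:ℝ) * κ ≤ Real.log c + Real.log A := by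
      have := Nat.floor_le hnn
      rwa [← hj, le_div_iff₀ hκ] at this
    have hj2 : Real.log c + Real.log A < (j + 1) * κ := by
      have := Nat.lt_floor_add_one ((Real.log c + Real.log A) / κ)
      rwa [← hj, div_lt_iff₀ hκ] at this
    have hjJ : j < J + 1 := by
      have h2 : (j:ℝ) < J := by
        have h3 : (j:ℝ) ≤ (Real.log c + Real.log A) / κ := Nat.floor_le hnn
        have h4 : (Real.log c + Real.log A) / κ ≤ 2 * Real.log A / κ :=
          div_le_div_of_nonneg_right (by linarith) hκ.le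
        linarith
      have : j < J := by exact_mod_cast h2
      omega
    have hsq : 0 < sq δ := by
      unfold sq
      refine Real.sqrt_pos.2 (mul_pos Real.pi_pos (Real.log_pos ?_))
      rw [lt_div_iff₀ (by linarith)]
      linarith
    have ha := akp V
    have hδ2 : 0 < (2 * δ) ^ (V ^ 2) := Real.rpow_pos_of_pos (by linarith) _
    set vol : ℝ := volume.real (LS V c δ t H) with hvol
    have hR : vol / (H * QQ V δ) = 2 * V * ((1 / H) * (sq δ * vol / (akR V * (2 * δ) ^ (V ^ 2)))) := by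
      unfold QQ
      field_simp
    have hcexp : c ^ (-(2 * V)) = Real.exp (-(2 * V * Real.log c)) := by
      rw [Real.rpow_def_of_pos hc0]
      congr 1
      ring
    -- the upper bound
    have u1 := cnt_upper (t := t) hV hκ hc0 h0 h1 hHp.le (a := aj j) (by
      show -(Real.log A) - κ + j * κ + κ ≤ Real.log c
      linarith)
    have u2 : (1 / H) * (sq δ * vol / (akR V * (2 * δ) ^ (V ^ 2))) ≤ (1 / H) * ∫ u in t..(t + H), FG V (gr V (aj j) κ) δ u := by
      refine mul_le_mul_of_nonneg_left ?_ (by positivity)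
      rw [div_le_iff₀ (by positivity)]
      linarith
    have u3 := (abs_lt.1 (hgood j (by omega))).2
    have u4 := gr_int_upper (a := aj j) hV hκ
    have u5 : Real.exp (-(2 * V * aj j)) ≤ c ^ (-(2 * V)) * Real.exp (4 * V * κ) := by
      rw [hcexp, ← Real.exp_add]
      refine Real.exp_le_exp.2 ?_
      have h2 : Real.log c - 2 * κ ≤ aj j := by
        show _ ≤ -(Real.log A) - κ + j * κ
        linarith
      nlinarith
    -- the lower bound
    have l1 := cnt_lower (t := t) hV hκ hc0 h0 h1 hHp.le (a := aj (j + 2)) (by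
      show _ ≤ -(Real.log A) - κ + ((j + 2 : ℕ) : ℝ) * κ
      push_cast
      linarith)
    have l2 : (1 / H) * (∫ u in t..(t + H), FG V (gr V (aj (j + 2)) κ) δ u) ≤
        (1 / H) * (sq δ * vol / (akR V * (2 * δ) ^ (V ^ 2))) := by
      refine mul_le_mul_of_nonneg_left ?_ (by positivity)
      rw [le_div_iff₀ (by positivity)]
      linarith
    have l3 := (abs_lt.1 (hgood (j + 2) (by omega))).1
    have l4 := gr_int_lower (a := aj (j + 2)) hV hκ
    have l5 : c ^ (-(2 * V)) * Real.exp (-(4 * V * κ)) ≤ Real.exp (-(2 * V * (aj (j + 2) + κ))) := by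
      rw [hcexp, ← Real.exp_add]
      refine Real.exp_le_exp.2 ?_
      have h2 : aj (j + 2) + κ ≤ Real.log c + 2 * κ := by
        show -(Real.log A) - κ + ((j + 2 : ℕ) : ℝ) * κ + κ ≤ _
        push_cast
        linarith
      nlinarith
    have hcA : c ^ (-(2 * V)) ≤ A ^ (2 * V) := by
      rw [Real.rpow_neg hc0.le, ← Real.inv_rpow hc0.le]
      refine Real.rpow_le_rpow (by positivity) ?_ (by positivity)
      rw [inv_le_comm₀ hc0 hA0, ← one_div]
      exact hc1
    have hcp : 0 < c ^ (-(2 * V)) := Real.rpow_pos_of_pos hc0 _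
    have hex : 1 ≤ Real.exp (4 * V * κ) := Real.one_le_exp (by positivity)
    have hex2 : 2 - Real.exp (4 * V * κ) ≤ Real.exp (-(4 * V * κ)) := by
      have h2 : Real.exp (-(4 * V * κ)) * Real.exp (4 * V * κ) = 1 := by
        rw [← Real.exp_add, neg_add_cancel, Real.exp_zero]
      have h3 := Real.exp_pos (-(4 * V * κ))
      nlinarith [sq_nonneg (Real.exp (4 * V * κ) - 1)]
    have hmul : c ^ (-(2 * V)) * (Real.exp (4 * V * κ) - 1) ≤ ε / 4 :=
      (mul_le_mul_of_nonneg_right hcA (by linarith)).trans hκ1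
    have he8 : 2 * V * ε2 ≤ ε / 4 := by
      have h2 : ε2 ≤ ε / (8 * V) := min_le_left _ _
      have h3 : 2 * V * (ε / (8 * V)) = ε / 4 := by
        field_simp
        ring
      have h4 : 2 * V * ε2 ≤ 2 * V * (ε / (8 * V)) := mul_le_mul_of_nonneg_left h2 (by positivity)
      linarith
    have h2V : 0 < 2 * V := by positivity
    rw [hR] at hbad
    set y : ℝ := (1 / H) * (sq δ * vol / (akR V * (2 * δ) ^ (V ^ 2))) with hy
    have up : 2 * V * y ≤ c ^ (-(2 * V)) + ε / 2 := by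
      have h2 : y ≤ Real.exp (-(2 * V * aj j)) / (2 * V) + ε2 := by linarith
      have h3 : 2 * V * y ≤ 2 * V * (Real.exp (-(2 * V * aj j)) / (2 * V) + ε2) := mul_le_mul_of_nonneg_left h2 h2V.le
      have h4 : 2 * V * (Real.exp (-(2 * V * aj j)) / (2 * V) + ε2) = Real.exp (-(2 * V * aj j)) + 2 * V * ε2 := by
        field_simp
      nlinarith
    have lo : c ^ (-(2 * V)) - ε / 2 ≤ 2 * V * y := by
      have h2 : Real.exp (-(2 * V * (aj (j + 2) + κ))) / (2 * V) - ε2 ≤ y := by linarith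
      have h3 : 2 * V * (Real.exp (-(2 * V * (aj (j + 2) + κ))) / (2 * V) - ε2) ≤ 2 * V * y :=
        mul_le_mul_of_nonneg_left h2 h2V.le
      have h4 : 2 * V * (Real.exp (-(2 * V * (aj (j + 2) + κ))) / (2 * V) - ε2) =
          Real.exp (-(2 * V * (aj (j + 2) + κ))) - 2 * V * ε2 := by
        field_simp
      nlinarith
    have : |2 * V * y - c ^ (-(2 * V))| ≤ ε / 2 := by
      rw [abs_le]
      constructor <;> linarith
    linarith
  refine (measure_mono hsub).trans ((measure_biUnion_finset_le _ _).trans ?_)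
  have h3 : ∑ j ∈ Finset.range (J + 3), volume (E j) ≤ ∑ _j ∈ Finset.range (J + 3), ENNReal.ofReal (ε2 * X) :=
    Finset.sum_le_sum fun j hj => hE j (Finset.mem_range.1 hj)
  refine h3.trans ?_
  rw [Finset.sum_const, Finset.card_range, nsmul_eq_mul, ← ENNReal.ofReal_natCast, ← ENNReal.ofReal_mul (by positivity)]
  refine ENNReal.ofReal_le_ofReal ?_
  have h4 : ε2 ≤ ε / N := min_le_right _ _
  have h5 : ((J + 3 : ℕ) : ℝ) * ε2 ≤ ε := by
    calc ((J + 3 : ℕ) : ℝ) * ε2 ≤ N * (ε / N) := by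
          refine mul_le_mul ?_ h4 hε20.le hN0.le
          rw [hN]
          push_cast
          linarith
      _ = ε := by field_simp
  calc ((J + 3 : ℕ) : ℝ) * (ε2 * X) = (((J + 3 : ℕ) : ℝ) * ε2) * X := by ring
    _ ≤ ε * X := mul_le_mul_of_nonneg_right h5 hX0.le

end Run7.h291.WL
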