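import Pool.Agent.Run7.h291.WL.D1
import Pool.Agent.Run7.h291.WL.C4

set_option autoImplicit false

/-! Large values in windows: the mean of the local weight (LL1) -/

namespace Run7.h291.WL

open Finset Filter MeasureTheory Topology Complex
open Pool.Agent.N748.MG Pool.Agent.N748.MJ Run7.h291.WN

lemma zfin (δ T : ℝ) : {t : ℝ | t ∈ Set.Icc 0 T ∧ mz δ t = 0}.Finite := by
  have hc : Continuous fun t : ℝ => pw δ t := by
    unfold pw
    fun_prop
  have h1 := ((isCompact_Icc (a := (0:ℝ)) (b := T)).image hc).inter_riemannZetaZeros_finite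
  have hinj : Function.Injective fun t : ℝ => pw δ t := by
    intro a b hab
    have := congrArg Complex.im hab
    unfold pw at this
    simpa using this
  refine (h1.preimage (hinj.injOn)).subset fun t ht => ?_
  refine ⟨⟨t, ht.1, rfl⟩, ?_⟩
  rw [mem_riemannZetaZeros]
  exact norm_eq_zero.1 ht.2

theorem ll1 : S_LL1 := by
  intro V hV g S hgm hgc hC1 hC2 ε hε
  refine ev_of_seq fun d hd => ?_
  have ha := akp V
  set h : ℝ → ℝ := fun x => Real.exp (2 * V * x) * g x with hh
  have key := ldF d hd V h S ((by fun_prop : Measurable fun x : ℝ => Real.exp (2 * V * x)).mul hgm)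
    (fun x hx => (by fun_prop : Continuous fun x : ℝ => Real.exp (2 * V * x)).continuousAt.mul (hgc x hx))
    (by
      obtain ⟨C, hC⟩ := hC2
      refine ⟨C, fun x => ?_⟩
      rw [hh]
      simp only
      rw [abs_mul, abs_of_pos (Real.exp_pos _), mul_comm]
      exact hC x)
    (by
      obtain ⟨C, hC⟩ := hC1
      refine ⟨C, fun x => ?_⟩
      rw [hh]
      simp only
      rw [abs_mul, abs_of_pos (Real.exp_pos _)]
      calc Real.exp (2 * V * x) * |g x| * (1 + x ^ 2) = |g x| * (1 + x ^ 2) * Real.exp (2 * V * x) := by ring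
        _ ≤ C * Real.exp (2 * V * x) := mul_le_mul_of_nonneg_right (hC x) (Real.exp_pos _).le)
  have e1 : ∫ x, Real.exp (-(2 * V * x)) * h x = ∫ x, g x := by
    refine integral_congr_ae (Eventually.of_forall fun x => ?_)
    rw [hh]
    simp only
    rw [← mul_assoc, ← Real.exp_add, neg_add_cancel, Real.exp_zero, one_mul]
  have e2 : (aC V).re = akR V := aC_re V
  rw [e1, e2] at key
  have key2 := key.div_const (akR V)
  rw [mul_div_cancel_left₀ _ ha.ne'] at key2
  filter_upwards [(Metric.tendsto_nhds.1 key2 ε hε), eventually_gt_atTop (0:ℝ), hd.pos, hd.t0.eventually_le_const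
    (show (0:ℝ) < 1 / 16 by norm_num)] with T hT hT0 hd0 hd1
  have e3 : ∫ t in (0:ℝ)..T, FG V g (d T) t = ∫ t in (0:ℝ)..T, (Real.sqrt (Real.pi * Real.log (1 / (2 * d T))) *
      (2 * d T) ^ (-(V ^ 2)) / akR V) * h (Real.log ‖riemannZeta (pw (d T) t)‖ - V * Real.log (1 / (2 * d T))) := by
    refine intervalIntegral.integral_congr_ae ?_
    have h1 := (zfin (d T) T).countable.ae_notMem volume
    filter_upwards [h1] with t ht hmem
    rw [Set.uIoc_of_le hT0.le] at hmem
    have hz : 0 < mz (d T) t := by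
      refine lt_of_le_of_ne (TMA.mz_nn _ _) fun h0 => ht ⟨⟨hmem.1.le, hmem.2⟩, h0.symm⟩
    have h2 : 0 < 2 * d T := by linarith
    show FG V g (d T) t = _
    unfold FG Zk
    show Real.sqrt (Real.pi * Real.log (1 / (2 * d T))) * g (Real.log (mz (d T) t) - V * Real.log (1 / (2 * d T))) *
      ((2 * d T) ^ V ^ 2 / akR V * mz (d T) t ^ (2 * V)) = _ * (Real.exp (2 * V * (Real.log (mz (d T) t) -
        V * Real.log (1 / (2 * d T)))) * g (Real.log (mz (d T) t) - V * Real.log (1 / (2 * d T))))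
    set x : ℝ := Real.log (mz (d T) t) - V * Real.log (1 / (2 * d T)) with hx
    have h3 : mz (d T) t ^ (2 * V) = Real.exp (2 * V * x) * (2 * d T) ^ (-(2 * V ^ 2)) := by
      rw [Real.rpow_def_of_pos hz, Real.rpow_def_of_pos h2, ← Real.exp_add]
      congr 1
      have h6 : Real.log (1 / (2 * d T)) = -Real.log (2 * d T) := by rw [one_div, Real.log_inv]
      rw [hx, h6]
      ring
    have h4 : (2 * d T) ^ (V ^ 2) * (2 * d T) ^ (-(2 * V ^ 2)) = (2 * d T) ^ (-(V ^ 2)) := by
      rw [← Real.rpow_add h2]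
      congr 1
      ring
    rw [h3, ← h4]
    ring
  rw [Real.dist_eq] at hT
  rw [e3, intervalIntegral.integral_const_mul]
  have e4 : (Real.sqrt (Real.pi * Real.log (1 / (2 * d T))) * (2 * d T) ^ (-(V ^ 2)) / akR V) *
      (∫ t in (0:ℝ)..T, h (Real.log ‖riemannZeta (pw (d T) t)‖ - V * Real.log (1 / (2 * d T)))) - T * ∫ x, g x =
      T * (Real.sqrt (Real.pi * Real.log (1 / (2 * d T))) * (2 * d T) ^ (-(V ^ 2)) *
        ((1 / T) * ∫ t in (0:ℝ)..T, h (Real.log ‖riemannZeta (pw (d T) t)‖ - V * Real.log (1 / (2 * d T)))) / akR V -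
          ∫ x, g x) := by
    field_simp
  rw [e4, abs_mul, abs_of_pos hT0, mul_comm]
  exact mul_le_mul_of_nonneg_right hT.le hT0.le

end Run7.h291.WL
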