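import Pool.Agent.Run7.h291.WL.Stm
import Pool.Agent.N748.MG.Fin

set_option autoImplicit false

/-! Large values in windows: the mean of the local weight -/

namespace Run7.h291.WL

open Finset Filter MeasureTheory Topology Complex
open Pool.Agent.N748.MG Pool.Agent.N748.MJ Run7.h291.WN

/-- a default choice of the distance -/
noncomputable def dd (T : ℝ) : ℝ := Real.log T ^ (-(1:ℝ) / 2)

lemma dd_tL : Tendsto (fun T : ℝ => dd T * Real.log T / Real.log (1 / dd T) ^ 2) atTop atTop := by
  have h1 : Tendsto (fun x : ℝ => x ^ ((1:ℝ) / 2) / ((1 / 2) * Real.log x) ^ 2) atTop atTop := by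
    have h2 : Tendsto (fun x : ℝ => ((1 / 2) * Real.log x) ^ 2 / x ^ ((1:ℝ) / 2)) atTop (𝓝 0) := by
      have h3 := (isLittleO_log_rpow_rpow_atTop (2:ℝ) (show (0:ℝ) < 1 / 2 by norm_num)).tendsto_div_nhds_zero
      have h4 := h3.const_mul (1 / 4 : ℝ)
      rw [mul_zero] at h4
      refine h4.congr fun x => ?_
      rw [Real.rpow_two]
      ring
    have h5 : ∀ᶠ x : ℝ in atTop, 0 < ((1 / 2) * Real.log x) ^ 2 / x ^ ((1:ℝ) / 2) := by
      filter_upwards [eventually_gt_atTop (1:ℝ)] with x hx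
      have := Real.log_pos hx
      positivity
    have h6 : Tendsto (fun x : ℝ => ((1 / 2) * Real.log x) ^ 2 / x ^ ((1:ℝ) / 2)) atTop (𝓝[>] 0) :=
      tendsto_nhdsWithin_iff.2 ⟨h2, h5⟩
    have h7 := h6.inv_tendsto_nhdsGT_zero
    refine h7.congr fun x => ?_
    rw [Pi.inv_apply, inv_div]
  have h8 := h1.comp Real.tendsto_log_atTop
  refine h8.congr' ?_
  filter_upwards [eventually_gt_atTop (Real.exp 1)] with T hT
  have hT1 : 1 < Real.log T := by
    rw [← Real.log_exp 1]
    exact Real.log_lt_log (Real.exp_pos 1) hT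
  have h0 : 0 < Real.log T := by linarith
  simp only [Function.comp]
  unfold dd
  have e1 : Real.log T ^ (-(1:ℝ) / 2) * Real.log T = Real.log T ^ ((1:ℝ) / 2) := by
    nth_rw 2 [← Real.rpow_one (Real.log T)]
    rw [← Real.rpow_add h0]
    norm_num
  have e2 : Real.log (1 / Real.log T ^ (-(1:ℝ) / 2)) = 1 / 2 * Real.log (Real.log T) := by
    rw [one_div, Real.log_inv, Real.log_rpow h0]
    ring
  rw [e1, e2]

lemma dd_t0 : Tendsto dd atTop (𝓝 0) := by
  have h1 : Tendsto (fun x : ℝ => x ^ (-((1:ℝ) / 2))) atTop (𝓝 0) := tendsto_rpow_neg_atTop (by norm_num)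
  have h2 := h1.comp Real.tendsto_log_atTop
  refine h2.congr fun T => ?_
  show Real.log T ^ (-((1:ℝ) / 2)) = Real.log T ^ (-(1:ℝ) / 2)
  rw [neg_div]

open Classical in
/-- the distance with given values along a sequence -/
noncomputable def dsel (x e : ℕ → ℝ) (T : ℝ) : ℝ := if h : ∃ n : ℕ, x n = T then e (Classical.choose h) else dd T

/-- sequences suffice -/
theorem ev_of_seq {P : ℝ → ℝ → Prop} (h : ∀ d : ℝ → ℝ, Ad d → ∀ᶠ T in atTop, P T (d T)) : Ev P := by
  by_contra hE
  have hfr : ∀ (n : ℕ) (a : ℝ), ∃ X δ : ℝ, a ≤ X ∧ 0 < δ ∧ δ ≤ 1 / ((n:ℝ) + 16) ∧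
      ((n:ℝ) + 1) * Real.log (1 / δ) ^ 2 ≤ δ * Real.log X ∧ ¬ P X δ := by
    intro n a
    by_contra hcon
    push Not at hcon
    refine hE ⟨(n:ℝ) + 1, 1 / ((n:ℝ) + 16), by positivity, by positivity, ?_, ?_⟩
    · exact one_div_le_one_div_of_le (by norm_num) (by linarith [(Nat.cast_nonneg n : (0:ℝ) ≤ n)])
    · filter_upwards [eventually_ge_atTop a] with X hX δ h1 h2 h3
      exact hcon X δ hX h1 h2 h3
  choose FX Fδ h1 h2 h3 h4 h5 using hfr
  -- the sequence
  let x : ℕ → ℝ := fun n => Nat.rec (motive := fun _ => ℝ) (FX 0 0) (fun n xn => FX (n + 1) (xn + 1)) n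
  let a : ℕ → ℝ := fun n => Nat.casesOn (motive := fun _ => ℝ) n 0 fun m => x m + 1
  have hxa : ∀ n, x n = FX n (a n) := by
    intro n
    cases n with
    | zero => rfl
    | succ m => rfl
  have hstep : ∀ n, x n + 1 ≤ x (n + 1) := fun n => h1 (n + 1) (x n + 1)
  have hmono : StrictMono x := strictMono_nat_of_lt_succ fun n => by linarith [hstep n]
  have hx0 : ∀ n : ℕ, (n:ℝ) ≤ x n := by
    intro n
    induction n with
    | zero =>
      show ((0:ℕ):ℝ) ≤ FX 0 0
      rw [Nat.cast_zero]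
      exact h1 0 0
    | succ m ih =>
      push_cast
      linarith [hstep m]
  obtain ⟨d, hd⟩ : ∃ d : ℝ → ℝ, d = dsel x fun n => Fδ n (a n) := ⟨_, rfl⟩
  have hd1 : ∀ n, d (x n) = Fδ n (a n) := by
    intro n
    have hex : ∃ m : ℕ, x m = x n := ⟨n, rfl⟩
    have hn : Classical.choose hex = n := hmono.injective (Classical.choose_spec hex)
    rw [hd]
    unfold dsel
    rw [dif_pos hex, hn]
  have hd2 : ∀ T, (¬ ∃ n : ℕ, x n = T) → d T = dd T := fun T hT => by
    rw [hd]
    unfold dsel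
    rw [dif_neg hT]
  have hAd : Ad d := by
    refine ⟨?_, ?_, ?_⟩
    · filter_upwards [eventually_gt_atTop (1:ℝ)] with T hT
      rcases Classical.em (∃ n : ℕ, x n = T) with ⟨n, rfl⟩ | hc
      · skip
        rw [hd1]
        exact h2 _ _
      · rw [hd2 T hc]
        exact Real.rpow_pos_of_pos (Real.log_pos hT) _
    · rw [tendsto_order]
      constructor
      · intro b hb
        filter_upwards [eventually_gt_atTop (1:ℝ)] with T hT
        rcases Classical.em (∃ n : ℕ, x n = T) with ⟨n, rfl⟩ | hc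
        · skip
          rw [hd1]
          exact hb.trans (h2 _ _)
        · rw [hd2 T hc]
          exact hb.trans (Real.rpow_pos_of_pos (Real.log_pos hT) _)
      · intro b hb
        obtain ⟨N, hN⟩ := exists_nat_gt (1 / b)
        filter_upwards [(tendsto_order.1 dd_t0).2 b hb, eventually_ge_atTop (x N)] with T hT1 hT2
        rcases Classical.em (∃ n : ℕ, x n = T) with ⟨n, rfl⟩ | hc
        · skip
          rw [hd1]
          have hn : N ≤ n := hmono.le_iff_le.1 hT2
          refine (h3 _ _).trans_lt ?_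
          rw [div_lt_iff₀ (by positivity)]
          rw [div_lt_iff₀ hb] at hN
          have : (N:ℝ) ≤ n := by exact_mod_cast hn
          nlinarith
        · rw [hd2 T hc]
          exact hT1
    · rw [tendsto_atTop]
      intro b
      obtain ⟨N, hN⟩ := exists_nat_gt b
      filter_upwards [dd_tL.eventually_ge_atTop b, eventually_ge_atTop (x N)] with T hT1 hT2
      rcases Classical.em (∃ n : ℕ, x n = T) with ⟨n, rfl⟩ | hc
      · skip
        have hn : N ≤ n := hmono.le_iff_le.1 hT2
        have h6 := h4 n (a n)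
        rw [← hxa] at h6
        rw [hd1]
        have h7 : 1 ≤ Real.log (1 / Fδ n (a n)) := log_inv_ge (h2 _ _) ((h3 _ _).trans
          (one_div_le_one_div_of_le (by norm_num) (by linarith [(Nat.cast_nonneg n : (0:ℝ) ≤ n)])))
        rw [le_div_iff₀ (by positivity)]
        refine le_trans (mul_le_mul_of_nonneg_right ?_ (sq_nonneg _)) h6
        have : (N:ℝ) ≤ n := by exact_mod_cast hn
        linarith
      · rw [hd2 T hc]
        exact hT1
  obtain ⟨T0, hT0⟩ := eventually_atTop.1 (h d hAd)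
  obtain ⟨n, hn⟩ := exists_nat_gt T0
  have h8 := hT0 (x n) (by linarith [hx0 n])
  rw [hd1, hxa] at h8
  exact h5 n (a n) h8

end Run7.h291.WL
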