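import Pool.Agent.Run7.h291.WL.Stm
import Pool.Agent.Run7.h291.WN.A11

set_option autoImplicit false

/-! Large values in windows: the local weights -/

namespace Run7.h291.WL

open Finset Filter MeasureTheory Topology Complex
open Pool.Agent.N748.MG Pool.Agent.N748.MJ Run7.h291.WN

/-- the points beyond the barrier carry little mass, with a power saving -/
lemma beyondP (n : ℕ) (hn : 1 ≤ n) (k η W : ℝ) (hk : 0 < k) (hη : 0 < η) (hW : 0 ≤ W) :
    ∃ C : ℝ, 0 < C ∧ Ev fun X δ => ∀ i : Fin n,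
    ∫ t in (0:ℝ)..X, FP k W δ t * (1 - psi (bar n (k + η) δ ((((i:ℕ):ℝ) + 1) / n) t)) ≤
      C * δ ^ (η ^ 2 / (2 * n)) * X + δ * X := by
  have hn0 : (0:ℝ) < n := by exact_mod_cast hn
  set γ : ℝ := η / 2 with hγ
  have hγ0 : 0 < γ := by positivity
  obtain ⟨c, C, hc, hC, HJ⟩ := jmr (n + 1) (k + γ) (W + 1) (by positivity) (by linarith)
  obtain ⟨C1, H1⟩ := Lr_tilt n hn k γ hk.le hγ0.le
  have ha := akp k
  set Ct : ℝ := (2:ℝ) ^ (k ^ 2) / akR k * ((C + 1) * Real.exp C1) with hCt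
  have hCtp : 0 < Ct := by positivity
  have hX : ∀ᶠ X : ℝ in atTop, ((n:ℝ) + 2) ≤ X ^ ((1:ℝ) / 2) :=
    (tendsto_rpow_atTop (by norm_num)).eventually_ge_atTop _
  refine ⟨Ct, hCtp, ((HJ 1 one_pos).and (Ev.of_ev hX)).mono ?_⟩
  rintro X δ hX1 h0 h1 ⟨HJ, hX2⟩ i
  set x : ℝ := (((i:ℕ):ℝ) + 1) / n with hx
  have hx0 : 0 ≤ x := by positivity
  have hx1 : x ≤ 1 := by
    rw [hx, div_le_one hn0]
    exact_mod_cast i.2
  have hxn : 1 / n ≤ x := by
    rw [hx]
    gcongr
    linarith [(Nat.cast_nonneg (i:ℕ) : (0:ℝ) ≤ (i:ℕ))]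
  have hp := Real.rpow_pos_of_pos h0 x
  have hx1' : δ ^ x ≤ 1 := Real.rpow_le_one h0.le (by linarith) hx0
  have hX0 : 0 < X := by linarith
  obtain ⟨N, n1, n2, n3, n4, n5⟩ := HJ (hT n δ x) (by
    intro j
    refine le_trans ?_ hX2
    unfold hT
    refine Fin.cases ?_ (fun j => ?_) j
    · rw [Fin.cons_zero, abs_zero]
      positivity
    · rw [Fin.cons_succ, abs_of_pos (sh_pos h0 j)]
      have := sh_le (x := x) h0 j
      nlinarith)
  obtain ⟨a, a1, a2, a3, a4, a5⟩ := n5 (kT n k γ) (by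
    intro j
    unfold kT
    refine Fin.cases ?_ (fun j => ?_) j
    · rw [Fin.cons_zero, abs_of_pos hk]
      linarith
    · rw [Fin.cons_succ, abs_of_pos (by positivity)]
      have : γ / n ≤ γ := div_le_self hγ0.le (by exact_mod_cast hn)
      linarith)
  have hLr := H1 δ h0 h1 x hx0 hx1
  set E : ℝ := SM.Lr (kT n k γ) (hT n δ x) δ with hE
  have hI : ∫ t in N, SM.G (kT n k γ) (hT n δ x) δ t ≤ X * ((C + 1) * Real.exp E) := by
    have := (abs_le.1 a5).2
    have he := Real.exp_pos E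
    have h2 : X * (a * Real.exp E) ≤ X * (C * Real.exp E) :=
      mul_le_mul_of_nonneg_left (mul_le_mul_of_nonneg_right a2 he.le) hX0.le
    linarith
  have hmz : ∀ t ∈ N, ∀ j : Fin n, 0 < mz δ (t + sh n δ x j) := by
    intro t ht j
    have := n4 t ht (Fin.succ j)
    unfold hT at this
    rwa [Fin.cons_succ] at this
  set cc : ℝ := (2 * δ) ^ (k ^ 2) / akR k * δ ^ (x * (k + η) * (2 * γ)) with hcc
  have hcc0 : 0 ≤ cc := by
    have := Real.rpow_nonneg (show 0 ≤ 2 * δ by linarith) (k ^ 2)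
    have := Real.rpow_nonneg h0.le (x * (k + η) * (2 * γ))
    positivity
  have hmain := offN (g := fun t => FP k W δ t * (1 - psi (bar n (k + η) δ x t)))
    (G := fun t => SM.G (kT n k γ) (hT n δ x) δ t) (N := N) (X := X) (B := δ ^ (-W) * 1)
    (c := cc) (v := δ ^ (W + 1) * X) hX0.le n1 n2 n3
    (mul_nonneg (Real.rpow_nonneg h0.le _) hX0.le)
    ((FP_cont hk.le h1).mul (continuous_const.sub (psi_cont.comp (bar_cont h1))))
    (fun t => mul_nonneg (FP_nn h0.le _) (by linarith [psi_le (bar n (k + η) δ x t)]))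
    (fun t => mul_le_mul (FP_le' _) (by linarith [psi_nn (bar n (k + η) δ x t)])
      (by linarith [psi_le (bar n (k + η) δ x t)]) (Real.rpow_nonneg h0.le _)) a4 (fun t ht => by
        have g1 := psi_lo (bar_nn h0.le t : 0 ≤ bar n (k + η) δ x t) (show 0 ≤ 2 * γ by linarith)
        refine (mul_le_mul (FP_le t) g1 (by linarith [psi_le (bar n (k + η) δ x t)]) (Zk_nn h0.le t)).trans
          (le_of_eq ?_)
        rw [bar_rpow h0 (hmz t ht), G_kT]
        unfold Zk
        have e2 : ∀ j : Fin n, mz δ (t + sh n δ x j) ^ (2 * γ / n) = mz δ (t + sh n δ x j) ^ (2 * (γ / n)) := by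
          intro j
          congr 1
          ring
        rw [Finset.prod_congr rfl fun j _ => e2 j, hcc]
        ring)
  refine hmain.trans ?_
  have f1 : δ ^ (-W) * 1 * (δ ^ (W + 1) * X) = δ * X := by
    rw [mul_one, ← mul_assoc, ← Real.rpow_add h0]
    have : -W + (W + 1) = 1 := by ring
    rw [this, Real.rpow_one]
  have f2 : Real.exp E ≤ Real.exp C1 * δ ^ (-(k ^ 2 + 2 * k * γ * x + γ ^ 2 * (x + 1 / n))) := by
    rw [← expL h0, ← Real.exp_add]
    exact Real.exp_le_exp.2 (by linarith)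
  have f3 : cc = (2:ℝ) ^ (k ^ 2) / akR k * δ ^ (k ^ 2 + x * (k + η) * (2 * γ)) := by
    rw [hcc, Real.mul_rpow (by norm_num) h0.le, Real.rpow_add h0]
    ring
  have f4 : δ ^ (k ^ 2 + x * (k + η) * (2 * γ)) * δ ^ (-(k ^ 2 + 2 * k * γ * x + γ ^ 2 * (x + 1 / n))) ≤
      δ ^ (η ^ 2 / (2 * n)) := by
    rw [← Real.rpow_add h0]
    refine Real.rpow_le_rpow_of_exponent_ge h0 (by linarith) ?_
    have g1 : η ^ 2 / (2 * n) = η ^ 2 / 2 * (1 / n) := by ring
    have g2 : γ ^ 2 * (x + 1 / n) ≤ γ ^ 2 * (2 * x) := mul_le_mul_of_nonneg_left (by linarith) (by positivity)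
    have g3 : η ^ 2 / 2 * (1 / n) ≤ η ^ 2 / 2 * x := mul_le_mul_of_nonneg_left hxn (by positivity)
    have g4 : x * (k + η) * (2 * γ) = 2 * k * γ * x + η ^ 2 * x := by
      rw [hγ]
      ring
    have g5 : γ ^ 2 * (2 * x) = η ^ 2 / 2 * x := by
      rw [hγ]
      ring
    rw [g1]
    linarith
  calc cc * (∫ t in N, SM.G (kT n k γ) (hT n δ x) δ t) + δ ^ (-W) * 1 * (δ ^ (W + 1) * X)
      ≤ cc * (X * ((C + 1) * (Real.exp C1 * δ ^ (-(k ^ 2 + 2 * k * γ * x + γ ^ 2 * (x + 1 / n)))))) + δ * X := by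
        rw [f1]
        refine add_le_add (mul_le_mul_of_nonneg_left (hI.trans ?_) hcc0) le_rfl
        exact mul_le_mul_of_nonneg_left (mul_le_mul_of_nonneg_left f2 (by linarith)) hX0.le
    _ = Ct * (δ ^ (k ^ 2 + x * (k + η) * (2 * γ)) *
          δ ^ (-(k ^ 2 + 2 * k * γ * x + γ ^ 2 * (x + 1 / n)))) * X + δ * X := by
        rw [f3, hCt]
        ring
    _ ≤ Ct * δ ^ (η ^ 2 / (2 * n)) * X + δ * X := by
        refine add_le_add (mul_le_mul_of_nonneg_right (mul_le_mul_of_nonneg_left f4 hCtp.le) hX0.le) le_rfl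


/-! ### the local weight -/

lemma FGc {V : ℝ} (hV : 0 < V) {g : ℝ → ℝ} (hg : Continuous g) {B : ℝ} (hgB : ∀ x, x ≤ B → g x = 0) (c : ℝ) :
    Continuous fun x : ℝ => g (Real.log x - c) * |x| ^ (2 * V) := by
  rw [continuous_iff_continuousAt]
  intro x
  rcases eq_or_ne x 0 with hx | hx
  · subst hx
    have h1 : ∀ᶠ y : ℝ in 𝓝 0, g (Real.log y - c) * |y| ^ (2 * V) = 0 := by
      have h2 : ∀ᶠ y : ℝ in 𝓝[≠] 0, Real.log y ≤ B + c :=
        (Real.tendsto_log_nhdsNE_zero).eventually_le_atBot _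
      rw [eventually_nhdsWithin_iff] at h2
      filter_upwards [h2] with y hy
      rcases eq_or_ne y 0 with h3 | h3
      · rw [h3, abs_zero, Real.zero_rpow (by positivity), mul_zero]
      · rw [hgB _ (by linarith [hy h3]), zero_mul]
    have h3 : (fun x : ℝ => g (Real.log x - c) * |x| ^ (2 * V)) =ᶠ[𝓝 0] fun _ => 0 := h1
    exact (continuousAt_const.congr h3.symm)
  · refine ContinuousAt.mul ?_ ?_
    · exact hg.continuousAt.comp ((Real.continuousAt_log hx).sub continuousAt_const)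
    · exact (continuous_abs.rpow_const fun _ => Or.inr (by positivity)).continuousAt

lemma FG_cont {V : ℝ} (hV : 0 < V) {g : ℝ → ℝ} (hg : Continuous g) {B : ℝ} (hgB : ∀ x, x ≤ B → g x = 0) {δ : ℝ}
    (h1 : δ ≤ 1 / 16) : Continuous fun t => FG V g δ t := by
  have h2 := ((FGc hV hg hgB (V * Real.log (1 / (2 * δ)))).comp (TMA.cont h1)).const_mul
    (Real.sqrt (Real.pi * Real.log (1 / (2 * δ))) * ((2 * δ) ^ (V ^ 2) / akR V))
  refine h2.congr fun t => ?_
  simp only [Function.comp]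
  unfold FG Zk
  rw [abs_of_nonneg (TMA.mz_nn δ t)]
  ring

lemma FG_nn {V : ℝ} {g : ℝ → ℝ} (hg : ∀ x, 0 ≤ g x) {δ : ℝ} (h0 : 0 ≤ δ) (t : ℝ) : 0 ≤ FG V g δ t := by
  unfold FG
  have h1 := hg (Real.log (mz δ t) - V * Real.log (1 / (2 * δ)))
  have h2 := Zk_nn (k := V) h0 t
  have h3 := Real.sqrt_nonneg (Real.pi * Real.log (1 / (2 * δ)))
  positivity

lemma FG_mono {V : ℝ} {g1 g2 : ℝ → ℝ} (h : ∀ x, g1 x ≤ g2 x) {δ : ℝ} (h0 : 0 ≤ δ) (t : ℝ) :
    FG V g1 δ t ≤ FG V g2 δ t := by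
  unfold FG
  refine mul_le_mul_of_nonneg_right (mul_le_mul_of_nonneg_left (h _) (Real.sqrt_nonneg _)) (Zk_nn h0 t)

/-- the product of the barriers -/
noncomputable def BP (n : ℕ) (v δ t : ℝ) : ℝ := ∏ i : Fin n, psi (bar n v δ ((((i:ℕ):ℝ) + 1) / n) t)

lemma BP_nn {n : ℕ} {v δ t : ℝ} : 0 ≤ BP n v δ t := prod_psi_nn
lemma BP_le {n : ℕ} {v δ t : ℝ} : BP n v δ t ≤ 1 := prod_psi_le
lemma BP_cont {n : ℕ} {v δ : ℝ} (h1 : δ ≤ 1 / 16) : Continuous fun t => BP n v δ t := by
  unfold BP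
  exact continuous_finsetProd _ fun i _ => psi_cont.comp (bar_cont h1)

/-- the local weight is at most a multiple of the truncated power -/
lemma FG_le (V W : ℝ) (hV : 0 < V) (hW : 2 * V ^ 2 + 1 ≤ W) (g : ℝ → ℝ) (hg0 : ∀ x, 0 ≤ g x) (M A : ℝ) (hgM : ∀ x, g x ≤ M)
    (hgA : ∀ x, A ≤ x → g x = 0) : Ev fun _ δ => ∀ t : ℝ,
      FG V g δ t ≤ Real.sqrt (Real.pi * Real.log (1 / (2 * δ))) * M * FP V W δ t := by
  have ha := akp V
  have hM : 0 ≤ M := (hg0 0).trans (hgM 0)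
  refine (Ev.small (C := Real.exp (2 * V * A) / akR V) (c := V ^ 2 + 1) (e := 1) (by positivity) one_pos).mono ?_
  intro X δ hX1 h0 h1 hsm t
  have hs := Real.sqrt_nonneg (Real.pi * Real.log (1 / (2 * δ)))
  have hZ := Zk_nn (k := V) h0.le t
  have hF := FP_nn (k := V) (W := W) h0.le t
  by_cases hx : A ≤ Real.log (mz δ t) - V * Real.log (1 / (2 * δ))
  · unfold FG
    rw [hgA _ hx, mul_zero, zero_mul]
    positivity
  · rw [not_le] at hx
    have h2 : Zk V δ t ≤ δ ^ (-W) := by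
      rcases eq_or_lt_of_le (TMA.mz_nn δ t) with h3 | h3
      · unfold Zk
        rw [← h3, Real.zero_rpow (by positivity), mul_zero]
        exact Real.rpow_nonneg h0.le _
      · have h4 : mz δ t ^ (2 * V) ≤ Real.exp (2 * V * A) * (2 * δ) ^ (-(2 * V ^ 2)) := by
          have h5 : Real.log (mz δ t) ≤ A + V * Real.log (1 / (2 * δ)) := by linarith
          rw [Real.rpow_def_of_pos h3, Real.rpow_def_of_pos (by linarith : 0 < 2 * δ), ← Real.exp_add]
          refine Real.exp_le_exp.2 ?_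
          have h6 : Real.log (1 / (2 * δ)) = -Real.log (2 * δ) := by rw [one_div, Real.log_inv]
          rw [h6] at h5
          nlinarith
        unfold Zk
        have h7 : 0 < (2 * δ) ^ (V ^ 2) := Real.rpow_pos_of_pos (by linarith) _
        calc (2 * δ) ^ (V ^ 2) / akR V * mz δ t ^ (2 * V)
            ≤ (2 * δ) ^ (V ^ 2) / akR V * (Real.exp (2 * V * A) * (2 * δ) ^ (-(2 * V ^ 2))) :=
              mul_le_mul_of_nonneg_left h4 (by positivity)
          _ = Real.exp (2 * V * A) / akR V * ((2 * δ) ^ (V ^ 2) * (2 * δ) ^ (-(2 * V ^ 2))) := by ring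
          _ = Real.exp (2 * V * A) / akR V * (2 * δ) ^ (-(V ^ 2)) := by
              rw [← Real.rpow_add (by linarith)]
              congr 2
              ring
          _ ≤ Real.exp (2 * V * A) / akR V * δ ^ (-(V ^ 2)) := by
              refine mul_le_mul_of_nonneg_left ?_ (by positivity)
              exact Real.rpow_le_rpow_of_nonpos h0 (by linarith) (by nlinarith [sq_nonneg V])
          _ = (Real.exp (2 * V * A) / akR V * δ ^ (V ^ 2 + 1)) * δ ^ (-(2 * V ^ 2 + 1)) := by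
              have h9 : δ ^ (V ^ 2 + 1) * δ ^ (-(2 * V ^ 2 + 1)) = δ ^ (-(V ^ 2)) := by
                rw [← Real.rpow_add h0]
                congr 1
                ring
              rw [← h9]
              ring
          _ ≤ 1 * δ ^ (-(2 * V ^ 2 + 1)) := mul_le_mul_of_nonneg_right hsm (Real.rpow_nonneg h0.le _)
          _ ≤ δ ^ (-W) := by
              rw [one_mul]
              exact Real.rpow_le_rpow_of_exponent_ge h0 (by linarith) (by linarith)
    have h8 : FP V W δ t = Zk V δ t := by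
      unfold FP
      exact min_eq_left h2
    rw [h8]
    unfold FG
    exact mul_le_mul_of_nonneg_right (mul_le_mul_of_nonneg_left (hgM _) hs) hZ

end Run7.h291.WL
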