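import Pool.Agent.Run7.h291.WL.C1

set_option autoImplicit false

/-! Large values in windows: the mean square over windows of one length -/

namespace Run7.h291.WL

open Finset Filter MeasureTheory Topology Complex
open Pool.Agent.N748.MG Pool.Agent.N748.MJ Run7.h291.WN

/-- the normalisation -/
noncomputable def sq (δ : ℝ) : ℝ := Real.sqrt (Real.pi * Real.log (1 / (2 * δ)))

lemma log2_nn {δ : ℝ} (h0 : 0 < δ) (h1 : δ ≤ 1 / 16) : 0 ≤ Real.log (1 / (2 * δ)) := by
  refine Real.log_nonneg ?_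
  rw [le_div_iff₀ (by linarith)]
  linarith

lemma sq_sq {δ : ℝ} (h0 : 0 < δ) (h1 : δ ≤ 1 / 16) : sq δ ^ 2 = Real.pi * Real.log (1 / (2 * δ)) := by
  unfold sq
  rw [Real.sq_sqrt (mul_nonneg Real.pi_pos.le (log2_nn h0 h1))]

lemma sq_nn (δ : ℝ) : 0 ≤ sq δ := Real.sqrt_nonneg _

lemma sq_sq_le {δ c : ℝ} (h0 : 0 < δ) (h1 : δ ≤ 1 / 16) (hc : 0 < c) : sq δ ^ 2 ≤ Real.pi / c * δ ^ (-c) := by
  rw [sq_sq h0 h1]
  have h2 : Real.log (1 / (2 * δ)) ≤ (1 / (2 * δ)) ^ c / c := Real.log_le_rpow_div (by positivity) hc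
  have h3 : (1 / (2 * δ)) ^ c ≤ δ ^ (-c) := by
    rw [Real.rpow_neg h0.le, ← Real.inv_rpow h0.le, ← one_div]
    refine Real.rpow_le_rpow (by positivity) ?_ hc.le
    exact one_div_le_one_div_of_le h0 (by linarith)
  calc Real.pi * Real.log (1 / (2 * δ)) ≤ Real.pi * (δ ^ (-c) / c) :=
        mul_le_mul_of_nonneg_left (h2.trans (div_le_div_of_nonneg_right h3 hc.le)) Real.pi_pos.le
    _ = Real.pi / c * δ ^ (-c) := by ring

lemma sq_le {δ c : ℝ} (h0 : 0 < δ) (h1 : δ ≤ 1 / 16) (hc : 0 < c) : sq δ ≤ (Real.pi / c + 1) * δ ^ (-c) := by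
  have h2 := sq_sq_le h0 h1 hc
  have h3 : 1 ≤ δ ^ (-c) := by
    rw [Real.rpow_neg h0.le]
    exact one_le_inv₀ (Real.rpow_pos_of_pos h0 _) |>.2 (Real.rpow_le_one h0.le (by linarith) hc.le)
  have h4 := sq_nn δ
  have h5 : sq δ ≤ sq δ ^ 2 + 1 := by nlinarith [sq_nonneg (sq δ - 1)]
  calc sq δ ≤ sq δ ^ 2 + 1 := h5
    _ ≤ Real.pi / c * δ ^ (-c) + δ ^ (-c) := add_le_add h2 h3
    _ = _ := by ring

lemma one_sub_BP {n : ℕ} {v δ t : ℝ} : 1 - BP n v δ t ≤ ∑ i : Fin n, (1 - psi (bar n v δ ((((i:ℕ):ℝ) + 1) / n) t)) := by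
  have h2 := one_sub_prod Finset.univ (fun i : Fin n => psi (bar n v δ ((((i:ℕ):ℝ) + 1) / n) t))
    (fun i => psi_nn _) (fun i => psi_le _)
  unfold BP
  linarith

lemma winG (hM : S_MNB) (hL1 : S_LL1) (hL2 : S_LL2) (V θ : ℝ) (hV : 0 < V) (hθ : max 1 (V ^ 2) - 1 < θ) :
    ∃ (n : ℕ) (η : ℝ), 1 ≤ n ∧ 0 < η ∧ ∀ g : ℝ → ℝ, Continuous g → (∀ x, 0 ≤ g x) → HasCompactSupport g →
    0 < ∫ x, g x → ∀ ε : ℝ, 0 < ε → Ev fun X δ =>
    (∫ t in (0:ℝ)..X, (Av (δ ^ (-θ)) (fun t => (1 / ∫ x, g x) * (FG V g δ t * BP n (V + η) δ t)) t - 1) ^ 2 ≤ ε * X) ∧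
    (1 - ε) * X ≤ ∫ t in (0:ℝ)..X, (1 / ∫ x, g x) * (FG V g δ t * BP n (V + η) δ t) := by
  set κ : ℝ := max 1 (V ^ 2) with hκ
  have hκ1 : 1 ≤ κ := le_max_left _ _
  set ρ : ℝ := (θ + (κ - 1)) / 2 with hρ
  have hρ1 : κ - 1 < ρ := by
    rw [hρ]
    linarith
  have hρ2 : ρ < θ := by
    rw [hρ]
    linarith
  have hθ0 : 0 < θ := by linarith
  obtain ⟨n, η, hn, hη, H1⟩ := cb_one V ρ hV hρ1
  refine ⟨n, η, hn, hη, fun g hgc hg0 hgs hI ε hε => ?_⟩
  have hn0 : (0:ℝ) < n := by exact_mod_cast hn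
  -- the properties of the weight
  obtain ⟨M, hM0, hgM⟩ : ∃ M : ℝ, 0 < M ∧ ∀ x, g x ≤ M := by
    obtain ⟨C, hC⟩ := hgs.exists_bound_of_continuous hgc
    refine ⟨|C| + 1, by positivity, fun x => ?_⟩
    have h1 := hC x
    rw [Real.norm_of_nonneg (hg0 x)] at h1
    linarith [le_abs_self C]
  obtain ⟨A, hA0, hgA⟩ : ∃ A : ℝ, 0 < A ∧ ∀ x, A < |x| → g x = 0 := by
    obtain ⟨r, hr0, hr⟩ := hgs.isCompact.isBounded.subset_closedBall_lt 0 0
    refine ⟨r, hr0, fun x hx => ?_⟩
    by_contra hne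
    have h1 := hr (subset_tsupport g (Function.mem_support.2 hne))
    rw [Metric.mem_closedBall, dist_zero_right, Real.norm_eq_abs] at h1
    linarith
  have hgA1 : ∀ x, A + 1 ≤ x → g x = 0 := fun x hx => hgA x (by
    have := le_abs_self x
    linarith)
  have hgA2 : ∀ x, x ≤ -(A + 1) → g x = 0 := fun x hx => hgA x (by
    have := neg_abs_le x
    linarith)
  set I : ℝ := ∫ x, g x with hIdef
  set W : ℝ := 2 * V ^ 2 + 1 with hW
  have hW0 : 0 ≤ W := by positivity
  -- the constants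
  set e : ℝ := min (ε / 20) 1 with he
  have he0 : 0 < e := lt_min (by positivity) one_pos
  have he1 : e ≤ 1 := min_le_right _ _
  have he2 : e ≤ ε / 20 := min_le_left _ _
  set e' : ℝ := min (e * I ^ 2) (e * I / 2) with he'
  have he'0 : 0 < e' := lt_min (by positivity) (by positivity)
  obtain ⟨C1, hC1, E1⟩ := H1 W hW0
  obtain ⟨C2, δ0, hC2, hδ0, E3⟩ := hM V hV e he0
  have E2 := hL2 V θ hV hθ0 g hgc hg0 hgs (min e e') (lt_min he0 he'0)
  have E4 := hL1 V hV g ∅ hgc.measurable (fun x _ => hgc.continuousAt)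
    ⟨M * (1 + A ^ 2), fun x => by
      rcases le_or_gt |x| A with h | h
      · rw [abs_of_nonneg (hg0 x)]
        have : x ^ 2 ≤ A ^ 2 := by
          rw [← sq_abs]
          exact pow_le_pow_left₀ (abs_nonneg _) h 2
        exact mul_le_mul (hgM x) (by linarith) (by positivity) hM0.le
      · rw [hgA x h, abs_zero, zero_mul]
        positivity⟩
    ⟨M * Real.exp (2 * V * A), fun x => by
      rcases le_or_gt |x| A with h | h
      · rw [abs_of_nonneg (hg0 x)]
        refine mul_le_mul (hgM x) (Real.exp_le_exp.2 ?_) (Real.exp_pos _).le hM0.le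
        have := (abs_le.1 h).2
        nlinarith
      · rw [hgA x h, abs_zero, zero_mul]
        positivity⟩ e' he'0
  obtain ⟨C5, hC5, E5⟩ := beyondP n hn V η W hV hη hW0
  have E6 := FG_le V W hV (le_refl _) g hg0 M (A + 1) hgM hgA1
  have hθρ : 0 < θ - ρ := by linarith
  set c0 : ℝ := min ((θ - ρ) / 2) (min (η ^ 2 / (4 * n)) (1 / 2)) with hc0
  have hc0p : 0 < c0 := lt_min (by linarith) (lt_min (by positivity) (by norm_num))
  have hc01 : c0 ≤ (θ - ρ) / 2 := min_le_left _ _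
  have hc02 : c0 ≤ η ^ 2 / (4 * n) := (min_le_right _ _).trans (min_le_left _ _)
  have hc03 : c0 ≤ 1 / 2 := (min_le_right _ _).trans (min_le_right _ _)
  set K1 : ℝ := Real.pi / c0 * M ^ 2 / I ^ 2 * C1 with hK1
  have hpi := Real.pi_pos
  have hK1p : 0 < K1 := by positivity
  set K2 : ℝ := (Real.pi / c0 + 1) * M * n * (C5 + 1) with hK2
  have hK2p : 0 < K2 := by positivity
  set K3 : ℝ := (Real.pi / c0 + 1) * M / I with hK3
  have hK3p : 0 < K3 := by positivity
  refine (((((((((((E1.and E2).and E4).and E5).and E6).and (Ev.of_le hδ0)).and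
    (Ev.win (D := θ) (c := 1) (e := (1:ℝ) / 2) one_pos (by norm_num))).and
    (Ev.win (D := θ + 2 * (W + 1)) (c := e) (e := 1) he0 one_pos)).and
    (Ev.win (D := θ + (W + 1)) (c := e) (e := 1) he0 one_pos)).and
    (Ev.small (C := K1) (c := (θ - ρ) / 2) (e := e) (by linarith) he0)).and
    (Ev.small (C := (1 + e) * C2) (c := θ) (e := e) hθ0 he0)).and
    ((Ev.small (C := K2) (c := c0) (e := e * I / 2) hc0p (by positivity)).and
      (Ev.small (C := K3) (c := 1 / 2) (e := 1) (by norm_num) one_pos))).mono ?_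
  rintro X δ hX1 h0 h1 ⟨⟨⟨⟨⟨⟨⟨⟨⟨⟨⟨E1, E2⟩, E4⟩, E5⟩, E6⟩, hδ⟩, w1⟩, w2⟩, w3⟩, s1⟩, s2⟩, s3, s4⟩
  have hX0 : 0 < X := by linarith
  rw [Real.rpow_one] at w2 w3
  rw [one_mul] at w1
  set H : ℝ := δ ^ (-θ) with hH
  have hH0 : 0 < H := Real.rpow_pos_of_pos h0 _
  set Mb : ℝ := δ ^ (-(W + 1)) with hMd
  have hMb0 : 0 < Mb := Real.rpow_pos_of_pos h0 _
  have hsn := sq_nn δ
  have hFGc := FG_cont hV hgc hgA2 h1
  have hBPc : Continuous fun t => BP n (V + η) δ t := BP_cont h1
  set f : ℝ → ℝ := fun t => (1 / I) * (FG V g δ t * BP n (V + η) δ t) with hf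
  have hfc : Continuous f := continuous_const.mul (hFGc.mul hBPc)
  have hFGn : ∀ t, 0 ≤ FG V g δ t := fun t => FG_nn hg0 h0.le t
  have hf0 : ∀ t, 0 ≤ f t := fun t => mul_nonneg (by positivity) (mul_nonneg (hFGn t) BP_nn)
  have hff : ∀ t, f t ≤ (1 / I) * (sq δ * M) * ff n V (V + η) W δ t := by
    intro t
    have g1 : FG V g δ t * BP n (V + η) δ t ≤ sq δ * M * FP V W δ t * BP n (V + η) δ t :=
      mul_le_mul_of_nonneg_right (E6 t) BP_nn
    have g2 : sq δ * M * FP V W δ t * BP n (V + η) δ t = sq δ * M * ff n V (V + η) W δ t := by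
      unfold ff BP
      ring
    rw [g2] at g1
    show (1 / I) * (FG V g δ t * BP n (V + η) δ t) ≤ _
    rw [mul_assoc (1 / I)]
    exact mul_le_mul_of_nonneg_left g1 (by positivity)
  have hrp : ∀ a : ℝ, 0 < δ ^ a := fun a => Real.rpow_pos_of_pos h0 a
  have hfM : ∀ t, f t ≤ Mb := by
    intro t
    have g1 : ff n V (V + η) W δ t ≤ δ ^ (-W) := (ff_le h0.le t).trans (FP_le' t)
    have g2 := sq_le (c := c0) h0 h1 hc0p
    calc f t ≤ (1 / I) * (sq δ * M) * ff n V (V + η) W δ t := hff t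
      _ ≤ (1 / I) * (((Real.pi / c0 + 1) * δ ^ (-c0)) * M) * δ ^ (-W) := by
          refine mul_le_mul ?_ g1 (ff_nn h0.le t) (by have := hrp (-c0); positivity)
          exact mul_le_mul_of_nonneg_left (mul_le_mul_of_nonneg_right g2 hM0.le) (by positivity)
      _ = K3 * (δ ^ (-c0) * δ ^ (-W)) := by
          rw [hK3]
          ring
      _ ≤ K3 * (δ ^ ((1:ℝ) / 2) * Mb) := by
          refine mul_le_mul_of_nonneg_left ?_ hK3p.le
          rw [hMd, ← Real.rpow_add h0, ← Real.rpow_add h0]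
          exact Real.rpow_le_rpow_of_exponent_ge h0 (by linarith) (by linarith)
      _ = (K3 * δ ^ ((1:ℝ) / 2)) * Mb := by ring
      _ ≤ 1 * Mb := mul_le_mul_of_nonneg_right s4 hMb0.le
      _ = Mb := one_mul _
  -- the correlations
  have hcor : Continuous fun u => ∫ t in (0:ℝ)..X, f t * f (t + u) := by
    refine intervalIntegral.continuous_parametric_intervalIntegral_of_continuous (f := fun u t =>
      f t * f (t + u)) ?_ continuous_const
    exact (hfc.comp continuous_snd).mul (hfc.comp (by fun_prop))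
  have hi : ∀ a b : ℝ, IntervalIntegrable (fun u => ∫ t in (0:ℝ)..X, f t * f (t + u)) volume a b := fun a b =>
    hcor.intervalIntegrable a b
  have near : ∀ y : ℝ, 0 ≤ y → y ≤ 1 → ∫ u in (0:ℝ)..y, ∫ t in (0:ℝ)..X, f t * f (t + u) ≤ X * (e * H) := by
    intro y hy hy1
    have hffc : Continuous fun t => ff n V (V + η) W δ t := ff_cont hV.le h1
    have g1 : ∀ u, ∫ t in (0:ℝ)..X, f t * f (t + u) ≤ (1 / I * (sq δ * M)) ^ 2 * cb n V (V + η) W δ X u := by
      intro u
      unfold cb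
      rw [← intervalIntegral.integral_const_mul]
      refine intervalIntegral.integral_mono_on hX0.le ?_ ?_ fun t _ => ?_
      · exact (hfc.mul (hfc.comp (by fun_prop))).intervalIntegrable _ _
      · exact (continuous_const.mul (hffc.mul (hffc.comp (by fun_prop)))).intervalIntegrable _ _
      · calc f t * f (t + u) ≤ ((1 / I) * (sq δ * M) * ff n V (V + η) W δ t) *
              ((1 / I) * (sq δ * M) * ff n V (V + η) W δ (t + u)) :=
              mul_le_mul (hff t) (hff (t + u)) (hf0 _) ((hf0 t).trans (hff t))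
          _ = _ := by ring
    have g2 : ∫ u in (0:ℝ)..y, ∫ t in (0:ℝ)..X, f t * f (t + u) ≤
        ∫ u in (0:ℝ)..y, (1 / I * (sq δ * M)) ^ 2 * cb n V (V + η) W δ X u := by
      refine intervalIntegral.integral_mono_on hy (hi _ _) ?_ fun u _ => g1 u
      exact (continuous_const.mul (cb_cont hV.le h1)).intervalIntegrable _ _
    rw [intervalIntegral.integral_const_mul] at g2
    refine g2.trans ?_
    have g3 := E1 y hy hy1
    have g4 := sq_sq_le (c := (θ - ρ) / 2) h0 h1 (by linarith)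
    have g5 : Real.pi / ((θ - ρ) / 2) ≤ Real.pi / c0 := div_le_div_of_nonneg_left hpi.le hc0p hc01
    have hq := hrp (-((θ - ρ) / 2))
    calc (1 / I * (sq δ * M)) ^ 2 * ∫ u in (0:ℝ)..y, cb n V (V + η) W δ X u
        ≤ (1 / I * (sq δ * M)) ^ 2 * (C1 * (X * δ ^ (-ρ))) := mul_le_mul_of_nonneg_left g3 (by positivity)
      _ = (M ^ 2 / I ^ 2 * C1) * X * (sq δ ^ 2 * δ ^ (-ρ)) := by ring
      _ ≤ (M ^ 2 / I ^ 2 * C1) * X * ((Real.pi / c0 * δ ^ (-((θ - ρ) / 2))) * δ ^ (-ρ)) := by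
          refine mul_le_mul_of_nonneg_left (mul_le_mul_of_nonneg_right (g4.trans ?_) (hrp _).le) (by positivity)
          exact mul_le_mul_of_nonneg_right g5 hq.le
      _ = X * (K1 * (δ ^ (-((θ - ρ) / 2)) * δ ^ (-ρ))) := by
          rw [hK1]
          ring
      _ = X * ((K1 * δ ^ ((θ - ρ) / 2)) * H) := by
          rw [mul_assoc K1, hH, ← Real.rpow_add h0, ← Real.rpow_add h0]
          congr 3
          ring
      _ ≤ X * (e * H) := mul_le_mul_of_nonneg_left (mul_le_mul_of_nonneg_right s1 hH0.le) hX0.le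
  have hme : min e e' ≤ e := min_le_left _ _
  have hme' : min e e' ≤ e * I ^ 2 := (min_le_right _ _).trans (min_le_left _ _)
  have far : ∀ u : ℝ, 1 ≤ u → u ≤ H → ∫ t in (0:ℝ)..X, f t * f (t + u) ≤ X * ((1 + e) * B2 V δ u + e) := by
    intro u hu1 hu2
    have g1 := E2 u hu1 hu2
    have hB : 0 ≤ B2 V δ u := by
      unfold B2
      refine mul_nonneg (div_nonneg ?_ (sq_nonneg _)) (Real.rpow_nonneg (norm_nonneg _) _)
      obtain ⟨c, C, hc, hC, hpos⟩ := posF 2 V hV.le
      obtain ⟨a, ha1, ha2⟩ := (hpos ![0, u]).2 (fun _ => V) (fun _ => by rw [abs_of_pos hV])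
      rw [ha2, Complex.ofReal_re]
      linarith
    have g2 : ∫ t in (0:ℝ)..X, f t * f (t + u) ≤ (1 / I ^ 2) * ∫ t in (0:ℝ)..X, FG V g δ t * FG V g δ (t + u) := by
      rw [← intervalIntegral.integral_const_mul]
      refine intervalIntegral.integral_mono_on hX0.le ?_ ?_ fun t _ => ?_
      · exact (hfc.mul (hfc.comp (by fun_prop))).intervalIntegrable _ _
      · exact (continuous_const.mul (hFGc.mul (hFGc.comp (by fun_prop)))).intervalIntegrable _ _
      · have q1 : FG V g δ t * BP n (V + η) δ t ≤ FG V g δ t * 1 :=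
          mul_le_mul_of_nonneg_left BP_le (hFGn t)
        have q2 : FG V g δ (t + u) * BP n (V + η) δ (t + u) ≤ FG V g δ (t + u) * 1 :=
          mul_le_mul_of_nonneg_left BP_le (hFGn _)
        rw [mul_one] at q1 q2
        have q3 := mul_le_mul q1 q2 (mul_nonneg (hFGn _) BP_nn) (hFGn t)
        calc f t * f (t + u) = (1 / I ^ 2) * ((FG V g δ t * BP n (V + η) δ t) *
              (FG V g δ (t + u) * BP n (V + η) δ (t + u))) := by
              show (1 / I) * (FG V g δ t * BP n (V + η) δ t) * ((1 / I) * (FG V g δ (t + u) * BP n (V + η) δ (t + u))) = _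
              ring
          _ ≤ _ := mul_le_mul_of_nonneg_left q3 (by positivity)
    refine g2.trans ?_
    calc (1 / I ^ 2) * ∫ t in (0:ℝ)..X, FG V g δ t * FG V g δ (t + u)
        ≤ (1 / I ^ 2) * (((1 + min e e') * B2 V δ u * I ^ 2 + min e e') * X) :=
          mul_le_mul_of_nonneg_left g1 (by positivity)
      _ ≤ (1 / I ^ 2) * (((1 + e) * B2 V δ u * I ^ 2 + e * I ^ 2) * X) := by
          refine mul_le_mul_of_nonneg_left (mul_le_mul_of_nonneg_right (add_le_add ?_ hme') hX0.le) (by positivity)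
          exact mul_le_mul_of_nonneg_right (mul_le_mul_of_nonneg_right (by linarith) hB) (by positivity)
      _ = X * ((1 + e) * B2 V δ u + e) := by
          field_simp
  have hprim : ∀ y ∈ Set.Icc 0 H, ∫ u in (0:ℝ)..y, ∫ t in (0:ℝ)..X, f t * f (t + u) ≤
      X * (((1 + e) ^ 2 + e) * y + (e * H + (1 + e) * C2)) := by
    rintro y ⟨hy, hyH⟩
    rcases le_total y 1 with hy1 | hy1
    · refine (near y hy hy1).trans (mul_le_mul_of_nonneg_left ?_ hX0.le)
      have h2 : 0 ≤ ((1 + e) ^ 2 + e) * y + (1 + e) * C2 := by positivity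
      linarith
    · rw [← intervalIntegral.integral_add_adjacent_intervals (hi 0 1) (hi 1 y)]
      have h2 := near 1 zero_le_one le_rfl
      have h3 : ∫ u in (1:ℝ)..y, ∫ t in (0:ℝ)..X, f t * f (t + u) ≤ ∫ h in (1:ℝ)..y, X * ((1 + e) * B2 V δ h + e) := by
        refine intervalIntegral.integral_mono_on hy1 (hi _ _) ?_ fun h hh => ?_
        · exact (continuous_const.mul ((continuous_const.mul (B2_cont h0)).add continuous_const)).intervalIntegrable _ _
        · exact far h hh.1 (hh.2.trans hyH)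
      have h4 : ∫ h in (1:ℝ)..y, X * ((1 + e) * B2 V δ h + e) = X * ((1 + e) * (∫ h in (1:ℝ)..y, B2 V δ h) + (y - 1) * e) := by
        have hq : Continuous fun h : ℝ => (1 + e) * B2 V δ h := continuous_const.mul (B2_cont h0)
        rw [intervalIntegral.integral_const_mul, intervalIntegral.integral_add
          (hq.intervalIntegrable _ _) (by simp),
          intervalIntegral.integral_const_mul, intervalIntegral.integral_const, smul_eq_mul]
      have h5 := E3 δ h0 hδ y hy1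
      rw [h4] at h3
      have h6 : X * ((1 + e) * (∫ h in (1:ℝ)..y, B2 V δ h) + (y - 1) * e) ≤
          X * ((1 + e) * ((1 + e) * y + C2) + y * e) := by
        refine mul_le_mul_of_nonneg_left (add_le_add (mul_le_mul_of_nonneg_left h5 (by linarith)) ?_) hX0.le
        nlinarith
      nlinarith
  -- the mean
  have hmean : (1 - e) * X ≤ ∫ t in (0:ℝ)..X, f t := by
    have hFPc : Continuous fun t => FP V W δ t := FP_cont hV.le h1
    have hti : ∀ i : Fin n, IntervalIntegrable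
        (fun t => FP V W δ t * (1 - psi (bar n (V + η) δ ((((i:ℕ):ℝ) + 1) / n) t))) volume 0 X := fun i =>
      (hFPc.mul (continuous_const.sub (psi_cont.comp (bar_cont h1)))).intervalIntegrable _ _
    have q1 : ∫ t in (0:ℝ)..X, FG V g δ t * (1 - BP n (V + η) δ t) ≤ (sq δ * M) *
        ∑ i : Fin n, ∫ t in (0:ℝ)..X, FP V W δ t * (1 - psi (bar n (V + η) δ ((((i:ℕ):ℝ) + 1) / n) t)) := by
      rw [← intervalIntegral.integral_finsetSum fun i _ => hti i, ← intervalIntegral.integral_const_mul]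
      refine intervalIntegral.integral_mono_on hX0.le ((hFGc.mul (continuous_const.sub hBPc)).intervalIntegrable _ _) ?_
        fun t _ => ?_
      · exact Continuous.intervalIntegrable (by
          refine continuous_const.mul (continuous_finsetSum _ fun i _ => ?_)
          exact hFPc.mul (continuous_const.sub (psi_cont.comp (bar_cont h1)))) _ _
      · rw [← Finset.mul_sum]
        have q2 : 0 ≤ 1 - BP n (V + η) δ t := by linarith [BP_le (n := n) (v := V + η) (δ := δ) (t := t)]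
        calc FG V g δ t * (1 - BP n (V + η) δ t) ≤ (sq δ * M * FP V W δ t) * (1 - BP n (V + η) δ t) :=
              mul_le_mul_of_nonneg_right (E6 t) q2
          _ ≤ (sq δ * M * FP V W δ t) * ∑ i : Fin n, (1 - psi (bar n (V + η) δ ((((i:ℕ):ℝ) + 1) / n) t)) :=
              mul_le_mul_of_nonneg_left one_sub_BP (mul_nonneg (mul_nonneg hsn hM0.le) (FP_nn h0.le t))
          _ = _ := by ring
    have q3 : ∑ i : Fin n, ∫ t in (0:ℝ)..X, FP V W δ t * (1 - psi (bar n (V + η) δ ((((i:ℕ):ℝ) + 1) / n) t)) ≤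
        n * (C5 * δ ^ (η ^ 2 / (2 * n)) * X + δ * X) := by
      calc _ ≤ ∑ _i : Fin n, (C5 * δ ^ (η ^ 2 / (2 * n)) * X + δ * X) := Finset.sum_le_sum fun i _ => E5 i
        _ = _ := by rw [Finset.sum_const, Finset.card_univ, Fintype.card_fin, nsmul_eq_mul]
    have q4 : C5 * δ ^ (η ^ 2 / (2 * n)) * X + δ * X ≤ (C5 + 1) * δ ^ (2 * c0) * X := by
      have r1 : δ ^ (η ^ 2 / (2 * n)) ≤ δ ^ (2 * c0) := by
        refine Real.rpow_le_rpow_of_exponent_ge h0 (by linarith) ?_
        have : η ^ 2 / (2 * n) = 2 * (η ^ 2 / (4 * n)) := by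
          field_simp
          ring
        linarith
      have r2 : δ ≤ δ ^ (2 * c0) := by
        calc δ = δ ^ (1:ℝ) := (Real.rpow_one δ).symm
          _ ≤ δ ^ (2 * c0) := Real.rpow_le_rpow_of_exponent_ge h0 (by linarith) (by linarith)
      have r3 : C5 * δ ^ (η ^ 2 / (2 * n)) * X ≤ C5 * δ ^ (2 * c0) * X :=
        mul_le_mul_of_nonneg_right (mul_le_mul_of_nonneg_left r1 hC5.le) hX0.le
      have r4 : δ * X ≤ δ ^ (2 * c0) * X := mul_le_mul_of_nonneg_right r2 hX0.le
      linarith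
    have q5 := sq_le (c := c0) h0 h1 hc0p
    have q6 : ∫ t in (0:ℝ)..X, FG V g δ t * (1 - BP n (V + η) δ t) ≤ e * I / 2 * X := by
      calc _ ≤ (sq δ * M) * (n * ((C5 + 1) * δ ^ (2 * c0) * X)) := by
            refine q1.trans (mul_le_mul_of_nonneg_left (q3.trans ?_) (mul_nonneg hsn hM0.le))
            exact mul_le_mul_of_nonneg_left q4 hn0.le
        _ ≤ (((Real.pi / c0 + 1) * δ ^ (-c0)) * M) * (n * ((C5 + 1) * δ ^ (2 * c0) * X)) := by
            refine mul_le_mul_of_nonneg_right (mul_le_mul_of_nonneg_right q5 hM0.le) ?_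
            have := hrp (2 * c0)
            positivity
        _ = K2 * (δ ^ (-c0) * δ ^ (2 * c0)) * X := by
            rw [hK2]
            ring
        _ = K2 * δ ^ c0 * X := by
            rw [← Real.rpow_add h0]
            congr 3
            ring
        _ ≤ e * I / 2 * X := mul_le_mul_of_nonneg_right s3 hX0.le
    have q7 : ∫ t in (0:ℝ)..X, f t = (1 / I) * ((∫ t in (0:ℝ)..X, FG V g δ t) -
        ∫ t in (0:ℝ)..X, FG V g δ t * (1 - BP n (V + η) δ t)) := by
      have r1 : Continuous fun t => FG V g δ t * (1 - BP n (V + η) δ t) := hFGc.mul (continuous_const.sub hBPc)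
      rw [← intervalIntegral.integral_sub (hFGc.intervalIntegrable _ _) (r1.intervalIntegrable _ _),
        ← intervalIntegral.integral_const_mul]
      refine intervalIntegral.integral_congr fun t _ => ?_
      show (1 / I) * (FG V g δ t * BP n (V + η) δ t) = _
      ring
    have q8 := (abs_le.1 E4).1
    have q9 : e' ≤ e * I / 2 := min_le_right _ _
    rw [q7, one_div, le_inv_mul_iff₀ hI]
    have q10 : e' * X ≤ e * I / 2 * X := mul_le_mul_of_nonneg_right q9 hX0.le
    nlinarith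
  have hdev := dev_le (f := f) (M := Mb) (X := X) (H := H) (a := (1 + e) ^ 2 + e) (b := e * H + (1 + e) * C2) (e := e)
    hfc hf0 hfM hX0 hH0 hprim hmean
  constructor
  · unfold Av
    refine hdev.trans ?_
    have g1 : 2 * (e * H + (1 + e) * C2) / H ≤ 4 * e := by
      have q2 : 1 / H = δ ^ θ := by
        rw [hH, Real.rpow_neg h0.le, one_div, inv_inv]
      have q3 : 2 * (e * H + (1 + e) * C2) / H = 2 * e + 2 * ((1 + e) * C2 * (1 / H)) := by
        field_simp
      rw [q3, q2]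
      linarith
    have g2 : H * Mb ^ 2 / X ≤ e := by
      rw [div_le_iff₀ hX0]
      have : H * Mb ^ 2 = δ ^ (-(θ + 2 * (W + 1))) := by
        rw [hH, hMd, pow_two, ← Real.rpow_add h0, ← Real.rpow_add h0]
        congr 1
        ring
      rw [this]
      exact w2
    have g3 : 2 * H * Mb / X ≤ 2 * e := by
      rw [div_le_iff₀ hX0]
      have : H * Mb = δ ^ (-(θ + (W + 1))) := by
        rw [hH, hMd, ← Real.rpow_add h0]
        congr 1
        ring
      rw [mul_assoc, this]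
      linarith
    have g4 : (1 + e) ^ 2 + e + 2 * (e * H + (1 + e) * C2) / H + H * Mb ^ 2 / X - 1 + 2 * e +
        2 * H * Mb / X ≤ ε := by
      nlinarith
    calc X * ((1 + e) ^ 2 + e + 2 * (e * H + (1 + e) * C2) / H + H * Mb ^ 2 / X - 1 + 2 * e +
        2 * H * Mb / X) ≤ X * ε := mul_le_mul_of_nonneg_left g4 hX0.le
      _ = ε * X := mul_comm _ _
  · refine le_trans (mul_le_mul_of_nonneg_right ?_ hX0.le) hmean
    linarith

end Run7.h291.WL
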