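import Pool.Agent.Run7.h291.WL.C2

set_option autoImplicit false

/-! Large values in windows: all windows at once -/

namespace Run7.h291.WL

open Finset Filter MeasureTheory Topology Complex
open Pool.Agent.N748.MG Pool.Agent.N748.MJ Run7.h291.WN

lemma g_int {g : ℝ → ℝ} (hgc : Continuous g) (hC : ∃ C : ℝ, ∀ x, |g x| * (1 + x ^ 2) ≤ C) : Integrable g := by
  obtain ⟨C, hC⟩ := hC
  refine (integrable_inv_one_add_sq.const_mul C).mono' hgc.aestronglyMeasurable (Eventually.of_forall fun x => ?_)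
  have h1 : 0 < 1 + x ^ 2 := by positivity
  rw [Real.norm_eq_abs, ← div_eq_mul_inv, le_div_iff₀ h1]
  exact hC x

/-- a compactly supported minorant -/
noncomputable def gR (g : ℝ → ℝ) (R x : ℝ) : ℝ := g x * psi (x - R)

lemma gR_lim {g : ℝ → ℝ} (hgc : Continuous g) (hC : ∃ C : ℝ, ∀ x, |g x| * (1 + x ^ 2) ≤ C) :
    Tendsto (fun R : ℝ => ∫ x, gR g R x) atTop (𝓝 (∫ x, g x)) := by
  refine tendsto_integral_filter_of_dominated_convergence (fun x => |g x|) ?_ ?_ (g_int hgc hC).abs ?_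
  · refine Eventually.of_forall fun R => Continuous.aestronglyMeasurable ?_
    unfold gR
    exact hgc.mul (psi_cont.comp (by fun_prop))
  · refine Eventually.of_forall fun R => Eventually.of_forall fun x => ?_
    unfold gR
    rw [Real.norm_eq_abs, abs_mul, abs_of_nonneg (psi_nn _)]
    exact mul_le_of_le_one_right (abs_nonneg _) (psi_le _)
  · refine Eventually.of_forall fun x => ?_
    refine tendsto_const_nhds.congr' ?_
    filter_upwards [eventually_ge_atTop x] with R hR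
    unfold gR
    rw [psi_one (by linarith), mul_one]

theorem coreG (hM : S_MNB) (hL1 : S_LL1) (hL2 : S_LL2) (V θ D : ℝ) (hV : 0 < V) (hθ : max 1 (V ^ 2) - 1 < θ)
    (hD : 0 ≤ D) (g : ℝ → ℝ) (hgc : Continuous g) (hg0 : ∀ x, 0 ≤ g x) (B : ℝ) (hgB : ∀ x, x ≤ B → g x = 0)
    (hC1 : ∃ C : ℝ, ∀ x, |g x| * (1 + x ^ 2) ≤ C) (hC2 : ∃ C : ℝ, ∀ x, |g x| * Real.exp (2 * V * x) ≤ C)
    (hI : 0 < ∫ x, g x) (ε : ℝ) (hε : 0 < ε) :
    Ev fun X δ => volume {t : ℝ | 0 ≤ t ∧ t ≤ X ∧ ∃ H : ℝ, δ ^ (-θ) ≤ H ∧ H ≤ δ ^ (-D) ∧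
      ε ≤ |(1 / H) * (∫ u in t..(t + H), FG V g δ u) - ∫ x, g x|} ≤ ENNReal.ofReal (ε * X) := by
  set κ : ℝ := max 1 (V ^ 2) with hκ
  have hκ1 : 1 ≤ κ := le_max_left _ _
  set θ0 : ℝ := (θ + (κ - 1)) / 2 with hθ0
  have hθ1 : κ - 1 < θ0 := by
    rw [hθ0]
    linarith
  have hθ2 : θ0 < θ := by
    rw [hθ0]
    linarith
  obtain ⟨n, η, hn, hη, Hw⟩ := winG hM hL1 hL2 V θ0 hV hθ1
  set I : ℝ := ∫ x, g x with hIdef
  set ε1 : ℝ := ε / (4 * (I + 1)) with hε1
  have hε10 : 0 < ε1 := by positivity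
  set c : ℝ := ε1 / 8 with hc
  have hc0 : 0 < c := by positivity
  set s : ℝ := min (c * ε / 24) (ε / 8) with hs
  have hs0 : 0 < s := lt_min (by positivity) (by positivity)
  have hs1 : s ≤ c * ε / 24 := min_le_left _ _
  have hs2 : s ≤ ε / 8 := min_le_right _ _
  set e : ℝ := min (s ^ 2) (c * ε / 48) with he
  have he0 : 0 < e := lt_min (by positivity) (by positivity)
  have he1 : e ≤ s ^ 2 := min_le_left _ _
  have he2 : e ≤ c * ε / 48 := min_le_right _ _
  set κ' : ℝ := min (min (I / 2) (ε / 4)) (I * (c * ε) / 192) with hκ'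
  have hκ'0 : 0 < κ' := lt_min (lt_min (by positivity) (by positivity)) (by positivity)
  have hκ'1 : κ' ≤ I / 2 := (min_le_left _ _).trans (min_le_left _ _)
  have hκ'2 : κ' ≤ ε / 4 := (min_le_left _ _).trans (min_le_right _ _)
  have hκ'3 : κ' ≤ I * (c * ε) / 192 := min_le_right _ _
  -- the minorant
  obtain ⟨R, hR⟩ : ∃ R : ℝ, I - κ' < ∫ x, gR g R x :=
    (((tendsto_order.1 (gR_lim hgc hC1)).1 (I - κ') (by linarith)).exists)
  set g1 : ℝ → ℝ := gR g R with hg1
  have hg1c : Continuous g1 := by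
    rw [hg1]
    unfold gR
    exact hgc.mul (psi_cont.comp (by fun_prop))
  have hg10 : ∀ x, 0 ≤ g1 x := fun x => mul_nonneg (hg0 x) (psi_nn _)
  have hg1g : ∀ x, g1 x ≤ g x := fun x => mul_le_of_le_one_right (hg0 x) (psi_le _)
  have hg1s : HasCompactSupport g1 := by
    refine HasCompactSupport.of_support_subset_isCompact (isCompact_Icc (a := B) (b := R + 2)) fun x hx => ?_
    rw [Function.mem_support] at hx
    constructor
    · by_contra h
      rw [not_le] at h
      refine hx ?_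
      show g x * psi (x - R) = 0
      rw [hgB x h.le, zero_mul]
    · by_contra h
      rw [not_le] at h
      refine hx ?_
      show g x * psi (x - R) = 0
      rw [psi_zero (by linarith), mul_zero]
  set I1 : ℝ := ∫ x, g1 x with hI1def
  have hI1I : I1 ≤ I := integral_mono (hg1c.integrable_of_hasCompactSupport hg1s) (g_int hgc hC1) hg1g
  have hI1p : I / 2 ≤ I1 := by linarith
  have hI1 : 0 < I1 := by linarith
  have E0 := hL1 V hV g ∅ hgc.measurable (fun x _ => hgc.continuousAt) hC1 hC2 κ' hκ'0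
  refine (((((Hw g1 hg1c hg10 hg1s hI1 e he0).up.and E0.up).and
    (Ev.win (D := θ0) (c := 1 / 2) (e := 1) (by norm_num) one_pos)).and
    (Ev.win (D := D) (c := 1 / 2) (e := 1) (by norm_num) one_pos)).and
    (Ev.small (C := 2) (c := θ - θ0) (e := ε1 / 4) (by linarith) (by positivity))).mono ?_
  rintro X δ hX1 h0 h1 ⟨⟨⟨⟨Hw, E0⟩, w1⟩, w2⟩, s1⟩
  rw [Real.rpow_one] at w1 w2
  have hX0 : 0 < X := by linarith
  obtain ⟨E1, E3⟩ := Hw (2 * X) (by linarith)
  have E0 := E0 (2 * X) (by linarith)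
  set l : ℝ := δ ^ (-θ0) with hl
  have hl0 : 0 < l := Real.rpow_pos_of_pos h0 _
  have hFG1c : Continuous fun t => FG V g1 δ t := FG_cont hV hg1c (B := B) (fun x hx => by
    show g x * psi (x - R) = 0
    rw [hgB x hx, zero_mul]) h1
  have hFGc : Continuous fun t => FG V g δ t := FG_cont hV hgc hgB h1
  set f : ℝ → ℝ := fun t => (1 / I1) * (FG V g1 δ t * BP n (V + η) δ t) with hf
  have hfc : Continuous f := continuous_const.mul (hFG1c.mul (BP_cont h1))
  have hf0 : ∀ x, 0 ≤ f x := fun x => mul_nonneg (by positivity) (mul_nonneg (FG_nn hg10 h0.le x) BP_nn)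
  set F : ℝ → ℝ := fun t => (1 / I1) * FG V g δ t with hF
  have hFc : Continuous F := continuous_const.mul hFGc
  have hfF : ∀ x, f x ≤ F x := fun x => by
    refine mul_le_mul_of_nonneg_left ?_ (by positivity)
    calc FG V g1 δ x * BP n (V + η) δ x ≤ FG V g1 δ x * 1 := mul_le_mul_of_nonneg_left BP_le (FG_nn hg10 h0.le x)
      _ = FG V g1 δ x := mul_one _
      _ ≤ FG V g δ x := FG_mono hg1g h0.le x
  have hAc := Av_cont (l := l) hfc
  have hg1c' : Continuous fun t => |Av l f t - 1| := (hAc.sub continuous_const).abs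
  -- the mean of the deviation
  have m1 : ∫ t in (0:ℝ)..(2 * X), |Av l f t - 1| ≤ s * (2 * X) :=
    mean_of_sq (g := fun t => Av l f t - 1) (hAc.sub continuous_const) hs0 (by linarith)
      (E1.trans (mul_le_mul_of_nonneg_right he1 (by linarith)))
  have m2 : ∫ t in (0:ℝ)..(2 * X), (F t - f t) ≤ c * ε / 24 * (2 * X) := by
    rw [intervalIntegral.integral_sub (hFc.intervalIntegrable _ _) (hfc.intervalIntegrable _ _)]
    have q1 : ∫ t in (0:ℝ)..(2 * X), F t = (1 / I1) * ∫ t in (0:ℝ)..(2 * X), FG V g δ t :=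
      intervalIntegral.integral_const_mul _ _
    have q2 := (abs_le.1 E0).2
    have q3 : (1 / I1) * (∫ t in (0:ℝ)..(2 * X), FG V g δ t) ≤ (1 + c * ε / 48) * (2 * X) := by
      rw [one_div, inv_mul_le_iff₀ hI1]
      have q4 : 2 * κ' ≤ I1 * (c * ε / 48) := by
        have : I / 2 * (c * ε / 48) ≤ I1 * (c * ε / 48) := mul_le_mul_of_nonneg_right hI1p (by positivity)
        nlinarith
      nlinarith
    have q5 : e * (2 * X) ≤ c * ε / 48 * (2 * X) := mul_le_mul_of_nonneg_right he2 (by linarith)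
    rw [q1]
    have E3' : (1 - e) * (2 * X) ≤ ∫ t in (0:ℝ)..(2 * X), f t := E3
    linarith
  have m3 : ∫ t in (0:ℝ)..X, |Av l f t - 1| ≤ s * (2 * X) := by
    refine le_trans ?_ m1
    exact intervalIntegral.integral_mono_interval le_rfl hX0.le (by linarith)
      (Filter.Eventually.of_forall fun u => abs_nonneg _) (hg1c'.intervalIntegrable _ _)
  have hX2 : 2 * X - l + l = 2 * X := by ring
  have b1 := weak_vol (g := fun t => |Av l f t - 1|) hg1c' (fun t => abs_nonneg _) (l := l) (X := 2 * X - l) (c := c)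
    (e := ε / 4 * X) hl0 (by linarith) hc0 (by
      rw [hX2]
      nlinarith)
  have b2 := weak_vol (g := fun t => F t - f t) (hFc.sub hfc) (fun t => by linarith [hfF t]) (l := l)
    (X := 2 * X - l) (c := c) (e := ε / 4 * X) hl0 (by linarith) hc0 (by
      rw [hX2]
      nlinarith)
  have b3 := markov (g := fun t => |Av l f t - 1|) hg1c' (fun t => abs_nonneg _) (X := X) (e := ε / 4 * X) hX0.le
    (m3.trans (by nlinarith))
  set S1 := {t | 0 ≤ t ∧ t ≤ 2 * X - l ∧ ∃ H, l ≤ H ∧ t + H ≤ 2 * X - l ∧ c * H < ∫ s in t..(t + H), |Av l f s - 1|}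
    with hS1
  set S2 := {t | 0 ≤ t ∧ t ≤ 2 * X - l ∧ ∃ H, l ≤ H ∧ t + H ≤ 2 * X - l ∧ c * H < ∫ s in t..(t + H), (F s - f s)}
    with hS2
  set S3 := {t | 0 ≤ t ∧ t ≤ X ∧ 1 < |Av l f t - 1|} with hS3
  have hsub : {t : ℝ | 0 ≤ t ∧ t ≤ X ∧ ∃ H : ℝ, δ ^ (-θ) ≤ H ∧ H ≤ δ ^ (-D) ∧
      ε ≤ |(1 / H) * (∫ u in t..(t + H), FG V g δ u) - I|} ⊆ (S1 ∪ S2) ∪ S3 := by
    rintro t ⟨t0, t1, H, hH1, hH2, hH3⟩
    by_contra hcon
    simp only [Set.mem_union, not_or] at hcon
    obtain ⟨⟨c1, c2⟩, c3⟩ := hcon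
    have hHp : 0 < H := lt_of_lt_of_le (Real.rpow_pos_of_pos h0 _) hH1
    have hlθ : l ≤ δ ^ (-θ) := Real.rpow_le_rpow_of_exponent_ge h0 (by linarith) (by linarith)
    have hlH : l ≤ H := hlθ.trans hH1
    have d1 : ∫ s in t..(t + H), |Av l f s - 1| ≤ c * H := by
      by_contra h
      exact c1 ⟨t0, by linarith, H, hlH, by linarith, not_le.1 h⟩
    have d2 : ∫ s in t..(t + H), (F s - f s) ≤ c * H := by
      by_contra h
      exact c2 ⟨t0, by linarith, H, hlH, by linarith, not_le.1 h⟩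
    have d3 : |Av l f t - 1| ≤ 1 := by
      by_contra h
      exact c3 ⟨t0, t1, not_le.1 h⟩
    have hdet := det (Z := F) hFc hfc hf0 hfF hl0 hlH (fun u _ => rfl) d1 d2 d3
    have h5 : (1 / H) * (∫ u in t..(t + H), F u) - 1 = (1 / H) * ((∫ u in t..(t + H), F u) - H) := by
      field_simp
    have h6 : 2 * l ≤ ε1 / 4 * H := by
      have h7 : l = δ ^ (θ - θ0) * δ ^ (-θ) := by
        rw [hl, ← Real.rpow_add h0]
        congr 1
        ring
      have h8 : 0 < δ ^ (-θ) := Real.rpow_pos_of_pos h0 _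
      rw [h7]
      calc 2 * (δ ^ (θ - θ0) * δ ^ (-θ)) = (2 * δ ^ (θ - θ0)) * δ ^ (-θ) := by ring
        _ ≤ ε1 / 4 * δ ^ (-θ) := mul_le_mul_of_nonneg_right s1 h8.le
        _ ≤ ε1 / 4 * H := mul_le_mul_of_nonneg_left hH1 (by positivity)
    have h9 : |(1 / H) * (∫ u in t..(t + H), F u) - 1| ≤ ε1 / 2 := by
      rw [h5, abs_mul, abs_of_pos (by positivity : 0 < 1 / H)]
      have h10 : (1 / H) * |(∫ u in t..(t + H), F u) - H| ≤ (1 / H) * (ε1 / 2 * H) := by
        refine mul_le_mul_of_nonneg_left (hdet.trans ?_) (by positivity)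
        rw [hc]
        linarith
      have h11 : (1 / H) * (ε1 / 2 * H) = ε1 / 2 := by
        field_simp
      linarith
    have h12 : (1 / H) * (∫ u in t..(t + H), FG V g δ u) - I1 = I1 * ((1 / H) * (∫ u in t..(t + H), F u) - 1) := by
      have : ∫ u in t..(t + H), F u = (1 / I1) * ∫ u in t..(t + H), FG V g δ u :=
        intervalIntegral.integral_const_mul _ _
      rw [this]
      field_simp
    have h13 : |(1 / H) * (∫ u in t..(t + H), FG V g δ u) - I1| ≤ (I + 1) * (ε1 / 2) := by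
      rw [h12, abs_mul, abs_of_pos hI1]
      exact mul_le_mul (by linarith) h9 (abs_nonneg _) (by linarith)
    have h14 : (I + 1) * (ε1 / 2) = ε / 8 := by
      rw [hε1]
      field_simp
      ring
    have h15 : |I1 - I| ≤ ε / 4 := by
      rw [abs_le]
      constructor <;> linarith
    have h16 := abs_sub_le ((1 / H) * (∫ u in t..(t + H), FG V g δ u)) I1 I
    linarith
  refine (measure_mono hsub).trans ((measure_union_le _ _).trans
    ((add_le_add (measure_union_le _ _) le_rfl).trans ((add_le_add (add_le_add b1 b2) b3).trans ?_)))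
  have hq : 0 ≤ ε / 4 * X := by positivity
  rw [← ENNReal.ofReal_add hq hq, ← ENNReal.ofReal_add (by positivity) (by positivity)]
  refine ENNReal.ofReal_le_ofReal ?_
  nlinarith

end Run7.h291.WL
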