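import Mathlib

set_option autoImplicit false

/-! Band limited majorants of continuous functions with compact support -/

namespace Run7.h291.WL

open Filter MeasureTheory Topology Complex
open scoped FourierTransform

/-- the tent -/
noncomputable def tent (x : ℝ) : ℝ := max 0 (1 - |x|)

lemma tent_cont : Continuous tent := by
  unfold tent
  fun_prop

lemma tent_nn (x : ℝ) : 0 ≤ tent x := le_max_left _ _

lemma tent_le (x : ℝ) : tent x ≤ 1 := max_le zero_le_one (by linarith [abs_nonneg x])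

lemma tent_zero {x : ℝ} (h : 1 ≤ |x|) : tent x = 0 := max_eq_left (by linarith)

lemma tent_at : tent 0 = 1 := by
  unfold tent
  simp

lemma tent_csupp : HasCompactSupport tent := by
  refine HasCompactSupport.intro (isCompact_Icc (a := (-1:ℝ)) (b := 1)) fun x hx => tent_zero ?_
  by_contra hc
  push Not at hc
  exact hx ⟨(abs_lt.1 hc).1.le, (abs_lt.1 hc).2.le⟩

lemma tent_int : Integrable tent := tent_cont.integrable_of_hasCompactSupport tent_csupp

/-- the kernel -/
noncomputable def kf (x : ℝ) : ℝ := Real.sinc (x / 2) ^ 2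

lemma kf_cont : Continuous kf := by
  unfold kf
  fun_prop

lemma kf_nn (x : ℝ) : 0 ≤ kf x := sq_nonneg _

lemma kf_le (x : ℝ) : kf x ≤ 5 * (1 + x ^ 2)⁻¹ := by
  unfold kf
  have h1 : Real.sinc (x / 2) ^ 2 ≤ 1 := by
    rw [sq_le_one_iff_abs_le_one]
    exact Real.abs_sinc_le_one _
  have h2 : Real.sinc (x / 2) ^ 2 * (x / 2) ^ 2 ≤ 1 := by
    rcases eq_or_ne x 0 with rfl | hy
    · simp
    · have hy' : x / 2 ≠ 0 := by simpa using hy
      rw [Real.sinc_of_ne_zero hy', div_pow, div_mul_cancel₀ _ (by positivity)]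
      exact Real.sin_sq_le_one _
  rw [← div_eq_mul_inv, le_div_iff₀ (by positivity)]
  nlinarith

lemma kf_int : Integrable kf := by
  refine (integrable_inv_one_add_sq.const_mul 5).mono' kf_cont.aestronglyMeasurable (Eventually.of_forall fun x => ?_)
  rw [Real.norm_of_nonneg (kf_nn x)]
  exact kf_le x

lemma tent_set (x : ℝ) : ∫ ξ : ℝ, (tent ξ : ℂ) * cexp (I * x * ξ) =
    (∫ ξ in (-1:ℝ)..0, (1 + ξ : ℂ) * cexp (I * x * ξ)) + ∫ ξ in (0:ℝ)..1, (1 - ξ : ℂ) * cexp (I * x * ξ) := by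
  have hc : Continuous fun ξ : ℝ => (tent ξ : ℂ) * cexp (I * x * ξ) := by
    have := tent_cont
    fun_prop
  have h1 : ∫ ξ : ℝ, (tent ξ : ℂ) * cexp (I * x * ξ) = ∫ ξ in Set.Ioc (-1:ℝ) 1, (tent ξ : ℂ) * cexp (I * x * ξ) := by
    refine (setIntegral_eq_integral_of_forall_compl_eq_zero fun ξ hξ => ?_).symm
    have : tent ξ = 0 := tent_zero (by
      by_contra hcon
      push Not at hcon
      exact hξ ⟨(abs_lt.1 hcon).1, (abs_lt.1 hcon).2.le⟩)
    rw [this]
    simp
  rw [h1, ← intervalIntegral.integral_of_le (by norm_num), ← intervalIntegral.integral_add_adjacent_intervals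
    (b := (0:ℝ)) (hc.intervalIntegrable _ _) (hc.intervalIntegrable _ _)]
  congr 1
  · refine intervalIntegral.integral_congr fun ξ hξ => ?_
    rw [Set.uIcc_of_le (by norm_num)] at hξ
    have : tent ξ = 1 + ξ := by
      unfold tent
      rw [abs_of_nonpos hξ.2, max_eq_right (by linarith [hξ.1])]
      ring
    simp only [this]
    push_cast
    ring
  · refine intervalIntegral.integral_congr fun ξ hξ => ?_
    rw [Set.uIcc_of_le (by norm_num)] at hξ
    have : tent ξ = 1 - ξ := by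
      unfold tent
      rw [abs_of_nonneg hξ.1, max_eq_right (by linarith [hξ.2])]
    simp only [this]
    push_cast
    ring

/-- the Fourier transform of the tent -/
lemma tent_four (x : ℝ) : ∫ ξ : ℝ, (tent ξ : ℂ) * cexp (I * x * ξ) = (kf x : ℂ) := by
  rw [tent_set]
  rcases eq_or_ne x 0 with rfl | hx
  · unfold kf
    simp only [Complex.ofReal_zero, mul_zero, zero_mul, Complex.exp_zero, mul_one, zero_div, Real.sinc_zero]
    have e1 : ∫ ξ in (-1:ℝ)..0, (1 + ξ : ℂ) = ((1 / 2 : ℝ) : ℂ) := by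
      have : ∀ ξ : ℝ, (1 + ξ : ℂ) = ((1 + ξ : ℝ) : ℂ) := fun ξ => by push_cast; ring
      simp_rw [this]
      rw [intervalIntegral.integral_ofReal, intervalIntegral.integral_add (by simp) (by simp)]
      simp only [intervalIntegral.integral_const, integral_id, smul_eq_mul]
      norm_num
    have e2 : ∫ ξ in (0:ℝ)..1, (1 - ξ : ℂ) = ((1 / 2 : ℝ) : ℂ) := by
      have : ∀ ξ : ℝ, (1 - ξ : ℂ) = ((1 - ξ : ℝ) : ℂ) := fun ξ => by push_cast; ring
      simp_rw [this]
      rw [intervalIntegral.integral_ofReal, intervalIntegral.integral_sub (by simp) (by simp)]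
      simp only [intervalIntegral.integral_const, integral_id, smul_eq_mul]
      norm_num
    rw [e1, e2]
    norm_num
  · have hxc : (x : ℂ) ≠ 0 := by exact_mod_cast hx
    have hI : I * (x : ℂ) ≠ 0 := mul_ne_zero I_ne_zero hxc
    have hE : ∀ ξ : ℝ, HasDerivAt (fun ξ : ℝ => cexp (I * x * ξ)) (cexp (I * x * ξ) * (I * x)) ξ := by
      intro ξ
      have h1 : HasDerivAt (fun ξ : ℝ => (I * x * (ξ : ℂ))) (I * x) ξ := by
        have h2 := (Complex.ofRealCLM.hasDerivAt (x := ξ)).const_mul (I * (x:ℂ))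
        simpa using h2
      exact h1.cexp
    have hid : ∀ ξ : ℝ, HasDerivAt (fun ξ : ℝ => (ξ : ℂ)) 1 ξ := by
      intro ξ
      have h2 := (hasDerivAt_id ξ).ofReal_comp
      rwa [Complex.ofReal_one] at h2
    have e1 : ∫ ξ in (-1:ℝ)..0, (1 + ξ : ℂ) * cexp (I * x * ξ) =
        ((1 + ((0:ℝ):ℂ)) * cexp (I * x * ((0:ℝ):ℂ)) / (I * x) - cexp (I * x * ((0:ℝ):ℂ)) / (I * x) ^ 2) -
        ((1 + ((-1:ℝ):ℂ)) * cexp (I * x * ((-1:ℝ):ℂ)) / (I * x) - cexp (I * x * ((-1:ℝ):ℂ)) / (I * x) ^ 2) := by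
      refine intervalIntegral.integral_eq_sub_of_hasDerivAt (f := fun ξ : ℝ => (1 + (ξ : ℂ)) * cexp (I * x * ξ) / (I * x) -
        cexp (I * x * ξ) / (I * x) ^ 2) (fun ξ _ => ?_) (Continuous.intervalIntegrable (by fun_prop) _ _)
      have h3 := ((((hid ξ).const_add 1).mul (hE ξ)).div_const (I * x)).sub ((hE ξ).div_const ((I * x) ^ 2))
      refine h3.congr_deriv ?_
      field_simp
      ring
    have e2 : ∫ ξ in (0:ℝ)..1, (1 - ξ : ℂ) * cexp (I * x * ξ) =
        ((1 - ((1:ℝ):ℂ)) * cexp (I * x * ((1:ℝ):ℂ)) / (I * x) + cexp (I * x * ((1:ℝ):ℂ)) / (I * x) ^ 2) -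
        ((1 - ((0:ℝ):ℂ)) * cexp (I * x * ((0:ℝ):ℂ)) / (I * x) + cexp (I * x * ((0:ℝ):ℂ)) / (I * x) ^ 2) := by
      refine intervalIntegral.integral_eq_sub_of_hasDerivAt (f := fun ξ : ℝ => (1 - (ξ : ℂ)) * cexp (I * x * ξ) / (I * x) +
        cexp (I * x * ξ) / (I * x) ^ 2) (fun ξ _ => ?_) (Continuous.intervalIntegrable (by fun_prop) _ _)
      have h3 := ((((hid ξ).const_sub 1).mul (hE ξ)).div_const (I * x)).add ((hE ξ).div_const ((I * x) ^ 2))
      refine h3.congr_deriv ?_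
      field_simp
      ring
    rw [e1, e2]
    have e3 : cexp (I * x * ((1:ℝ):ℂ)) + cexp (I * x * ((-1:ℝ):ℂ)) = 2 * ((Real.cos x : ℝ) : ℂ) := by
      rw [Complex.ofReal_cos, Complex.two_cos]
      congr 2
      · push_cast
        ring
      · push_cast
        ring
    have e4 : ((kf x : ℝ) : ℂ) = (2 - 2 * ((Real.cos x : ℝ) : ℂ)) / (x:ℂ) ^ 2 := by
      unfold kf
      rw [Real.sinc_of_ne_zero (by simpa using hx)]
      have h5 : Real.cos x = 1 - 2 * Real.sin (x / 2) ^ 2 := by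
        rw [← Real.cos_two_mul_eq_one_sub]
        congr 1
        ring
      rw [h5]
      push_cast
      field_simp
      ring
    rw [e4]
    have hI2 : (I * (x:ℂ)) ^ 2 = -(x:ℂ) ^ 2 := by rw [mul_pow, I_sq]; ring
    rw [hI2]
    simp only [Complex.ofReal_zero, mul_zero, Complex.exp_zero, Complex.ofReal_one, Complex.ofReal_neg] at e3 ⊢
    have e5 : cexp (I * x * 1) = 2 * ((Real.cos x : ℝ) : ℂ) - cexp (I * x * -1) := by
      rw [← e3]
      ring
    rw [e5]
    field_simp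
    ring

end Run7.h291.WL
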