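import Pool.Agent.Run7.h291.WL.E1

set_option autoImplicit false

/-! Band limited majorants of continuous functions with compact support -/

namespace Run7.h291.WL

open Filter MeasureTheory Topology Complex
open scoped FourierTransform

lemma kf_tot : ∫ x, kf x = 2 * Real.pi := by
  have hpi := Real.pi_pos
  have hne : -(2 * Real.pi) ≠ 0 := by
    intro h
    linarith
  have hF : 𝓕 (fun x : ℝ => (tent x : ℂ)) = fun w : ℝ => ((kf ((-(2 * Real.pi)) * w) : ℝ) : ℂ) := by
    funext w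
    rw [Real.fourier_real_eq_integral_exp_smul, ← tent_four]
    refine integral_congr_ae (Eventually.of_forall fun v => ?_)
    simp only [smul_eq_mul]
    rw [mul_comm]
    congr 2
    push_cast
    ring
  have hFi : Integrable (𝓕 (fun x : ℝ => (tent x : ℂ))) := by
    rw [hF]
    exact (kf_int.comp_mul_left' hne).ofReal
  have h1 := Continuous.fourierInv_fourier_eq (f := fun x : ℝ => (tent x : ℂ)) (by have := tent_cont; fun_prop)
    tent_int.ofReal hFi
  have h2 := congrFun h1 0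
  rw [Real.fourierInv_eq'] at h2
  simp only [inner_zero_right, mul_zero, Complex.ofReal_zero, zero_mul, Complex.exp_zero, one_smul, tent_at] at h2
  rw [hF, integral_complex_ofReal] at h2
  have h3 : ∫ w : ℝ, kf ((-(2 * Real.pi)) * w) = 1 := by exact_mod_cast h2
  rw [Measure.integral_comp_mul_left] at h3
  rw [abs_inv, abs_neg, abs_of_pos (by positivity), smul_eq_mul] at h3
  field_simp at h3
  linarith

lemma kf_half : Integrable fun u : ℝ => kf u * |u| ^ ((1:ℝ) / 2) := by
  have h1 : Integrable fun u : ℝ => (1 + ‖u‖ ^ 2) ^ (-(3 / 2 : ℝ) / 2) :=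
    integrable_rpow_neg_one_add_norm_sq (by simp; norm_num)
  have hc : Continuous fun u : ℝ => kf u * |u| ^ ((1:ℝ) / 2) :=
    kf_cont.mul (continuous_abs.rpow_const fun u => Or.inr (by norm_num))
  refine (h1.const_mul 5).mono' hc.aestronglyMeasurable (Eventually.of_forall fun u => ?_)
  rw [Real.norm_of_nonneg (mul_nonneg (kf_nn u) (Real.rpow_nonneg (abs_nonneg u) _))]
  have h2 : 0 < 1 + u ^ 2 := by positivity
  have h3 : |u| ^ ((1:ℝ) / 2) ≤ (1 + u ^ 2) ^ ((1:ℝ) / 4) := by
    have h4 : |u| ^ ((1:ℝ) / 2) = (u ^ 2) ^ ((1:ℝ) / 4) := by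
      rw [← sq_abs u, ← Real.rpow_natCast, ← Real.rpow_mul (abs_nonneg u)]
      norm_num
    rw [h4]
    exact Real.rpow_le_rpow (sq_nonneg _) (by linarith) (by norm_num)
  rw [Real.norm_eq_abs, sq_abs]
  calc kf u * |u| ^ ((1:ℝ) / 2) ≤ (5 * (1 + u ^ 2)⁻¹) * (1 + u ^ 2) ^ ((1:ℝ) / 4) :=
        mul_le_mul (kf_le u) h3 (Real.rpow_nonneg (abs_nonneg u) _) (by positivity)
    _ = 5 * (1 + u ^ 2) ^ (-(3 / 2 : ℝ) / 2) := by
        rw [mul_assoc, ← Real.rpow_neg_one, ← Real.rpow_add h2]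
        norm_num

lemma modg {g : ℝ → ℝ} (hg : Continuous g) (hs : HasCompactSupport g) {η : ℝ} (hη : 0 < η) : ∃ C : ℝ, 0 ≤ C ∧
    ∀ x s : ℝ, |g (x - s) - g x| ≤ η + C * |s| ^ ((1:ℝ) / 2) := by
  obtain ⟨Γ, hΓ⟩ := hs.exists_bound_of_continuous hg
  have hΓ0 : 0 ≤ Γ := (norm_nonneg _).trans (hΓ 0)
  obtain ⟨τ, hτ, h1⟩ := Metric.uniformContinuous_iff.1 (hs.uniformContinuous_of_continuous hg) η hη
  refine ⟨2 * Γ / τ ^ ((1:ℝ) / 2), by positivity, fun x s => ?_⟩
  rcases lt_or_ge |s| τ with h | h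
  · have h2 := h1 (a := x - s) (b := x) (by
      rw [Real.dist_eq]
      have : x - s - x = -s := by ring
      rw [this, abs_neg]
      exact h)
    rw [Real.dist_eq] at h2
    have : 0 ≤ 2 * Γ / τ ^ ((1:ℝ) / 2) * |s| ^ ((1:ℝ) / 2) := by positivity
    linarith
  · have h2 : |g (x - s) - g x| ≤ 2 * Γ := by
      have h3 := hΓ (x - s)
      have h4 := hΓ x
      rw [Real.norm_eq_abs] at h3 h4
      have := abs_sub (g (x - s)) (g x)
      linarith
    have h3 : τ ^ ((1:ℝ) / 2) ≤ |s| ^ ((1:ℝ) / 2) := Real.rpow_le_rpow hτ.le h (by norm_num)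
    have h4 : 2 * Γ ≤ 2 * Γ / τ ^ ((1:ℝ) / 2) * |s| ^ ((1:ℝ) / 2) := by
      rw [div_mul_eq_mul_div, le_div_iff₀ (by positivity)]
      exact mul_le_mul_of_nonneg_left h3 (by positivity)
    linarith

/-- the smoothed function -/
noncomputable def sg (g : ℝ → ℝ) (R x : ℝ) : ℝ := 1 / (2 * Real.pi) * ∫ u, g (x - u / R) * kf u

lemma approx {g : ℝ → ℝ} (hg : Continuous g) (hs : HasCompactSupport g) {η : ℝ} (hη : 0 < η) : ∃ R : ℝ, 0 < R ∧
    ∀ x : ℝ, |sg g R x - g x| ≤ η := by
  have hpi := Real.pi_pos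
  obtain ⟨Γ, hΓ⟩ := hs.exists_bound_of_continuous hg
  obtain ⟨C, hC, hmod⟩ := modg hg hs (half_pos hη)
  set J : ℝ := ∫ u : ℝ, kf u * |u| ^ ((1:ℝ) / 2) with hJ
  have hJ0 : 0 ≤ J := integral_nonneg fun u => mul_nonneg (kf_nn u) (Real.rpow_nonneg (abs_nonneg u) _)
  obtain ⟨R, hR, hR2⟩ : ∃ R : ℝ, 0 < R ∧ C * J * (R⁻¹) ^ ((1:ℝ) / 2) ≤ η / 2 * (2 * Real.pi) := by
    have h1 : Tendsto (fun R : ℝ => C * J * (R⁻¹) ^ ((1:ℝ) / 2)) atTop (𝓝 (C * J * 0 ^ ((1:ℝ) / 2))) := by
      refine Tendsto.const_mul _ ?_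
      exact (tendsto_inv_atTop_zero (𝕜 := ℝ)).rpow_const (Or.inr (by norm_num))
    rw [Real.zero_rpow (by norm_num), mul_zero] at h1
    obtain ⟨R, hR⟩ := ((h1.eventually_le_const (show 0 < η / 2 * (2 * Real.pi) by positivity)).and
      (eventually_gt_atTop (0:ℝ))).exists
    exact ⟨R, hR.2, hR.1⟩
  refine ⟨R, hR, fun x => ?_⟩
  have hi1 : Integrable fun u : ℝ => g (x - u / R) * kf u := by
    refine (kf_int.const_mul Γ).mono' ?_ (Eventually.of_forall fun u => ?_)
    · exact (Continuous.mul (hg.comp (by fun_prop)) kf_cont).aestronglyMeasurable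
    · rw [norm_mul, Real.norm_of_nonneg (kf_nn u)]
      exact mul_le_mul_of_nonneg_right (hΓ _) (kf_nn u)
  have hi2 : Integrable fun u : ℝ => g x * kf u := kf_int.const_mul _
  have e1 : sg g R x - g x = 1 / (2 * Real.pi) * ∫ u, (g (x - u / R) - g x) * kf u := by
    have h1 : ∫ u, (g (x - u / R) - g x) * kf u = (∫ u, g (x - u / R) * kf u) - g x * (2 * Real.pi) := by
      rw [← kf_tot, ← integral_const_mul, ← integral_sub hi1 hi2]
      refine integral_congr_ae (Eventually.of_forall fun u => ?_)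
      show (g (x - u / R) - g x) * kf u = g (x - u / R) * kf u - g x * kf u
      ring
    unfold sg
    rw [h1]
    field_simp
  have e2 : |∫ u, (g (x - u / R) - g x) * kf u| ≤ ∫ u, (η / 2 * kf u + C * (R⁻¹) ^ ((1:ℝ) / 2) * (kf u * |u| ^ ((1:ℝ) / 2))) := by
    rw [← Real.norm_eq_abs]
    refine norm_integral_le_of_norm_le ((kf_int.const_mul _).add (kf_half.const_mul _)) (Eventually.of_forall fun u => ?_)
    rw [norm_mul, Real.norm_of_nonneg (kf_nn u), Real.norm_eq_abs]
    have h1 := mul_le_mul_of_nonneg_right (hmod x (u / R)) (kf_nn u)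
    refine h1.trans (le_of_eq ?_)
    have h2 : |u / R| ^ ((1:ℝ) / 2) = (R⁻¹) ^ ((1:ℝ) / 2) * |u| ^ ((1:ℝ) / 2) := by
      rw [← Real.mul_rpow (by positivity) (abs_nonneg _), div_eq_mul_inv, abs_mul, abs_of_pos (inv_pos.2 hR), mul_comm]
    rw [h2]
    ring
  rw [integral_add (kf_int.const_mul _) (kf_half.const_mul _), integral_const_mul, integral_const_mul, kf_tot, ← hJ] at e2
  rw [e1, abs_mul, abs_of_pos (by positivity)]
  calc 1 / (2 * Real.pi) * |∫ u, (g (x - u / R) - g x) * kf u| ≤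
      1 / (2 * Real.pi) * (η / 2 * (2 * Real.pi) + C * (R⁻¹) ^ ((1:ℝ) / 2) * J) :=
        mul_le_mul_of_nonneg_left e2 (by positivity)
    _ ≤ 1 / (2 * Real.pi) * (η / 2 * (2 * Real.pi) + η / 2 * (2 * Real.pi)) := by
        refine mul_le_mul_of_nonneg_left (add_le_add le_rfl ?_) (by positivity)
        calc C * (R⁻¹) ^ ((1:ℝ) / 2) * J = C * J * (R⁻¹) ^ ((1:ℝ) / 2) := by ring
          _ ≤ _ := hR2
    _ = η := by field_simp; ring

lemma sg_nn {g : ℝ → ℝ} (h0 : ∀ x, 0 ≤ g x) (R x : ℝ) : 0 ≤ sg g R x := by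
  have := Real.pi_pos
  exact mul_nonneg (by positivity) (integral_nonneg fun u => mul_nonneg (h0 _) (kf_nn u))

/-- the Fourier transform -/
noncomputable def gh (g : ℝ → ℝ) (ξ : ℝ) : ℂ := ∫ y : ℝ, (g y : ℂ) * cexp (-(I * y * ξ))

lemma gh_cont {g : ℝ → ℝ} (hg : Continuous g) (hs : HasCompactSupport g) : Continuous (gh g) := by
  unfold gh
  refine continuous_of_dominated (bound := fun y => ‖g y‖) (fun ξ => ?_) (fun ξ => ?_)
    (hg.integrable_of_hasCompactSupport hs).norm ?_
  · exact (Continuous.aestronglyMeasurable (by fun_prop))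
  · refine Eventually.of_forall fun y => ?_
    rw [norm_mul, Complex.norm_real, Complex.norm_exp]
    have : (-(I * (y:ℂ) * (ξ:ℂ))).re = 0 := by simp
    rw [this, Real.exp_zero, mul_one]
  · refine Eventually.of_forall fun y => ?_
    fun_prop

lemma gh_zero (g : ℝ → ℝ) : gh g 0 = ((∫ y, g y : ℝ) : ℂ) := by
  unfold gh
  simp only [Complex.ofReal_zero, mul_zero, neg_zero, Complex.exp_zero, mul_one]
  exact integral_complex_ofReal

lemma tent_scale {R : ℝ} (hR : 0 < R) (z : ℝ) : ∫ ξ : ℝ, (tent (ξ / R) : ℂ) * cexp (I * z * ξ) = ((R * kf (R * z) : ℝ) : ℂ) := by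
  have h1 := Measure.integral_comp_div (fun ξ : ℝ => (tent ξ : ℂ) * cexp (I * (R * z : ℝ) * ξ)) R
  rw [tent_four, abs_of_pos hR] at h1
  rw [Complex.ofReal_mul]
  have hRc : (R:ℂ) ≠ 0 := by exact_mod_cast hR.ne'
  calc ∫ ξ : ℝ, (tent (ξ / R) : ℂ) * cexp (I * z * ξ) =
      ∫ ξ : ℝ, (tent (ξ / R) : ℂ) * cexp (I * (R * z : ℝ) * ((ξ / R : ℝ) : ℂ)) := by
        refine integral_congr_ae (Eventually.of_forall fun ξ => ?_)
        simp only
        congr 2
        push_cast
        field_simp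
    _ = R • (kf (R * z) : ℂ) := h1
    _ = _ := by rw [Complex.real_smul]

lemma sg_four {g : ℝ → ℝ} (hg : Continuous g) (hs : HasCompactSupport g) {R : ℝ} (hR : 0 < R) (x : ℝ) :
    ∫ ξ : ℝ, (1 / (2 * Real.pi) : ℂ) * (tent (ξ / R) : ℂ) * gh g ξ * cexp (I * x * ξ) = (sg g R x : ℂ) := by
  have hpi := Real.pi_pos
  have hgi : Integrable g volume := hg.integrable_of_hasCompactSupport hs
  have hti : Integrable fun ξ : ℝ => tent (ξ / R) := tent_int.comp_div hR.ne'
  have hsw := integral_integral_swap (f := fun (ξ y : ℝ) => (tent (ξ / R) : ℂ) * ((g y : ℂ) * cexp (I * (x - y) * ξ)))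
    (μ := volume) (ν := volume) (by
      have h1 := (hti.ofReal (𝕜 := ℂ)).mul_prod (hgi.ofReal (𝕜 := ℂ))
      refine h1.mono ?_ (Eventually.of_forall fun p => ?_)
      · refine Continuous.aestronglyMeasurable ?_
        have := tent_cont
        unfold Function.uncurry
        fun_prop
      · unfold Function.uncurry
        rw [norm_mul, norm_mul, norm_mul, Complex.norm_exp]
        have : (I * ((x:ℂ) - (p.2:ℂ)) * (p.1:ℂ)).re = 0 := by
          rw [mul_assoc, Complex.I_mul_re]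
          simp
        rw [this, Real.exp_zero, mul_one]
        exact le_refl _)
  have e1 : ∀ ξ : ℝ, (1 / (2 * Real.pi) : ℂ) * (tent (ξ / R) : ℂ) * gh g ξ * cexp (I * x * ξ) =
      (1 / (2 * Real.pi) : ℂ) * ∫ y : ℝ, (tent (ξ / R) : ℂ) * ((g y : ℂ) * cexp (I * (x - y) * ξ)) := by
    intro ξ
    unfold gh
    rw [integral_const_mul]
    have h3 : ∫ y : ℝ, (g y : ℂ) * cexp (I * (x - y) * ξ) = (∫ y : ℝ, (g y : ℂ) * cexp (-(I * y * ξ))) * cexp (I * x * ξ) := by
      rw [← integral_mul_const]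
      refine integral_congr_ae (Eventually.of_forall fun y => ?_)
      simp only
      rw [mul_assoc (g y : ℂ), ← Complex.exp_add]
      congr 2
      ring
    rw [h3]
    ring
  simp_rw [e1]
  rw [integral_const_mul, hsw]
  have e2 : ∀ y : ℝ, ∫ ξ : ℝ, (tent (ξ / R) : ℂ) * ((g y : ℂ) * cexp (I * (x - y) * ξ)) =
      ((g y * (R * kf (R * (x - y))) : ℝ) : ℂ) := by
    intro y
    rw [Complex.ofReal_mul, ← tent_scale hR (x - y), ← integral_const_mul]
    refine integral_congr_ae (Eventually.of_forall fun ξ => ?_)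
    simp only
    push_cast
    ring
  simp_rw [e2]
  rw [integral_complex_ofReal]
  unfold sg
  have e3 : ∫ y, g y * (R * kf (R * (x - y))) = ∫ u, g (x - u / R) * kf u := by
    have h1 := integral_sub_left_eq_self (fun y => g y * (R * kf (R * (x - y)))) volume x
    have h2 := Measure.integral_comp_div (fun v => g (x - v) * kf (R * v)) R
    rw [abs_of_pos hR, smul_eq_mul] at h2
    calc ∫ y, g y * (R * kf (R * (x - y))) = ∫ y, g (x - y) * (R * kf (R * (x - (x - y)))) := h1.symm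
      _ = R * ∫ v, g (x - v) * kf (R * v) := by
          rw [← integral_const_mul]
          refine integral_congr_ae (Eventually.of_forall fun v => ?_)
          simp only [sub_sub_cancel]
          ring
      _ = ∫ u, g (x - u / R) * kf (R * (u / R)) := h2.symm
      _ = _ := by
          refine integral_congr_ae (Eventually.of_forall fun v => ?_)
          simp only
          rw [mul_div_cancel₀ _ hR.ne']
  rw [e3]
  push_cast
  ring

/-- band limited majorants -/
theorem maj {g : ℝ → ℝ} (hg : Continuous g) (hs : HasCompactSupport g) (h0 : ∀ x, 0 ≤ g x) {e : ℝ} (he : 0 < e) :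
    ∃ γ : ℝ → ℂ, Continuous γ ∧ HasCompactSupport γ ∧
      (∀ x : ℝ, ∃ r : ℝ, (∫ ξ : ℝ, γ ξ * cexp (I * x * ξ)) = r ∧ g x ≤ r) ∧
      ∃ m : ℝ, 0 ≤ m ∧ γ 0 = m ∧ 2 * Real.pi * m ≤ (∫ x, g x) + e := by
  have hpi := Real.pi_pos
  obtain ⟨C, hC, hsC⟩ : ∃ C : ℝ, 1 ≤ C ∧ ∀ x, C < |x| → g x = 0 := by
    obtain ⟨C, hC⟩ := hs.isCompact.isBounded.subset_closedBall 0
    refine ⟨max C 1, le_max_right _ _, fun x hx => ?_⟩
    by_contra hne
    have h1 : x ∈ tsupport g := subset_tsupport g hne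
    have h2 := hC h1
    rw [Metric.mem_closedBall, dist_zero_right, Real.norm_eq_abs] at h2
    exact absurd (h2.trans (le_max_left _ _)) (not_le.2 hx)
  have hC0 : 0 < C := by linarith
  set r : ℝ := 1 / C with hr
  have hr0 : 0 < r := by positivity
  set η : ℝ := e * r / (8 * Real.pi) with hη
  have hη0 : 0 < η := by positivity
  obtain ⟨R, hR, happ⟩ := approx hg hs hη0
  set γ : ℝ → ℂ := fun ξ => (1 / (2 * Real.pi) : ℂ) * (tent (ξ / R) : ℂ) * gh g ξ + ((4 * η / r : ℝ) : ℂ) * (tent (ξ / r) : ℂ) with hγ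
  have hc1 : Continuous fun ξ : ℝ => (1 / (2 * Real.pi) : ℂ) * (tent (ξ / R) : ℂ) * gh g ξ := by
    have := tent_cont
    have := gh_cont hg hs
    fun_prop
  have hc2 : Continuous fun ξ : ℝ => ((4 * η / r : ℝ) : ℂ) * (tent (ξ / r) : ℂ) := by
    have := tent_cont
    fun_prop
  have hs1 : HasCompactSupport fun ξ : ℝ => (1 / (2 * Real.pi) : ℂ) * (tent (ξ / R) : ℂ) * gh g ξ := by
    refine HasCompactSupport.intro (isCompact_Icc (a := -R) (b := R)) fun ξ hξ => ?_
    have h1 : tent (ξ / R) = 0 := tent_zero (by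
      rw [abs_div, abs_of_pos hR, le_div_iff₀ hR, one_mul]
      by_contra hcon
      push Not at hcon
      exact hξ ⟨(abs_lt.1 hcon).1.le, (abs_lt.1 hcon).2.le⟩)
    rw [h1]
    simp
  have hs2 : HasCompactSupport fun ξ : ℝ => ((4 * η / r : ℝ) : ℂ) * (tent (ξ / r) : ℂ) := by
    refine HasCompactSupport.intro (isCompact_Icc (a := -r) (b := r)) fun ξ hξ => ?_
    have h1 : tent (ξ / r) = 0 := tent_zero (by
      rw [abs_div, abs_of_pos hr0, le_div_iff₀ hr0, one_mul]
      by_contra hcon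
      push Not at hcon
      exact hξ ⟨(abs_lt.1 hcon).1.le, (abs_lt.1 hcon).2.le⟩)
    rw [h1]
    simp
  refine ⟨γ, hc1.add hc2, hs1.add hs2, fun x => ?_, (∫ x, g x) / (2 * Real.pi) + 4 * η / r, ?_, ?_, ?_⟩
  · refine ⟨sg g R x + 4 * η * kf (r * x), ?_, ?_⟩
    · have hi1 : Integrable fun ξ : ℝ => (1 / (2 * Real.pi) : ℂ) * (tent (ξ / R) : ℂ) * gh g ξ * cexp (I * x * ξ) :=
        (hc1.mul (by fun_prop)).integrable_of_hasCompactSupport hs1.mul_right
      have hi2 : Integrable fun ξ : ℝ => ((4 * η / r : ℝ) : ℂ) * (tent (ξ / r) : ℂ) * cexp (I * x * ξ) :=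
        (hc2.mul (by fun_prop)).integrable_of_hasCompactSupport hs2.mul_right
      have h1 : ∀ ξ : ℝ, γ ξ * cexp (I * x * ξ) = (1 / (2 * Real.pi) : ℂ) * (tent (ξ / R) : ℂ) * gh g ξ * cexp (I * x * ξ) +
          ((4 * η / r : ℝ) : ℂ) * (tent (ξ / r) : ℂ) * cexp (I * x * ξ) := fun ξ => by rw [hγ]; ring
      simp_rw [h1]
      rw [integral_add hi1 hi2, sg_four hg hs hR]
      have h2 : ∫ ξ : ℝ, ((4 * η / r : ℝ) : ℂ) * (tent (ξ / r) : ℂ) * cexp (I * x * ξ) = ((4 * η * kf (r * x) : ℝ) : ℂ) := by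
        have h3 : ∀ ξ : ℝ, ((4 * η / r : ℝ) : ℂ) * (tent (ξ / r) : ℂ) * cexp (I * x * ξ) =
            ((4 * η / r : ℝ) : ℂ) * ((tent (ξ / r) : ℂ) * cexp (I * x * ξ)) := fun ξ => by ring
        simp_rw [h3]
        rw [integral_const_mul, tent_scale hr0, ← Complex.ofReal_mul]
        congr 1
        field_simp
      rw [h2]
      push_cast
      ring
    · rcases le_or_gt |x| C with h | h
      · have h1 := (abs_le.1 (happ x)).1
        have h2 : 1 / 4 ≤ kf (r * x) := by
          unfold kf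
          have h3 : |r * x / 2| ≤ 1 := by
            rw [abs_div, abs_mul, abs_of_pos hr0, abs_of_pos (show (0:ℝ) < 2 by norm_num), hr]
            rw [one_div, inv_mul_eq_div, div_div, div_le_one (by positivity)]
            linarith
          have h4 : 1 / 2 ≤ Real.sinc (r * x / 2) := by
            have hab : Real.sinc (r * x / 2) = Real.sinc |r * x / 2| := by
              rcases abs_choice (r * x / 2) with h | h
              · rw [h]
              · rw [h, Real.sinc_neg]
            rw [hab]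
            set y := |r * x / 2| with hy
            have hy0 : 0 ≤ y := abs_nonneg _
            rcases eq_or_lt_of_le hy0 with h5 | h5
            · rw [← h5, Real.sinc_zero]
              norm_num
            · rw [Real.sinc_of_ne_zero h5.ne', le_div_iff₀ h5]
              have h6 := Real.mul_le_sin hy0 (by linarith [Real.pi_gt_three])
              have h7 : 1 / 2 ≤ 2 / Real.pi := by
                rw [div_le_div_iff₀ (by norm_num) hpi]
                linarith [Real.pi_le_four]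
              have := mul_le_mul_of_nonneg_right h7 hy0
              linarith
          nlinarith
        nlinarith
      · rw [hsC x h]
        have := sg_nn h0 R x
        have := kf_nn (r * x)
        positivity
  · have : 0 ≤ ∫ x, g x := integral_nonneg h0
    positivity
  · rw [hγ]
    simp only [zero_div, tent_at, gh_zero]
    push_cast
    ring
  · rw [hη]
    apply le_of_eq
    field_simp
    ring

end Run7.h291.WL
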