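import Pool.Agent.Run7.h291.WL.E2
import Pool.Agent.Run7.h291.WL.C4
import Pool.Agent.Run7.h651.WN.LAW2

set_option autoImplicit false

/-! The two-point function of the local weight (LL2): bounds of the logarithm of zeta, and the Fourier integral -/

namespace Run7.h291.WL

open Finset Filter MeasureTheory Topology Complex
open Pool.Agent.N748.MG Pool.Agent.N748.MJ Run7.h291.WN Run7.h651.WN

lemma z341 {x : ℝ} (hx : 0 < x) (y : ℝ) : 1 ≤ ‖riemannZeta (1 + x)‖ ^ 3 * ‖riemannZeta (1 + x + I * y)‖ ^ 4 *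
    ‖riemannZeta (1 + x + 2 * I * y)‖ := by
  have h := DirichletCharacter.norm_LFunction_product_ge_one (1 : DirichletCharacter ℂ 1) hx y
  have h1 : DirichletCharacter.LFunction (1 : DirichletCharacter ℂ 1) = riemannZeta := DirichletCharacter.LFunction_modOne_eq
  rw [one_pow, DirichletCharacter.LFunctionTrivChar, h1, norm_mul, norm_mul, norm_pow, norm_pow] at h
  exact h

lemma L341 (hZ : S_LZB) {δ : ℝ} (h0 : 0 < δ) (h1 : δ ≤ 1 / 16) (u : ℝ) :
    0 ≤ 3 * (LZ (1 + 2 * δ) 0).re + 4 * (LZ (1 + 2 * δ) u).re + (LZ (1 + 2 * δ) (2 * u)).re := by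
  have h := z341 (show 0 < 2 * δ by linarith) u
  have e0 := LZ_exp hZ h0 h1 0
  have e1 := LZ_exp hZ h0 h1 u
  have e2 := LZ_exp hZ h0 h1 (2 * u)
  have f0 : (((1 + 2 * δ : ℝ) : ℂ) + ((0:ℝ):ℂ) * I) = 1 + ((2 * δ : ℝ) : ℂ) := by push_cast; ring
  have f1 : (((1 + 2 * δ : ℝ) : ℂ) + (u:ℂ) * I) = 1 + ((2 * δ : ℝ) : ℂ) + I * u := by push_cast; ring
  have f2 : (((1 + 2 * δ : ℝ) : ℂ) + ((2 * u : ℝ):ℂ) * I) = 1 + ((2 * δ : ℝ) : ℂ) + 2 * I * u := by push_cast; ring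
  rw [f0] at e0
  rw [f1] at e1
  rw [f2] at e2
  rw [← e0, ← e1, ← e2, ← Real.exp_nat_mul, ← Real.exp_nat_mul, ← Real.exp_add, ← Real.exp_add,
    Real.one_le_exp_iff] at h
  push_cast at h
  linarith

/-- the real part of the logarithm of zeta at large distances -/
lemma rho_bd (hZ : S_LZB) {D e : ℝ} (hD : 0 < D) (he : 0 < e) (he1 : e ≤ 1 / 5) : Ev fun _ δ =>
    0 < (LZ (1 + 2 * δ) 0).re ∧ ∀ h : ℝ, 1 ≤ h → h ≤ δ ^ (-D) →
      (LZ (1 + 2 * δ) h).re ≤ e * (LZ (1 + 2 * δ) 0).re ∧ -(4 / 5 * (LZ (1 + 2 * δ) 0).re) ≤ (LZ (1 + 2 * δ) h).re := by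
  obtain ⟨C, hC, hC2⟩ := LZ_zero hZ
  have hlim : ∀ᶠ L : ℝ in atTop, Real.log (6 + D * L) ≤ e * (L - C) ∧ 0 < L - C ∧ 0 < L := by
    have h1 : Tendsto (fun L : ℝ => 6 + D * L) atTop atTop :=
      tendsto_atTop_add_const_left _ _ (tendsto_id.const_mul_atTop hD)
    have h2 := (Real.isLittleO_log_id_atTop.comp_tendsto h1).def (show 0 < e / (2 * D) by positivity)
    filter_upwards [h2, eventually_ge_atTop (6 / D + 2 * C + 2 * (6 / D)), eventually_gt_atTop C, eventually_gt_atTop 0,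
      eventually_ge_atTop 1]
      with L g1 g2 g3 g4 g5
    refine ⟨?_, by linarith, g4⟩
    simp only [Function.comp, id] at g1
    have h3 : 0 < 6 + D * L := by positivity
    rw [Real.norm_of_nonneg h3.le] at g1
    refine (Real.le_norm_self _).trans (g1.trans ?_)
    have h4 : e / (2 * D) * (6 + D * L) = e * (3 / D + L / 2) := by field_simp; ring
    rw [h4]
    refine mul_le_mul_of_nonneg_left ?_ he.le
    have h6 : (6:ℝ) / D = 2 * (3 / D) := by ring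
    rw [h6] at g2
    have : 0 < 3 / D := by positivity
    linarith
  refine ((Ev.of_log hlim).mono ?_)
  rintro X δ hX h0 h1 ⟨g1, g2, g3⟩
  have hl := (abs_le.1 (hC2 δ h0 h1)).1
  set l0 := (LZ (1 + 2 * δ) 0).re with hl0
  set L := Real.log (1 / δ) with hL
  have hl0p : 0 < l0 := by linarith
  have hup : ∀ u : ℝ, 1 ≤ u → u ≤ 2 * δ ^ (-D) → (LZ (1 + 2 * δ) u).re ≤ e * l0 := by
    intro u hu hu2
    have h2 := LZ_up hZ h0 h1 (u := u) (by rw [abs_of_pos (by linarith)]; exact hu)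
    rw [abs_of_pos (by linarith : 0 < u)] at h2
    refine h2.trans ?_
    have h3 : 1 + u ≤ 4 * δ ^ (-D) := by
      have : 1 ≤ δ ^ (-D) := Real.one_le_rpow_of_pos_of_le_one_of_nonpos h0 (by linarith) (by linarith)
      linarith
    have h4 : Real.log (1 + u) ≤ 2 + D * L := by
      refine (Real.log_le_log (by linarith) h3).trans ?_
      rw [Real.log_mul (by norm_num) (Real.rpow_pos_of_pos h0 _).ne', Real.log_rpow h0, hL, one_div, Real.log_inv]
      have : Real.log 4 ≤ 2 := by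
        have h5 : (4:ℝ) = 2 * 2 := by norm_num
        rw [h5, Real.log_mul (by norm_num) (by norm_num)]
        linarith [Real.log_two_lt_d9]
      linarith
    have h5 : 0 ≤ Real.log (1 + u) := Real.log_nonneg (by linarith)
    calc Real.log (4 + Real.log (1 + u)) ≤ Real.log (6 + D * L) := Real.log_le_log (by linarith) (by linarith)
      _ ≤ e * (L - C) := g1
      _ ≤ e * l0 := mul_le_mul_of_nonneg_left (by linarith) he.le
  refine ⟨hl0p, fun h hh hh2 => ⟨?_, ?_⟩⟩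
  · refine hup h hh ?_
    have : 0 ≤ δ ^ (-D) := Real.rpow_nonneg h0.le _
    linarith
  · have h2 := hup (2 * h) (by linarith) (by linarith)
    have h3 := L341 hZ h0 h1 h
    rw [← hl0] at h3
    nlinarith

/-- the exponents -/
noncomputable def bb (V ξ : ℝ) : ℂ := (V : ℂ) + ((ξ / 2 : ℝ) : ℂ) * I

/-- the complex power of the modulus of zeta -/
noncomputable def Kz (V δ t ξ : ℝ) : ℂ := ((mz δ t : ℝ) : ℂ) ^ (2 * bb V ξ)

lemma Kz_eq {V δ t ξ : ℝ} (h : 0 < mz δ t) : Kz V δ t ξ =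
    ((mz δ t ^ (2 * V) : ℝ) : ℂ) * cexp (I * (Real.log (mz δ t) : ℝ) * ξ) := by
  have hz : ((mz δ t : ℝ) : ℂ) ≠ 0 := by exact_mod_cast h.ne'
  unfold Kz bb
  rw [Complex.cpow_def_of_ne_zero hz, ← Complex.ofReal_log h.le, Real.rpow_def_of_pos h, Complex.ofReal_exp,
    ← Complex.exp_add]
  congr 1
  push_cast
  ring

lemma Kz_ZZ (V δ t ξ : ℝ) : ZZ (riemannZeta (pw δ t)) (bb V ξ) 0 = Kz V δ t ξ := by
  unfold ZZ Kz
  rw [zpow_zero, mul_one]
  rfl

lemma Kz_meas {δ : ℝ} (V : ℝ) (h1 : δ ≤ 1 / 16) : Measurable fun q : ℝ × ℝ => Kz V δ q.1 q.2 := by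
  unfold Kz bb
  have h2 : Measurable fun q : ℝ × ℝ => ((mz δ q.1 : ℝ) : ℂ) :=
    Complex.measurable_ofReal.comp ((TMA.cont h1).measurable.comp measurable_fst)
  refine h2.pow ?_
  fun_prop

lemma Kz_norm {V δ t ξ : ℝ} (h : 0 < mz δ t) : ‖Kz V δ t ξ‖ = mz δ t ^ (2 * V) := by
  rw [Kz_eq h, norm_mul, Complex.norm_real, Real.norm_of_nonneg (Real.rpow_nonneg h.le _), Complex.norm_exp]
  have : (I * ((Real.log (mz δ t) : ℝ) : ℂ) * (ξ : ℂ)).re = 0 := by
    rw [mul_assoc, Complex.I_mul_re, ← Complex.ofReal_mul, Complex.ofReal_im, neg_zero]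
  rw [this, Real.exp_zero, mul_one]

/-- the Fourier integral of the local weight -/
lemma four {γ : ℝ → ℂ} {V δ t : ℝ} (lam : ℝ) (h : 0 < mz δ t) :
    ∫ ξ, γ ξ * cexp (-(I * (V * lam : ℝ) * ξ)) * Kz V δ t ξ =
      ((mz δ t ^ (2 * V) : ℝ) : ℂ) * ∫ ξ, γ ξ * cexp (I * (Real.log (mz δ t) - V * lam : ℝ) * ξ) := by
  rw [← integral_const_mul]
  refine integral_congr_ae (Eventually.of_forall fun ξ => ?_)
  simp only
  rw [Kz_eq h]
  have e : cexp (I * (Real.log (mz δ t) - V * lam : ℝ) * ξ) = cexp (-(I * (V * lam : ℝ) * ξ)) *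
      cexp (I * (Real.log (mz δ t) : ℝ) * ξ) := by
    rw [← Complex.exp_add]
    congr 1
    push_cast
    ring
  rw [e]
  ring

end Run7.h291.WL
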