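import Pool.Agent.Run7.h291.WL.E3

set_option autoImplicit false

/-! The two-point function of the local weight (LL2): the Fourier integral -/

namespace Run7.h291.WL

open Finset Filter MeasureTheory Topology Complex
open Pool.Agent.N748.MG Pool.Agent.N748.MJ Run7.h291.WN Run7.h651.WN

/-- the weight of the Fourier side -/
noncomputable def ft (γ : ℝ → ℂ) (V lam δ t ξ : ℝ) : ℂ := γ ξ * cexp (-(I * (V * lam : ℝ) * ξ)) * Kz V δ t ξ

lemma ft_meas {γ : ℝ → ℂ} {V lam δ : ℝ} (hγ : Continuous γ) (h1 : δ ≤ 1 / 16) :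
    Measurable fun q : ℝ × ℝ => ft γ V lam δ q.1 q.2 := by
  unfold ft
  refine Measurable.mul ?_ (Kz_meas V h1)
  refine (hγ.measurable.comp measurable_snd).mul ?_
  fun_prop

lemma ft_norm {γ : ℝ → ℂ} {V lam δ t ξ : ℝ} (h : 0 < mz δ t) : ‖ft γ V lam δ t ξ‖ = ‖γ ξ‖ * mz δ t ^ (2 * V) := by
  unfold ft
  rw [norm_mul, norm_mul, Kz_norm h, Complex.norm_exp]
  have : (-(I * ((V * lam : ℝ) : ℂ) * (ξ : ℂ))).re = 0 := by
    rw [Complex.neg_re, mul_assoc, Complex.I_mul_re, ← Complex.ofReal_mul, Complex.ofReal_im, neg_zero, neg_zero]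
  rw [this, Real.exp_zero, mul_one]

lemma core2 {X δ V h lam : ℝ} {γ : ℝ → ℂ} {N : Set ℝ} (h1 : δ ≤ 1 / 16) (hV : 0 ≤ V)
    (hN : MeasurableSet N) (hNX : N ⊆ Set.Icc 0 X) (hp1 : ∀ t ∈ N, 0 < mz δ t) (hp2 : ∀ t ∈ N, 0 < mz δ (t + h))
    (hγ : Continuous γ) (hγs : HasCompactSupport γ) {g : ℝ → ℝ} (hg0 : ∀ x, 0 ≤ g x)
    (hmaj : ∀ x : ℝ, ∃ r : ℝ, (∫ ξ : ℝ, γ ξ * cexp (I * x * ξ)) = r ∧ g x ≤ r)
    {bd : ℝ × ℝ → ℝ} (hbd : Integrable bd)
    (hJ : ∀ p : ℝ × ℝ, ‖γ p.1‖ * ‖γ p.2‖ * ‖∫ t in N, Kz V δ t p.1 * Kz V δ (t + h) p.2‖ ≤ bd p) :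
    ∃ H : ℝ → ℝ, IntegrableOn H N ∧ (∀ t ∈ N, g (Real.log (mz δ t) - V * lam) * g (Real.log (mz δ (t + h)) - V * lam) *
      (mz δ t ^ (2 * V) * mz δ (t + h) ^ (2 * V)) ≤ H t) ∧ ∫ t in N, H t ≤ ∫ p, bd p := by
  have hNf : volume N < ⊤ := (measure_mono hNX).trans_lt (by rw [Real.volume_Icc]; exact ENNReal.ofReal_lt_top)
  have hfin : IsFiniteMeasure (volume.restrict N) := ⟨by rw [Measure.restrict_apply_univ]; exact hNf⟩
  set f : ℝ → ℝ × ℝ → ℂ := fun t p => ft γ V lam δ t p.1 * ft γ V lam δ (t + h) p.2 with hf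
  have hγi : Integrable fun ξ => ‖γ ξ‖ := (hγ.integrable_of_hasCompactSupport hγs).norm
  -- bound on N
  obtain ⟨Bd, hBd⟩ : ∃ Bd : ℝ, ∀ t ∈ Set.Icc 0 X, mz δ t ^ (2 * V) * mz δ (t + h) ^ (2 * V) ≤ Bd := by
    have hc : Continuous fun t : ℝ => mz δ t ^ (2 * V) * mz δ (t + h) ^ (2 * V) :=
      ((TMA.cont h1).rpow_const fun _ => Or.inr (by positivity)).mul
        (((TMA.cont h1).comp (by fun_prop : Continuous fun t : ℝ => t + h)).rpow_const fun _ => Or.inr (by positivity))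
    obtain ⟨B, hB⟩ := (isCompact_Icc (a := (0:ℝ)) (b := X)).bddAbove_image hc.continuousOn
    exact ⟨B, fun t ht => hB ⟨t, ht, rfl⟩⟩
  have hfi : Integrable (Function.uncurry f) ((volume.restrict N).prod (volume : Measure (ℝ × ℝ))) := by
    have hb : Integrable (fun q : ℝ × (ℝ × ℝ) => Bd * (‖γ q.2.1‖ * ‖γ q.2.2‖))
        ((volume.restrict N).prod (volume : Measure (ℝ × ℝ))) := by
      have h2 : Integrable (fun p : ℝ × ℝ => ‖γ p.1‖ * ‖γ p.2‖) (volume : Measure (ℝ × ℝ)) := by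
        rw [Measure.volume_eq_prod]
        exact hγi.mul_prod hγi
      exact (integrable_const Bd).mul_prod h2
    refine hb.mono' ?_ ?_
    · refine Measurable.aestronglyMeasurable ?_
      refine Measurable.mul ?_ ?_
      · exact (ft_meas hγ h1).comp (by fun_prop : Measurable fun q : ℝ × (ℝ × ℝ) => (q.1, q.2.1))
      · exact (ft_meas hγ h1).comp (by fun_prop : Measurable fun q : ℝ × (ℝ × ℝ) => (q.1 + h, q.2.2))
    · have hae := (Measure.quasiMeasurePreserving_fst (μ := volume.restrict N)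
        (ν := (volume : Measure (ℝ × ℝ)))).ae (ae_restrict_mem hN)
      filter_upwards [hae] with q hq
      show ‖ft γ V lam δ q.1 q.2.1 * ft γ V lam δ (q.1 + h) q.2.2‖ ≤ _
      rw [norm_mul, ft_norm (hp1 _ hq), ft_norm (hp2 _ hq)]
      have h3 := hBd _ (hNX hq)
      have h4 : 0 ≤ ‖γ q.2.1‖ * ‖γ q.2.2‖ := by positivity
      calc ‖γ q.2.1‖ * mz δ q.1 ^ (2 * V) * (‖γ q.2.2‖ * mz δ (q.1 + h) ^ (2 * V)) =
          (mz δ q.1 ^ (2 * V) * mz δ (q.1 + h) ^ (2 * V)) * (‖γ q.2.1‖ * ‖γ q.2.2‖) := by ring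
        _ ≤ _ := mul_le_mul_of_nonneg_right h3 h4
  refine ⟨fun t => (∫ p, f t p).re, (hfi.integral_prod_left).re, ?_, ?_⟩
  · intro t ht
    have e1 : ∫ p, f t p = (∫ ξ, ft γ V lam δ t ξ) * ∫ ξ, ft γ V lam δ (t + h) ξ := by
      rw [hf, Measure.volume_eq_prod]
      exact integral_prod_mul _ _
    obtain ⟨r1, hr1, hr1'⟩ := hmaj (Real.log (mz δ t) - V * lam)
    obtain ⟨r2, hr2, hr2'⟩ := hmaj (Real.log (mz δ (t + h)) - V * lam)
    have e2 : ∫ ξ, ft γ V lam δ t ξ = ((mz δ t ^ (2 * V) * r1 : ℝ) : ℂ) := by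
      unfold ft
      rw [four lam (hp1 t ht), hr1]
      push_cast
      ring
    have e3 : ∫ ξ, ft γ V lam δ (t + h) ξ = ((mz δ (t + h) ^ (2 * V) * r2 : ℝ) : ℂ) := by
      unfold ft
      rw [four lam (hp2 t ht), hr2]
      push_cast
      ring
    show _ ≤ (∫ p, f t p).re
    rw [e1, e2, e3, ← Complex.ofReal_mul, Complex.ofReal_re]
    have g1 := Real.rpow_nonneg (hp1 t ht).le (2 * V)
    have g2 := Real.rpow_nonneg (hp2 t ht).le (2 * V)
    have g3 := mul_le_mul hr1' hr2' (hg0 _) ((hg0 _).trans hr1')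
    calc g (Real.log (mz δ t) - V * lam) * g (Real.log (mz δ (t + h)) - V * lam) *
        (mz δ t ^ (2 * V) * mz δ (t + h) ^ (2 * V)) ≤ r1 * r2 * (mz δ t ^ (2 * V) * mz δ (t + h) ^ (2 * V)) :=
          mul_le_mul_of_nonneg_right g3 (mul_nonneg g1 g2)
      _ = _ := by ring
  · have e1 : ∫ t in N, (∫ p, f t p).re = (∫ t in N, ∫ p, f t p).re := by
      exact integral_re hfi.integral_prod_left
    rw [e1, integral_integral_swap hfi]
    refine (Complex.re_le_norm _).trans ?_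
    refine norm_integral_le_of_norm_le hbd (Eventually.of_forall fun p => ?_)
    have e2 : ∫ t in N, f t p = (γ p.1 * cexp (-(I * (V * lam : ℝ) * p.1))) * (γ p.2 * cexp (-(I * (V * lam : ℝ) * p.2))) *
        ∫ t in N, Kz V δ t p.1 * Kz V δ (t + h) p.2 := by
      rw [← integral_const_mul]
      refine integral_congr_ae (Eventually.of_forall fun t => ?_)
      simp only [hf, ft]
      ring
    have hn : ∀ x : ℝ, ‖cexp (-(I * (V * lam : ℝ) * x))‖ = 1 := by
      intro x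
      rw [Complex.norm_exp]
      have : (-(I * ((V * lam : ℝ) : ℂ) * (x : ℂ))).re = 0 := by
        rw [Complex.neg_re, mul_assoc, Complex.I_mul_re, ← Complex.ofReal_mul, Complex.ofReal_im, neg_zero, neg_zero]
      rw [this, Real.exp_zero]
    rw [e2, norm_mul, norm_mul, norm_mul, norm_mul, hn, hn, mul_one, mul_one]
    exact hJ p

/-- the Gaussian bound -/
noncomputable def gb (M A B q : ℝ) (p : ℝ × ℝ) : ℝ :=
  A * (Real.exp (-(M / 4) * p.1 ^ 2) * Real.exp (-(M / 4) * p.2 ^ 2)) +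
    B * q * (Real.exp (-(M / 8) * p.1 ^ 2) * Real.exp (-(M / 4) * p.2 ^ 2) +
      Real.exp (-(M / 4) * p.1 ^ 2) * Real.exp (-(M / 8) * p.2 ^ 2))

lemma gb_int {M : ℝ} (hM : 0 < M) (A B q : ℝ) : Integrable (gb M A B q) := by
  have h4 := integrable_exp_neg_mul_sq (show 0 < M / 4 by positivity)
  have h8 := integrable_exp_neg_mul_sq (show 0 < M / 8 by positivity)
  rw [Measure.volume_eq_prod]
  exact ((h4.mul_prod h4).const_mul A).add (((h8.mul_prod h4).add (h4.mul_prod h8)).const_mul (B * q))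

lemma gb_val {M A B q : ℝ} (hM : 0 < M) (hB : 0 ≤ B) (hq : 0 ≤ q) : ∫ p, gb M A B q p ≤
    4 * Real.pi / M * (A + 3 * B * q) := by
  have hpi := Real.pi_pos
  have h4 := integrable_exp_neg_mul_sq (show 0 < M / 4 by positivity)
  have h8 := integrable_exp_neg_mul_sq (show 0 < M / 8 by positivity)
  have i4 := integral_gaussian (M / 4)
  have i8 := integral_gaussian (M / 8)
  have e : ∫ p, gb M A B q p = A * (√(Real.pi / (M / 4)) * √(Real.pi / (M / 4))) +
      B * q * (√(Real.pi / (M / 8)) * √(Real.pi / (M / 4)) + √(Real.pi / (M / 4)) * √(Real.pi / (M / 8))) := by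
    have j1 : Integrable (fun p : ℝ × ℝ => Real.exp (-(M / 4) * p.1 ^ 2) * Real.exp (-(M / 4) * p.2 ^ 2)) := by
      rw [Measure.volume_eq_prod]
      exact h4.mul_prod h4
    have j2 : Integrable (fun p : ℝ × ℝ => Real.exp (-(M / 8) * p.1 ^ 2) * Real.exp (-(M / 4) * p.2 ^ 2)) := by
      rw [Measure.volume_eq_prod]
      exact h8.mul_prod h4
    have j3 : Integrable (fun p : ℝ × ℝ => Real.exp (-(M / 4) * p.1 ^ 2) * Real.exp (-(M / 8) * p.2 ^ 2)) := by
      rw [Measure.volume_eq_prod]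
      exact h4.mul_prod h8
    have k1 : ∫ p : ℝ × ℝ, Real.exp (-(M / 4) * p.1 ^ 2) * Real.exp (-(M / 4) * p.2 ^ 2) =
        √(Real.pi / (M / 4)) * √(Real.pi / (M / 4)) := by
      rw [Measure.volume_eq_prod, integral_prod_mul (fun x : ℝ => Real.exp (-(M / 4) * x ^ 2))
        (fun x : ℝ => Real.exp (-(M / 4) * x ^ 2)), i4]
    have k2 : ∫ p : ℝ × ℝ, Real.exp (-(M / 8) * p.1 ^ 2) * Real.exp (-(M / 4) * p.2 ^ 2) =
        √(Real.pi / (M / 8)) * √(Real.pi / (M / 4)) := by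
      rw [Measure.volume_eq_prod, integral_prod_mul (fun x : ℝ => Real.exp (-(M / 8) * x ^ 2))
        (fun x : ℝ => Real.exp (-(M / 4) * x ^ 2)), i4, i8]
    have k3 : ∫ p : ℝ × ℝ, Real.exp (-(M / 4) * p.1 ^ 2) * Real.exp (-(M / 8) * p.2 ^ 2) =
        √(Real.pi / (M / 4)) * √(Real.pi / (M / 8)) := by
      rw [Measure.volume_eq_prod, integral_prod_mul (fun x : ℝ => Real.exp (-(M / 4) * x ^ 2))
        (fun x : ℝ => Real.exp (-(M / 8) * x ^ 2)), i4, i8]
    unfold gb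
    have j23 : Integrable (fun p : ℝ × ℝ => Real.exp (-(M / 8) * p.1 ^ 2) * Real.exp (-(M / 4) * p.2 ^ 2) +
      Real.exp (-(M / 4) * p.1 ^ 2) * Real.exp (-(M / 8) * p.2 ^ 2)) := j2.add j3
    rw [integral_add (j1.const_mul A) (j23.const_mul (B * q)), integral_const_mul, integral_const_mul,
      integral_add j2 j3, k1, k2, k3]
  have s1 : √(Real.pi / (M / 4)) * √(Real.pi / (M / 4)) = 4 * Real.pi / M := by
    rw [Real.mul_self_sqrt (by positivity)]
    field_simp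
  have s2 : √(Real.pi / (M / 8)) ≤ 3 / 2 * √(Real.pi / (M / 4)) := by
    rw [Real.sqrt_le_left (by positivity), mul_pow, Real.sq_sqrt (by positivity)]
    have : Real.pi / (M / 8) = 8 * (Real.pi / M) := by field_simp
    rw [this]
    have : Real.pi / (M / 4) = 4 * (Real.pi / M) := by field_simp
    rw [this]
    have : 0 < Real.pi / M := by positivity
    nlinarith
  have s3 : √(Real.pi / (M / 8)) * √(Real.pi / (M / 4)) ≤ 3 / 2 * (4 * Real.pi / M) := by
    rw [← s1, ← mul_assoc]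
    exact mul_le_mul_of_nonneg_right s2 (Real.sqrt_nonneg _)
  rw [e, s1, mul_comm (√(Real.pi / (M / 4))) (√(Real.pi / (M / 8)))]
  have := mul_le_mul_of_nonneg_left s3 (mul_nonneg hB hq)
  nlinarith

end Run7.h291.WL
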