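import Pool.Agent.Run7.h291.WL.E4

set_option autoImplicit false

/-! The two-point function of the local weight (LL2): the bound of the Fourier integrand -/

namespace Run7.h291.WL

open Finset Filter MeasureTheory Topology Complex
open Pool.Agent.N748.MG Pool.Agent.N748.MJ Run7.h291.WN Run7.h651.WN

/-- the pair of exponents -/
noncomputable def b2 (V p1 p2 : ℝ) : Fin 2 → ℂ := ![bb V p1, bb V p2]

lemma LM_two {δ : ℝ} (h0 : 0 < δ) (V p1 p2 h : ℝ) : LM (b2 V p1 p2) (b2 V p1 p2) ![0, h] δ =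
    (bb V p1 ^ 2 + bb V p2 ^ 2) * (((LZ (1 + 2 * δ) 0).re : ℝ) : ℂ) +
      2 * (bb V p1 * bb V p2) * (((LZ (1 + 2 * δ) h).re : ℝ) : ℂ) := by
  have h1 := sym_sum (m := 2) h0 ![0, h] (fun j l => b2 V p1 p2 j * b2 V p1 p2 l) (fun j l => mul_comm _ _)
  have h2 : (LZ (1 + 2 * δ) (-h)).re = (LZ (1 + 2 * δ) h).re := by
    rw [LZ_conj h0, Complex.conj_re]
  unfold LM
  rw [h1]
  simp only [Fin.sum_univ_two, Matrix.cons_val_zero, Matrix.cons_val_one, sub_self, zero_sub, sub_zero, b2, h2]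
  ring

lemma bb_sq_re (V p : ℝ) : (bb V p ^ 2).re = V ^ 2 - p ^ 2 / 4 := by
  unfold bb
  simp [pow_two]
  ring

lemma bb_sq_im (V p : ℝ) : (bb V p ^ 2).im = V * p := by
  unfold bb
  simp [pow_two]
  ring

lemma bb_mul_re (V p q : ℝ) : (bb V p * bb V q).re = V ^ 2 - p * q / 4 := by
  unfold bb
  simp
  ring

lemma LM_nb {δ : ℝ} (h0 : 0 < δ) (V p1 p2 h : ℝ) :
    ‖cexp (LM (b2 V p1 p2) (b2 V p1 p2) ![0, h] δ)‖ ≤
      Real.exp (2 * V ^ 2 * ((LZ (1 + 2 * δ) 0).re + (LZ (1 + 2 * δ) h).re)) *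
      (Real.exp (-(((LZ (1 + 2 * δ) 0).re - |(LZ (1 + 2 * δ) h).re|) / 4) * p1 ^ 2) *
        Real.exp (-(((LZ (1 + 2 * δ) 0).re - |(LZ (1 + 2 * δ) h).re|) / 4) * p2 ^ 2)) := by
  rw [Complex.norm_exp, LM_two h0, ← Real.exp_add, ← Real.exp_add]
  refine Real.exp_le_exp.2 ?_
  set l := (LZ (1 + 2 * δ) 0).re
  set r := (LZ (1 + 2 * δ) h).re
  have e1 : ((bb V p1 ^ 2 + bb V p2 ^ 2) * ((l : ℝ) : ℂ) + 2 * (bb V p1 * bb V p2) * ((r : ℝ) : ℂ)).re =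
      (V ^ 2 - p1 ^ 2 / 4 + (V ^ 2 - p2 ^ 2 / 4)) * l + 2 * (V ^ 2 - p1 * p2 / 4) * r := by
    rw [Complex.add_re, Complex.re_mul_ofReal, Complex.re_mul_ofReal, Complex.add_re, bb_sq_re, bb_sq_re]
    congr 2
    rw [← bb_mul_re]
    simp
  rw [e1]
  have h2 : -(p1 * p2 * r) / 2 ≤ |r| * (p1 ^ 2 + p2 ^ 2) / 4 := by
    have h3 : -(p1 * p2 * r) ≤ |p1 * p2| * |r| := by
      rw [← abs_mul]
      exact neg_le_abs _
    have h4 : |p1 * p2| ≤ (p1 ^ 2 + p2 ^ 2) / 2 := by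
      rw [abs_le]
      constructor <;> nlinarith [sq_nonneg (p1 + p2), sq_nonneg (p1 - p2)]
    have h5 := mul_le_mul_of_nonneg_right h4 (abs_nonneg r)
    linarith
  linarith

lemma int_bd {X δ V h e' p1 p2 : ℝ} {N : Set ℝ} (hX : 0 < X) (h0 : 0 < δ)
    (hj : ‖cexp (-(LM (b2 V p1 p2) (b2 V p1 p2) ![0, h] δ)) * (∫ t in N, ∏ j, ZZ (riemannZeta (pw δ (t + ![0, h] j)))
      (b2 V p1 p2 j) ((fun _ => 0 : Fin 2 → ℤ) j)) - X * aV (b2 V p1 p2) (b2 V p1 p2) ![0, h]‖ ≤ e' * X) :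
    ‖∫ t in N, Kz V δ t p1 * Kz V δ (t + h) p2‖ ≤
      Real.exp (2 * V ^ 2 * ((LZ (1 + 2 * δ) 0).re + (LZ (1 + 2 * δ) h).re)) *
      (Real.exp (-(((LZ (1 + 2 * δ) 0).re - |(LZ (1 + 2 * δ) h).re|) / 4) * p1 ^ 2) *
        Real.exp (-(((LZ (1 + 2 * δ) 0).re - |(LZ (1 + 2 * δ) h).re|) / 4) * p2 ^ 2)) *
      (X * (‖aV (b2 V p1 p2) (b2 V p1 p2) ![0, h]‖ + e')) := by
  have e1 : ∀ t, ∏ j, ZZ (riemannZeta (pw δ (t + ![0, h] j))) (b2 V p1 p2 j) ((fun _ => 0 : Fin 2 → ℤ) j) =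
      Kz V δ t p1 * Kz V δ (t + h) p2 := by
    intro t
    rw [Fin.prod_univ_two]
    simp only [Matrix.cons_val_zero, Matrix.cons_val_one, b2, Kz_ZZ, add_zero]
  simp_rw [e1] at hj
  set J := ∫ t in N, Kz V δ t p1 * Kz V δ (t + h) p2
  set L := LM (b2 V p1 p2) (b2 V p1 p2) ![0, h] δ with hL
  set a := aV (b2 V p1 p2) (b2 V p1 p2) ![0, h]
  have h2 : ‖cexp (-L) * J‖ ≤ X * (‖a‖ + e') := by
    have h3 := norm_sub_norm_le (cexp (-L) * J) ((X:ℂ) * a)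
    have h4 : ‖(X:ℂ) * a‖ = X * ‖a‖ := by
      rw [norm_mul, Complex.norm_real, Real.norm_of_nonneg hX.le]
    rw [h4] at h3
    linarith
  have h3 : J = cexp L * (cexp (-L) * J) := by
    rw [← mul_assoc, ← Complex.exp_add, add_neg_cancel, Complex.exp_zero, one_mul]
  have h5 : 0 ≤ X * (‖a‖ + e') := (norm_nonneg _).trans h2
  rw [h3, norm_mul]
  exact mul_le_mul (LM_nb h0 V p1 p2 h) h2 (norm_nonneg _) (by positivity)

end Run7.h291.WL
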