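import Pool.Agent.Run7.h291.WL.E5
import Pool.Agent.Run7.h651.WN.EQC

set_option autoImplicit false

/-! The two-point function of the local weight (LL2) -/

namespace Run7.h291.WL

open Finset Filter MeasureTheory Topology Complex
open Pool.Agent.N748.MG Pool.Agent.N748.MJ Run7.h291.WN Run7.h651.WN

/-- the pointwise bound by the Gaussian bound -/
lemma pt_bd {X E M A B q η m t C a p1 p2 g1 g2 av Γ J : ℝ} (hX : 0 < X) (hE : 0 ≤ E) (hM : 0 ≤ M) (ht : 0 ≤ t)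
    (hA : A = (m + t) ^ 2 * (a + 2 * t)) (hB : B = Γ ^ 2 * (C + t)) (hq : q = Real.exp (-(M / 8) * η ^ 2)) (hm : 0 ≤ m)
    (ha : 0 ≤ a) (hC : 0 ≤ C) (hη : 0 < η)
    (hg1 : 0 ≤ g1) (hg2 : 0 ≤ g2) (hav0 : 0 ≤ av) (hg1Γ : g1 ≤ Γ) (hg2Γ : g2 ≤ Γ) (hav : av ≤ C)
    (hs1 : |p1| ≤ η → g1 ≤ m + t) (hs2 : |p2| ≤ η → g2 ≤ m + t) (hs : |p1| ≤ η → |p2| ≤ η → av ≤ a + t)
    (hJ : J ≤ E * (Real.exp (-(M / 4) * p1 ^ 2) * Real.exp (-(M / 4) * p2 ^ 2)) * (X * (av + t))) :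
    g1 * g2 * J ≤ X * E * gb M A B q (p1, p2) := by
  unfold gb
  simp only
  have f0 : ∀ c x : ℝ, 0 < Real.exp (c * x ^ 2) := fun c x => Real.exp_pos _
  set φ1 := Real.exp (-(M / 4) * p1 ^ 2) with hφ1
  set φ2 := Real.exp (-(M / 4) * p2 ^ 2) with hφ2
  set ψ1 := Real.exp (-(M / 8) * p1 ^ 2) with hψ1
  set ψ2 := Real.exp (-(M / 8) * p2 ^ 2) with hψ2
  have k1 : 0 < φ1 := f0 _ _
  have k2 : 0 < φ2 := f0 _ _
  have k3 : 0 < ψ1 := f0 _ _
  have k4 : 0 < ψ2 := f0 _ _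
  have hΓ : 0 ≤ Γ := hg1.trans hg1Γ
  have hA0 : 0 ≤ A := by rw [hA]; positivity
  have hB0 : 0 ≤ B := by rw [hB]; positivity
  have hq0 : 0 < q := by rw [hq]; exact f0 _ _
  have hgg : 0 ≤ g1 * g2 := mul_nonneg hg1 hg2
  refine (mul_le_mul_of_nonneg_left hJ hgg).trans ?_
  have e1 : g1 * g2 * (E * (φ1 * φ2) * (X * (av + t))) = X * E * ((g1 * g2 * (av + t)) * (φ1 * φ2)) := by ring
  rw [e1]
  refine mul_le_mul_of_nonneg_left ?_ (by positivity)
  have hdec : ∀ p : ℝ, η < |p| → Real.exp (-(M / 4) * p ^ 2) ≤ q * Real.exp (-(M / 8) * p ^ 2) := by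
    intro p hp
    rw [hq, ← Real.exp_add]
    refine Real.exp_le_exp.2 ?_
    have h2 : η ^ 2 ≤ p ^ 2 := by
      rw [← sq_abs p]
      exact pow_le_pow_left₀ hη.le hp.le 2
    nlinarith
  have hbig : g1 * g2 * (av + t) ≤ B := by
    rw [hB]
    have h3 : g1 * g2 ≤ Γ ^ 2 := by
      rw [pow_two]
      exact mul_le_mul hg1Γ hg2Γ hg2 hΓ
    exact mul_le_mul h3 (by linarith) (by linarith) (by positivity)
  have n1 : 0 ≤ A * (φ1 * φ2) := by positivity
  have n2 : 0 ≤ B * q * (ψ1 * φ2) := by positivity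
  have n3 : 0 ≤ B * q * (φ1 * ψ2) := by positivity
  have hsplit : B * q * (ψ1 * φ2 + φ1 * ψ2) = B * q * (ψ1 * φ2) + B * q * (φ1 * ψ2) := by ring
  rw [hsplit]
  rcases le_or_gt |p1| η with h1 | h1
  · rcases le_or_gt |p2| η with h2 | h2
    · have h3 : g1 * g2 * (av + t) ≤ A := by
        rw [hA]
        have h4 : g1 * g2 ≤ (m + t) ^ 2 := by
          rw [pow_two]
          exact mul_le_mul (hs1 h1) (hs2 h2) hg2 (by linarith)
        exact mul_le_mul h4 (by linarith [hs h1 h2]) (by linarith) (by positivity)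
      have h5 := mul_le_mul_of_nonneg_right h3 (mul_pos k1 k2).le
      linarith
    · have h3 := hdec p2 h2
      rw [← hφ2, ← hψ2] at h3
      have h4 : g1 * g2 * (av + t) * (φ1 * φ2) ≤ B * (φ1 * (q * ψ2)) :=
        mul_le_mul hbig (mul_le_mul_of_nonneg_left h3 k1.le) (by positivity) hB0
      have h5 : B * (φ1 * (q * ψ2)) = B * q * (φ1 * ψ2) := by ring
      linarith
  · have h3 := hdec p1 h1
    rw [← hφ1, ← hψ1] at h3
    have h4 : g1 * g2 * (av + t) * (φ1 * φ2) ≤ B * ((q * ψ1) * φ2) :=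
      mul_le_mul hbig (mul_le_mul_of_nonneg_right h3 k2.le) (by positivity) hB0
    have h5 : B * ((q * ψ1) * φ2) = B * q * (ψ1 * φ2) := by ring
    linarith

/-- the final inequality -/
lemma fin_alg {X S lam l0 r E cc z1 ak a c C m t e ε P B3 : ℝ} (hX : 0 < X) (hl0 : 0 < l0) (hlam0 : 0 ≤ lam)
    (hak : 0 < ak) (hc : 0 < c) (hca : c ≤ a) (haC : a ≤ C) (hm : 0 ≤ m) (ht : 0 < t) (he : 0 < e) (he1 : e ≤ 1 / 5)
    (heε : 9 * e ≤ ε) (hS : 0 < S) (hmS : 2 * Real.pi * m ≤ S + t)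
    (hF : (S + t + 2 * Real.pi * t) ^ 2 * (1 + 2 * t / c) + 4 * Real.pi ^ 2 * t / c ≤ S ^ 2 * (1 + e))
    (hlam : lam ≤ (1 + e) * l0) (hz1 : 0 < z1) (hccE : cc * E ≤ (1 + e) * (z1 / ak ^ 2)) (hccE0 : 0 ≤ cc * E)
    (hr1 : r ≤ e * l0) (hr2 : -(4 / 5 * l0) ≤ r)
    (hP : P ≤ (m + t) ^ 2 * (a + 2 * t) + t) (hP0 : 0 ≤ P) (hB3 : B3 = a / ak ^ 2 * z1)
    (hz2 : r < -(e * l0) → 12 * (4 * Real.pi ^ 2 * ((m + t) ^ 2 * (C + 2 * t) + t)) / ak ^ 2 * z1 ≤ ε / 2) (hε : 0 < ε) :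
    Real.pi * lam * cc * (X * E * (4 * Real.pi / (l0 - |r|) * P)) ≤ X * ((1 + ε) * B3 * S ^ 2 + ε / 2) := by
  have hpi := Real.pi_pos
  have ha : 0 < a := by linarith
  have hB30 : 0 < B3 := by rw [hB3]; positivity
  have hM : l0 / 5 ≤ l0 - |r| := by
    have : |r| ≤ 4 / 5 * l0 := abs_le.2 ⟨by linarith, by nlinarith⟩
    linarith
  have hM0 : 0 < l0 - |r| := by linarith
  set M := l0 - |r| with hMd
  have e1 : Real.pi * lam * cc * (X * E * (4 * Real.pi / M * P)) = X * ((4 * Real.pi ^ 2 * P) * (lam / M) * (cc * E)) := by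
    field_simp
  rw [e1]
  refine mul_le_mul_of_nonneg_left ?_ hX.le
  have hPn : 0 ≤ 4 * Real.pi ^ 2 * P := by positivity
  have hlM : 0 ≤ lam / M := by positivity
  rcases lt_or_ge r (-(e * l0)) with h | h
  · have h1 := hz2 h
    have h2 : lam / M ≤ 6 := by
      rw [div_le_iff₀ hM0]
      nlinarith
    have h3 : 4 * Real.pi ^ 2 * P ≤ 4 * Real.pi ^ 2 * ((m + t) ^ 2 * (C + 2 * t) + t) := by
      refine mul_le_mul_of_nonneg_left (hP.trans ?_) (by positivity)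
      have : (m + t) ^ 2 * (a + 2 * t) ≤ (m + t) ^ 2 * (C + 2 * t) :=
        mul_le_mul_of_nonneg_left (by linarith) (sq_nonneg _)
      linarith
    set K := 4 * Real.pi ^ 2 * ((m + t) ^ 2 * (C + 2 * t) + t) with hK
    have hK0 : 0 ≤ K := hPn.trans h3
    have h4 : 4 * Real.pi ^ 2 * P * (lam / M) * (cc * E) ≤ K * 6 * ((1 + e) * (z1 / ak ^ 2)) :=
      mul_le_mul (mul_le_mul h3 h2 hlM hK0) hccE hccE0 (by positivity)
    have h5 : K * 6 * ((1 + e) * (z1 / ak ^ 2)) ≤ 12 * K / ak ^ 2 * z1 := by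
      have h6 : 12 * K / ak ^ 2 * z1 = K * 6 * (2 * (z1 / ak ^ 2)) := by ring
      rw [h6]
      have h7 : 0 ≤ z1 / ak ^ 2 := by positivity
      exact mul_le_mul_of_nonneg_left (mul_le_mul_of_nonneg_right (by linarith) h7) (by positivity)
    have h8 : 0 ≤ (1 + ε) * B3 * S ^ 2 := by positivity
    linarith
  · have h1 : |r| ≤ e * l0 := abs_le.2 ⟨by linarith, hr1⟩
    have h2 : lam / M ≤ (1 + e) / (1 - e) := by
      rw [div_le_div_iff₀ hM0 (by linarith)]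
      have h3 : (1 - e) * l0 ≤ M := by rw [hMd]; linarith
      have h4 : lam * (1 - e) ≤ (1 + e) * l0 * (1 - e) := mul_le_mul_of_nonneg_right hlam (by linarith)
      have h5 : (1 + e) * ((1 - e) * l0) ≤ (1 + e) * M := mul_le_mul_of_nonneg_left h3 (by linarith)
      nlinarith
    have h3 : 4 * Real.pi ^ 2 * P ≤ a * (S ^ 2 * (1 + e)) := by
      have g1 : 4 * Real.pi ^ 2 * P ≤ 4 * Real.pi ^ 2 * ((m + t) ^ 2 * (a + 2 * t) + t) :=
        mul_le_mul_of_nonneg_left hP (by positivity)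
      have g2 : (2 * Real.pi * (m + t)) ^ 2 ≤ (S + t + 2 * Real.pi * t) ^ 2 := by
        refine pow_le_pow_left₀ (by positivity) ?_ 2
        linarith
      have g3 : a + 2 * t ≤ a * (1 + 2 * t / c) := by
        have : 2 * t ≤ a * (2 * t / c) := by
          rw [mul_div_assoc', le_div_iff₀ hc]
          nlinarith
        linarith
      have g4 : 4 * Real.pi ^ 2 * t ≤ a * (4 * Real.pi ^ 2 * t / c) := by
        rw [mul_div_assoc', le_div_iff₀ hc]
        have : 0 ≤ 4 * Real.pi ^ 2 * t := by positivity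
        nlinarith
      calc 4 * Real.pi ^ 2 * P ≤ (2 * Real.pi * (m + t)) ^ 2 * (a + 2 * t) + 4 * Real.pi ^ 2 * t := by linarith
        _ ≤ (S + t + 2 * Real.pi * t) ^ 2 * (a * (1 + 2 * t / c)) + a * (4 * Real.pi ^ 2 * t / c) :=
            add_le_add (mul_le_mul g2 g3 (by positivity) (sq_nonneg _)) g4
        _ = a * ((S + t + 2 * Real.pi * t) ^ 2 * (1 + 2 * t / c) + 4 * Real.pi ^ 2 * t / c) := by ring
        _ ≤ _ := mul_le_mul_of_nonneg_left hF ha.le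
    have h4 : 4 * Real.pi ^ 2 * P * (lam / M) * (cc * E) ≤
        a * (S ^ 2 * (1 + e)) * ((1 + e) / (1 - e)) * ((1 + e) * (z1 / ak ^ 2)) :=
      mul_le_mul (mul_le_mul h3 h2 hlM (by positivity)) hccE hccE0
        (mul_nonneg (by positivity) (div_nonneg (by linarith) (by linarith)))
    have h5 : (1 + e) ^ 3 / (1 - e) ≤ 1 + ε := by
      rw [div_le_iff₀ (by linarith)]
      have : (1 + e) ^ 3 ≤ (1 + 9 * e) * (1 - e) := by nlinarith [sq_nonneg e, mul_pos he he]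
      refine this.trans (mul_le_mul_of_nonneg_right (by linarith) (by linarith))
    have h6 : a * (S ^ 2 * (1 + e)) * ((1 + e) / (1 - e)) * ((1 + e) * (z1 / ak ^ 2)) =
        (1 + e) ^ 3 / (1 - e) * (B3 * S ^ 2) := by
      rw [hB3]
      have : 1 - e ≠ 0 := by linarith
      field_simp
    rw [h6] at h4
    have h7 := mul_le_mul_of_nonneg_right h5 (show 0 ≤ B3 * S ^ 2 by positivity)
    linarith

end Run7.h291.WL
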