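import Pool.Agent.Run7.h291.WL.E6

set_option autoImplicit false

/-! The two-point function of the local weight (LL2) -/

namespace Run7.h291.WL

open Finset Filter MeasureTheory Topology Complex
open Pool.Agent.N748.MG Pool.Agent.N748.MJ Run7.h291.WN Run7.h651.WN

lemma bb_norm {V p R : ℝ} (hV : 0 < V) (hp : |p| ≤ R) : ‖bb V p‖ ≤ V + R + 1 := by
  unfold bb
  refine (norm_add_le _ _).trans ?_
  rw [norm_mul, Complex.norm_I, mul_one, Complex.norm_real, Complex.norm_real, Real.norm_of_nonneg hV.le,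
    Real.norm_eq_abs, abs_div, abs_of_pos (show (0:ℝ) < 2 by norm_num)]
  have := abs_nonneg p
  linarith

lemma bb_sub {V p e : ℝ} (hp : |p| ≤ e) : ‖bb V p - (V : ℂ)‖ ≤ e := by
  unfold bb
  rw [add_sub_cancel_left, norm_mul, Complex.norm_I, mul_one, Complex.norm_real, Real.norm_eq_abs, abs_div,
    abs_of_pos (show (0:ℝ) < 2 by norm_num)]
  have := abs_nonneg p
  linarith

theorem ll2 : S_LL2 := by
  intro V D hV hD g hg hg0 hgs ε hε
  have hpi := Real.pi_pos
  have hZ := LZB.main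
  have ha := akp V
  set S := ∫ x, g x with hSd
  have hSn : 0 ≤ S := integral_nonneg hg0
  rcases hSn.eq_or_lt with hS0 | hS0
  · have hgz : g = fun _ => 0 := by
      have h1 := (integral_eq_zero_iff_of_nonneg (fun x => hg0 x) (hg.integrable_of_hasCompactSupport hgs)).1 hS0.symm
      have h2 : Continuous fun _ : ℝ => (0:ℝ) := continuous_const
      exact (Continuous.ae_eq_iff_eq volume hg h2).1 h1
    refine (Ev.of_le hε).mono ?_
    intro X δ hX h0 h1 _ h hh hh2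
    have h3 : ∀ t, FG V g δ t = 0 := fun t => by
      unfold FG
      rw [hgz]
      simp
    simp_rw [h3]
    have h4 : S = 0 := hS0.symm
    rw [h4]
    simp
    positivity
  -- constants of the weight
  obtain ⟨A0, hA0, hsA⟩ : ∃ A0 : ℝ, 1 ≤ A0 ∧ ∀ x, A0 ≤ |x| → g x = 0 := by
    obtain ⟨C, hC⟩ := hgs.isCompact.isBounded.subset_closedBall 0
    refine ⟨max C 0 + 1, by linarith [le_max_right C 0], fun x hx => ?_⟩
    by_contra hne
    have h1 : x ∈ tsupport g := subset_tsupport g hne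
    have h2 := hC h1
    rw [Metric.mem_closedBall, dist_zero_right, Real.norm_eq_abs] at h2
    linarith [le_max_left C 0]
  obtain ⟨M0, hM0⟩ := hgs.exists_bound_of_continuous hg
  have hM00 : 0 ≤ M0 := (norm_nonneg _).trans (hM0 0)
  have hgM : ∀ x, g x ≤ M0 := fun x => (Real.le_norm_self _).trans (hM0 x)
  obtain ⟨c, C1, hc, hC1, hcC1⟩ := posF 2 (V + 1) (by linarith)
  set e : ℝ := min (1 / 5) (ε / 9) with he
  have he0 : 0 < e := lt_min (by norm_num) (by positivity)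
  have he1 : e ≤ 1 / 5 := min_le_left _ _
  have he2 : 9 * e ≤ ε := by
    have : e ≤ ε / 9 := min_le_right _ _
    linarith
  obtain ⟨t, ht, hF⟩ : ∃ t : ℝ, 0 < t ∧
      (S + t + 2 * Real.pi * t) ^ 2 * (1 + 2 * t / c) + 4 * Real.pi ^ 2 * t / c ≤ S ^ 2 * (1 + e) := by
    have h1 : Tendsto (fun t : ℝ => (S + t + 2 * Real.pi * t) ^ 2 * (1 + 2 * t / c) + 4 * Real.pi ^ 2 * t / c) (𝓝[>] 0)
        (𝓝 ((S + 0 + 2 * Real.pi * 0) ^ 2 * (1 + 2 * 0 / c) + 4 * Real.pi ^ 2 * 0 / c)) := by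
      have h2 : Continuous (fun t : ℝ => (S + t + 2 * Real.pi * t) ^ 2 * (1 + 2 * t / c) + 4 * Real.pi ^ 2 * t / c) := by
        fun_prop
      exact (h2.tendsto 0).mono_left nhdsWithin_le_nhds
    have h3 : (S + 0 + 2 * Real.pi * 0) ^ 2 * (1 + 2 * 0 / c) + 4 * Real.pi ^ 2 * 0 / c < S ^ 2 * (1 + e) := by
      have : 0 < S ^ 2 * e := by positivity
      simp
      linarith
    obtain ⟨t, ht⟩ := ((h1.eventually_lt_const h3).and self_mem_nhdsWithin).exists
    exact ⟨t, ht.2, ht.1.le⟩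
  obtain ⟨γ, hγ, hγs, hmaj, m, hm, hγ0, hmS⟩ := maj hg hgs hg0 ht
  obtain ⟨R, hR, hsR⟩ : ∃ R : ℝ, 1 ≤ R ∧ ∀ x, R < |x| → γ x = 0 := by
    obtain ⟨C, hC⟩ := hγs.isCompact.isBounded.subset_closedBall 0
    refine ⟨max C 1, le_max_right _ _, fun x hx => ?_⟩
    by_contra hne
    have h1 : x ∈ tsupport γ := subset_tsupport γ hne
    have h2 := hC h1
    rw [Metric.mem_closedBall, dist_zero_right, Real.norm_eq_abs] at h2
    exact absurd (h2.trans (le_max_left _ _)) (not_le.2 hx)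
  obtain ⟨Γ, hΓ⟩ := hγs.exists_bound_of_continuous hγ
  have hRR : 0 < V + R + 1 := by linarith
  obtain ⟨c2, C, hc2, hC, hcC⟩ := posF 2 (V + R + 1) hRR.le
  obtain ⟨η1, hη1, hγη⟩ : ∃ η1 : ℝ, 0 < η1 ∧ ∀ ξ : ℝ, |ξ| ≤ η1 → ‖γ ξ‖ ≤ m + t := by
    obtain ⟨d, hd, h1⟩ := Metric.continuousAt_iff.1 (hγ.continuousAt (x := 0)) t ht
    refine ⟨d / 2, by positivity, fun ξ hξ => ?_⟩
    have h2 := (h1 (x := ξ) (by rw [dist_zero_right, Real.norm_eq_abs]; linarith)).le
    rw [dist_eq_norm, hγ0] at h2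
    have h3 := norm_add_le (γ ξ - (m:ℂ)) (m:ℂ)
    rw [sub_add_cancel, Complex.norm_real, Real.norm_of_nonneg hm] at h3
    linarith
  obtain ⟨η2, hη2, hEq⟩ := eqc 2 (V + R + 1) hRR.le t ht
  set η : ℝ := min η1 η2 with hη
  have hη0 : 0 < η := lt_min hη1 hη2
  set B : ℝ := Γ ^ 2 * (C + t) with hB
  have hΓ0 : 0 ≤ Γ := (norm_nonneg _).trans (hΓ 0)
  have hB0 : 0 ≤ B := by positivity
  set W : ℝ := 2 * V ^ 2 + 1 with hW
  have hV2 : 0 < 2 * V ^ 2 := by positivity
  obtain ⟨e2, he20, he22⟩ : ∃ e2 : ℝ, 0 < e2 ∧ (1 + e2) ^ (2 * V ^ 2) ≤ 1 + e := by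
    refine ⟨(1 + e) ^ (1 / (2 * V ^ 2)) - 1, ?_, ?_⟩
    · have := Real.one_lt_rpow (show 1 < 1 + e by linarith) (show 0 < 1 / (2 * V ^ 2) by positivity)
      linarith
    · rw [add_sub_cancel, ← Real.rpow_mul (by linarith), one_div, inv_mul_cancel₀ hV2.ne', Real.rpow_one]
  obtain ⟨d0, hd0, hpole⟩ := pole_ev he20
  obtain ⟨C0, hC0, hC02⟩ := LZ_zero hZ
  set K : ℝ := 12 * (4 * Real.pi ^ 2 * ((m + t) ^ 2 * (C + 2 * t) + t)) / akR V ^ 2 with hK
  -- conditions on L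
  have hlim : ∀ᶠ L : ℝ in atTop, L ≤ (1 + e) * (L - C0) ∧ 3 * B * Real.exp (-(η ^ 2 / 40) * (L - C0)) ≤ t ∧
      K * Real.exp (-(2 * V ^ 2 * e) * (L - C0)) ≤ ε / 2 ∧ 0 < L - C0 := by
    have hx : Tendsto (fun L : ℝ => L - C0) atTop atTop := tendsto_atTop_add_const_right _ _ tendsto_id
    have hexp : ∀ b : ℝ, 0 < b → Tendsto (fun L : ℝ => Real.exp (-b * (L - C0))) atTop (𝓝 0) := by
      intro b hb
      refine Real.tendsto_exp_atBot.comp ?_
      exact hx.const_mul_atTop_of_neg (by linarith)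
    have h1 := ((hexp (η ^ 2 / 40) (by positivity)).const_mul (3 * B)).eventually_le_const
      (show 3 * B * 0 < t by rw [mul_zero]; exact ht)
    have h2 := ((hexp (2 * V ^ 2 * e) (by positivity)).const_mul K).eventually_le_const
      (show K * 0 < ε / 2 by rw [mul_zero]; positivity)
    filter_upwards [h1, h2, hx.eventually_gt_atTop 0, eventually_ge_atTop ((1 + e) * C0 / e)] with L g1 g2 g3 g4
    refine ⟨?_, g1, g2, g3⟩
    rw [div_le_iff₀ he0] at g4
    linarith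
  have hGc : ∀ x, g x = 0 ∨ |x| < A0 := fun x => (lt_or_ge |x| A0).symm.imp_left (hsA x)
  have hFGc : ∀ {δ : ℝ}, δ ≤ 1 / 16 → Continuous fun t => FG V g δ t := fun h1 =>
    FG_cont hV hg (B := -A0) (fun x hx => hsA x (by rw [abs_of_nonpos (by linarith)]; linarith)) h1
  refine ((((((jmF 2 (V + R + 1) (2 * W + 3) hRR (by positivity) t ht).and (rho_bd hZ hD he0 he1)).and
    (Ev.of_log hlim)).and (Ev.of_le hd0)).and ((FG_le V W hV le_rfl g hg0 M0 A0 hgM
      (fun x hx => hsA x (by rw [abs_of_nonneg (by linarith)]; exact hx))).and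
      (Ev.small (C := (M0 * (Real.pi + 1)) ^ 2) (c := 1) one_pos (half_pos hε)))).and
    (Ev.win (D := D) (c := 1) (e := (1:ℝ) / 2) one_pos (by norm_num))).mono ?_
  rintro X δ hX h0 h1 ⟨⟨⟨⟨⟨hj, hrho⟩, hL⟩, hδ0⟩, hFGl, hsm⟩, hwin⟩ h hh hh2
  have hX0 : 0 < X := by linarith
  obtain ⟨hl0, hrho⟩ := hrho
  obtain ⟨hr1, hr2⟩ := hrho h hh hh2
  obtain ⟨L1, L2, L3, L4⟩ := hL
  have hl0L := abs_le.1 (hC02 δ h0 h1)
  set L := Real.log (1 / δ) with hLd
  set l0 := (LZ (1 + 2 * δ) 0).re with hl0d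
  set r := (LZ (1 + 2 * δ) h).re with hrd
  set M : ℝ := l0 - |r| with hMd
  have hMl : l0 / 5 ≤ M := by
    have : |r| ≤ 4 / 5 * l0 := abs_le.2 ⟨by linarith, by nlinarith⟩
    linarith
  have hMp : 0 < M := by linarith
  obtain ⟨N, n1, n2, n3, n4, n5⟩ := hj ![0, h] (by
    intro j
    fin_cases j
    · simpa using Real.rpow_nonneg hX0.le _
    · have : 0 ≤ h := by linarith
      simpa [abs_of_nonneg this] using hh2.trans (hwin.trans (le_of_eq (one_mul _))))
  have hp1 : ∀ t ∈ N, 0 < mz δ t := fun t ht => by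
    have h2 : t + ![0, h] 0 = t := by simp
    have := n4 t ht 0
    rw [h2] at this
    exact norm_pos_iff.2 this
  have hp2 : ∀ t ∈ N, 0 < mz δ (t + h) := fun t ht => norm_pos_iff.2 (n4 t ht 1)
  obtain ⟨hCu, -⟩ := hcC ![0, h]
  obtain ⟨-, hcl⟩ := hcC1 ![0, h]
  obtain ⟨a, ha1, ha2⟩ := hcl (fun _ => V) fun _ => by rw [abs_of_pos hV]; linarith
  have ha0 : 0 < a := by linarith
  have hVn : ‖((V:ℝ):ℂ)‖ ≤ V + R + 1 := by
    rw [Complex.norm_real, Real.norm_of_nonneg hV.le]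
    linarith
  have haC : a ≤ C := by
    have h2 := hCu (fun _ => (V : ℂ)) (fun _ => (V : ℂ)) (fun _ => hVn) (fun _ => hVn)
    rw [ha2, Complex.norm_real, Real.norm_of_nonneg ha0.le] at h2
    exact h2
  set E : ℝ := Real.exp (2 * V ^ 2 * (l0 + r)) with hE
  set q : ℝ := Real.exp (-(M / 8) * η ^ 2) with hq
  set A : ℝ := (m + t) ^ 2 * (a + 2 * t) with hA
  have hA0' : 0 ≤ A := by positivity
  -- the pointwise bound
  have hJ : ∀ p : ℝ × ℝ, ‖γ p.1‖ * ‖γ p.2‖ * ‖∫ t in N, Kz V δ t p.1 * Kz V δ (t + h) p.2‖ ≤ X * E * gb M A B q p := by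
    rintro ⟨p1, p2⟩
    simp only
    have hgb0 : 0 ≤ X * E * gb M A B q (p1, p2) := by
      unfold gb
      positivity
    rcases lt_or_ge R |p1| with h2 | h2
    · rw [hsR p1 h2, norm_zero, zero_mul, zero_mul]
      exact hgb0
    rcases lt_or_ge R |p2| with h3 | h3
    · rw [hsR p2 h3, norm_zero, mul_zero, zero_mul]
      exact hgb0
    have hbn : ∀ j, ‖b2 V p1 p2 j‖ ≤ V + R + 1 := by
      intro j
      fin_cases j
      · exact bb_norm hV h2
      · exact bb_norm hV h3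
    have hj2 := n5 (b2 V p1 p2) (fun _ => 0) hbn (fun j => by simp; linarith)
    rw [SM.sp_zero, SM.sm_zero] at hj2
    have hJ := int_bd (V := V) (h := h) hX0 h0 hj2
    have hav : ‖aV (b2 V p1 p2) (b2 V p1 p2) ![0, h]‖ ≤ C := hCu _ _ hbn hbn
    exact pt_bd (η := η) (m := m) (t := t) (C := C) (a := a) (av := ‖aV (b2 V p1 p2) (b2 V p1 p2) ![0, h]‖) (Γ := Γ)
      hX0 (Real.exp_pos _).le hMp.le ht.le hA hB hq hm ha0.le hC.le hη0 (norm_nonneg _)
      (norm_nonneg _) (norm_nonneg _) (hΓ _) (hΓ _) hav (fun h4 => hγη _ (h4.trans (min_le_left _ _)))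
      (fun h4 => hγη _ (h4.trans (min_le_left _ _)))
      (fun h4 h5 => by
        have h6 := hEq (b2 V p1 p2) (b2 V p1 p2) (fun _ => (V : ℂ)) (fun _ => (V : ℂ)) hbn hbn (fun _ => hVn)
          (fun _ => hVn) (fun j => by
            fin_cases j
            · exact bb_sub (h4.trans (min_le_right _ _))
            · exact bb_sub (h5.trans (min_le_right _ _))) (fun j => by
            fin_cases j
            · exact bb_sub (h4.trans (min_le_right _ _))
            · exact bb_sub (h5.trans (min_le_right _ _))) ![0, h]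
        rw [ha2] at h6
        have h7 := norm_add_le (aV (b2 V p1 p2) (b2 V p1 p2) ![0, h] - (a:ℂ)) (a:ℂ)
        rw [sub_add_cancel, Complex.norm_real, Real.norm_of_nonneg ha0.le] at h7
        linarith) hJ
  obtain ⟨H, hHi, hHl, hHb⟩ := core2 (X := X) (δ := δ) (V := V) (h := h) (lam := Real.log (1 / (2 * δ))) (γ := γ) (N := N)
    h1 hV.le n1 n2 hp1 hp2 hγ hγs hg0 hmaj ((gb_int hMp A B q).const_mul (X * E)) hJ
  rw [integral_const_mul] at hHb
  have hgv := gb_val (A := A) (q := q) hMp hB0 (Real.exp_pos _).le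
  -- the comparison
  set lam : ℝ := Real.log (1 / (2 * δ)) with hlamd
  have hlam0 : 0 ≤ lam := log2_nn h0 h1
  set cc : ℝ := ((2 * δ) ^ (V ^ 2) / akR V) ^ 2 with hcc
  have hcc0 : 0 ≤ cc := sq_nonneg _
  have hsq := sq_sq h0 h1
  have hoff := offN (g := fun t => FG V g δ t * FG V g δ (t + h)) (G := H) (N := N) (X := X)
    (B := (M0 * (Real.pi + 1)) ^ 2 * δ ^ (-(2 * W + 2)))
    (c := Real.pi * lam * cc) (v := δ ^ (2 * W + 3) * X) hX0.le n1 n2 n3
    (mul_nonneg (Real.rpow_nonneg h0.le _) hX0.le)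
    ((hFGc h1).mul ((hFGc h1).comp (by fun_prop)))
    (fun t => mul_nonneg (FG_nn hg0 h0.le _) (FG_nn hg0 h0.le _))
    (fun t => by
      have hb : ∀ t, FG V g δ t ≤ M0 * (Real.pi + 1) * δ ^ (-(W + 1)) := by
        intro t
        refine (hFGl t).trans ?_
        have h2 := sq_le h0 h1 (c := 1) one_pos
        rw [div_one] at h2
        have h3 : FP V W δ t ≤ δ ^ (-W) := FP_le' _
        have h4 : δ ^ (-(W + 1)) = δ ^ (-(1:ℝ)) * δ ^ (-W) := by
          rw [← Real.rpow_add h0]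
          congr 1
          ring
        rw [h4]
        calc Real.sqrt (Real.pi * Real.log (1 / (2 * δ))) * M0 * FP V W δ t ≤ (Real.pi + 1) * δ ^ (-(1:ℝ)) * M0 * δ ^ (-W) :=
              mul_le_mul (mul_le_mul_of_nonneg_right h2 hM00) h3 (FP_nn h0.le _) (by positivity)
          _ = _ := by ring
      have h5 : δ ^ (-(2 * W + 2)) = δ ^ (-(W + 1)) * δ ^ (-(W + 1)) := by
        rw [← Real.rpow_add h0]
        congr 1
        ring
      rw [h5]
      calc FG V g δ t * FG V g δ (t + h) ≤ (M0 * (Real.pi + 1) * δ ^ (-(W + 1))) * (M0 * (Real.pi + 1) * δ ^ (-(W + 1))) :=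
            mul_le_mul (hb _) (hb _) (FG_nn hg0 h0.le _) (by positivity)
        _ = _ := by ring)
    hHi (fun t ht => by
      have h2 := hHl t ht
      have h3 : FG V g δ t * FG V g δ (t + h) = Real.pi * lam * cc *
          (g (Real.log (mz δ t) - V * lam) * g (Real.log (mz δ (t + h)) - V * lam) *
            (mz δ t ^ (2 * V) * mz δ (t + h) ^ (2 * V))) := by
        unfold FG Zk
        rw [← hlamd]
        have h4 : √(Real.pi * lam) * √(Real.pi * lam) = Real.pi * lam := Real.mul_self_sqrt (by positivity)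
        rw [hcc]
        linear_combination (g (Real.log (mz δ t) - V * lam) * ((2 * δ) ^ V ^ 2 / akR V * mz δ t ^ (2 * V)) *
          (g (Real.log (mz δ (t + h)) - V * lam) * ((2 * δ) ^ V ^ 2 / akR V * mz δ (t + h) ^ (2 * V)))) * h4
      rw [h3]
      exact mul_le_mul_of_nonneg_left h2 (by positivity))
  refine hoff.trans ?_
  -- the small term
  have f1 : (M0 * (Real.pi + 1)) ^ 2 * δ ^ (-(2 * W + 2)) * (δ ^ (2 * W + 3) * X) = (M0 * (Real.pi + 1)) ^ 2 * δ ^ (1:ℝ) * X := by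
    have : δ ^ (1:ℝ) = δ ^ (-(2 * W + 2)) * δ ^ (2 * W + 3) := by
      rw [← Real.rpow_add h0]
      congr 1
      ring
    rw [this]
    ring
  rw [f1]
  have hsm' := mul_le_mul_of_nonneg_right hsm hX0.le
  -- the main term
  have hp := hpole δ h0 hδ0
  have e0 := LZ_exp hZ h0 h1 0
  have e1 := LZ_exp hZ h0 h1 h
  have f0 : (((1 + 2 * δ : ℝ) : ℂ) + ((0:ℝ):ℂ) * I) = 1 + 2 * (δ : ℂ) := by push_cast; ring
  have f2 : (((1 + 2 * δ : ℝ) : ℂ) + (h:ℂ) * I) = 1 + 2 * (δ : ℂ) + h * I := by push_cast; ring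
  rw [f0, ← hl0d] at e0
  rw [f2, ← hrd] at e1
  rw [← e0] at hp
  set z1 : ℝ := Real.exp (2 * V ^ 2 * r) with hz1
  have hB3 : B2 V δ h = a / akR V ^ 2 * z1 := by
    unfold B2
    rw [ha2, aC_re, Complex.ofReal_re, ← e1, ← Real.exp_mul, hz1]
    congr 2
    ring
  have hccE : cc * E ≤ (1 + e) * (z1 / akR V ^ 2) := by
    have g1 : (2 * δ) ^ (V ^ 2) * (2 * δ) ^ (V ^ 2) = (2 * δ) ^ (2 * V ^ 2) := by
      rw [← Real.rpow_add (by linarith)]
      congr 1
      ring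
    have g2 : (2 * δ) ^ (2 * V ^ 2) * Real.exp (2 * V ^ 2 * l0) ≤ 1 + e := by
      have g3 : Real.exp (2 * V ^ 2 * l0) = Real.exp l0 ^ (2 * V ^ 2) := by
        rw [← Real.exp_mul]
        congr 1
        ring
      rw [g3, ← Real.mul_rpow (by linarith) (Real.exp_pos _).le]
      exact (Real.rpow_le_rpow (by positivity) hp hV2.le).trans he22
    have g4 : E = Real.exp (2 * V ^ 2 * l0) * z1 := by
      rw [hE, hz1, ← Real.exp_add]
      congr 1
      ring
    calc cc * E = ((2 * δ) ^ (2 * V ^ 2) * Real.exp (2 * V ^ 2 * l0)) * (z1 / akR V ^ 2) := by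
          rw [hcc, g4, div_pow, pow_two ((2 * δ) ^ V ^ 2), g1]
          ring
      _ ≤ _ := mul_le_mul_of_nonneg_right g2 (by positivity)
  have hqt : 3 * B * q ≤ t := by
    refine le_trans (mul_le_mul_of_nonneg_left (Real.exp_le_exp.2 ?_) (by positivity)) L2
    have h2 : (L - C0) / 5 ≤ M := by linarith
    have h3 := mul_le_mul_of_nonneg_right h2 (sq_nonneg η)
    linarith
  have hfin := fin_alg (X := X) (S := S) (lam := lam) (l0 := l0) (r := r) (E := E) (cc := cc) (z1 := z1) (ak := akR V)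
    (a := a) (c := c) (C := C) (m := m) (t := t) (e := e) (ε := ε) (P := A + 3 * B * q) (B3 := B2 V δ h)
    hX0 hl0 hlam0 ha hc ha1 haC hm ht he0 he1 he2 hS0 hmS hF (by
      have h2 : lam ≤ L := Real.log_le_log (by positivity) (by
        rw [div_le_div_iff₀ (by positivity) h0]
        linarith)
      have h3 : (1 + e) * (L - C0) ≤ (1 + e) * l0 := mul_le_mul_of_nonneg_left (by linarith) (by linarith)
      linarith) (Real.exp_pos _) hccE (by positivity) hr1 hr2 (by rw [hA]; linarith) (by positivity) hB3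
    (fun h2 => by
      refine le_trans (mul_le_mul_of_nonneg_left (Real.exp_le_exp.2 ?_) (by positivity)) L3
      have h3 : (L - C0) ≤ l0 := by linarith
      have h4 : 2 * V ^ 2 * r ≤ 2 * V ^ 2 * (-(e * l0)) := mul_le_mul_of_nonneg_left h2.le (by positivity)
      have h5 : 2 * V ^ 2 * e * (L - C0) ≤ 2 * V ^ 2 * e * l0 := mul_le_mul_of_nonneg_left h3 (by positivity)
      linarith) hε
  have hHb2 : ∫ t in N, H t ≤ X * E * (4 * Real.pi / M * (A + 3 * B * q)) :=
    hHb.trans (mul_le_mul_of_nonneg_left hgv (by positivity))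
  have h9 := mul_le_mul_of_nonneg_left hHb2 (show 0 ≤ Real.pi * lam * cc by positivity)
  calc Real.pi * lam * cc * (∫ t in N, H t) + (M0 * (Real.pi + 1)) ^ 2 * δ ^ (1:ℝ) * X ≤
      X * ((1 + ε) * B2 V δ h * S ^ 2 + ε / 2) + ε / 2 * X := add_le_add (h9.trans hfin) hsm'
    _ = _ := by ring

end Run7.h291.WL
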