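import Pool.Agent.Run7.h291.WN.Stm
import Pool.Agent.Run7.h291.WN.A3

set_option autoImplicit false

/-!
# The number of large values in almost all windows: statements of two parts

`mz δ t = |ζ(1/2 + δ + i t)|`, `Zk V δ t = (2δ)^(V²) |ζ|^(2V) / a(V)`, `B2 V δ h` is the two-point function.
-/

namespace Run7.h291.WL

open Finset Filter MeasureTheory Topology Complex
open Pool.Agent.N748.MG Pool.Agent.N748.MJ Run7.h291.WN

/-- the local weight at the level `(2δ)^(-V)`: `√(π Λ) g(log |ζ| - V Λ) (2δ)^(V²) |ζ|^(2V) / a(V)`, `Λ = log (1/(2δ))` -/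
noncomputable def FG (V : ℝ) (g : ℝ → ℝ) (δ t : ℝ) : ℝ :=
  Real.sqrt (Real.pi * Real.log (1 / (2 * δ))) * g (Real.log (mz δ t) - V * Real.log (1 / (2 * δ))) * Zk V δ t

/-- (LL1) the mean of the local weight.

Proof. (1) Sequences suffice: if `∀ d, Ad d → ∀ᶠ T in atTop, P T (d T)` then `Ev P` (if `Ev P` fails, take `lam = n`, `δ0 = 1/n`,
get `X_n → ∞` increasing and `δ_n ≤ 1/n` with `n log² (1/δ_n) ≤ δ_n log X_n` and `¬ P X_n δ_n`, and put `d (X_n) = δ_n`,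
`d T = 1 / log log T` elsewhere).
(2) `S_LD` of `N748/MG/Stm.lean` (proved in `N748/MG`, see `MG/Res.lean`) for `h(x) = exp (2 V x) g(x)`: as
`Zk V δ t = (2δ)^(-V²) exp (2 V x) / a(V)` with `x = log |ζ| - V Λ` if `ζ ≠ 0`; at a zero of zeta `Zk = 0`, and the zeros
form a null set (countable). -/
def S_LL1 : Prop := ∀ V : ℝ, 0 < V → ∀ (g : ℝ → ℝ) (S : Finset ℝ), Measurable g → (∀ x, x ∉ S → ContinuousAt g x) →
  (∃ C : ℝ, ∀ x, |g x| * (1 + x ^ 2) ≤ C) → (∃ C : ℝ, ∀ x, |g x| * Real.exp (2 * V * x) ≤ C) → ∀ ε : ℝ, 0 < ε →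
  Ev fun X δ => |(∫ t in (0:ℝ)..X, FG V g δ t) - X * ∫ x, g x| ≤ ε * X

/-- (LL2) the two-point function of the local weight, upper bound.

Proof. Let `C` be such that `g ≤ C`, `g = 0` outside `[-C, C]`. (1) There is a majorant `G ≥ g` (on the real line), `G = Ĝ`-type:
`G(x) = ∫_{-R}^{R} γ(ξ) e^{i x ξ} dξ` with `γ` continuous, supported in `[-R, R]`, `G ≥ 0` and `∫ G = 2 π γ(0) ≤ ∫ g + ε'`
(for instance `G = g * K + ε'' G_0` with a Fejér kernel `K` of large band width and `G_0` a fixed band-limited function with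
`G_0(x) ≥ c / (1 + x²)`, for instance the sum of two shifted Fejér kernels; `N748/MJ/LLT2.lean`, `N748/MG/LLT.lean` contain
constructions of this kind).
(2) By `jmF` (or `jmfF`) with `m = 2`, shifts `(0, h)`, exponents `b_j = V + i ξ_j / 2`, `n_j = 0`, `D' > 4 V C + ...`:
outside a set of measure `δ^{D'} X`, on which the product `FG FG` is at most `δ^{-C'}`,
`∫ FG(t) FG(t+h) ≤ π Λ ((2δ)^{V²} / a)² ∬ γ(ξ1) γ(ξ2) e^{-i V Λ (ξ1 + ξ2)} (∫_N |ζ1|^{2 b1} |ζ2|^{2 b2}) dξ`, and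
`∫_N = exp (LM) (X aV + O(ε' X))`, `Re LM = (2 V² - (ξ1² + ξ2²)/4) L' + 2 (V² - ξ1 ξ2 / 4) Re LZ(h)`, `L' = log ζ(1+2δ) = Λ + O(δ)`.
For `|ξ| ≤ η` use the continuity of `aV` in the exponents, uniformly in `h` (`Run7.h651.WN.eqc : S_EQC`), the rest is
negligible: `|Re LZ(h)| ≤ ρ L'` with some `ρ < 1` for `|h| ≥ 1` (`Re LZ(h) ≤ C + log log (1/δ)` for `1 ≤ |h| ≤ δ^{-D}`, and the
inequality `3-4-1` gives `Re LZ(h) ≥ -(3/4) L' - (1/4) Re LZ(2h)`); the Gaussian integral is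
`∬ exp (-(ξ1² + ξ2²) L'/4 - ξ1 ξ2 Re LZ(h) / 2) = 4 π / (L' √(1 - (Re LZ(h) / L')²))`. If `Re LZ(h) ≥ -K` this is `(4π/L')(1 + o(1))` and the
bound is `(1+ε) B2 (∫ G)²`; if `Re LZ(h) < -K` the bound is `C B2 ≤ C' exp (-2 V² K) ≤ ε`. (All the two-point computations,
in particular `exp_two`, are in `Run7/h291/WN/A6.lean`, lemma `tp_far`.) -/
def S_LL2 : Prop := ∀ V D : ℝ, 0 < V → 0 < D → ∀ g : ℝ → ℝ, Continuous g → (∀ x, 0 ≤ g x) → HasCompactSupport g →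
  ∀ ε : ℝ, 0 < ε → Ev fun X δ => ∀ h : ℝ, 1 ≤ h → h ≤ δ ^ (-D) →
  ∫ t in (0:ℝ)..X, FG V g δ t * FG V g δ (t + h) ≤ ((1 + ε) * B2 V δ h * (∫ x, g x) ^ 2 + ε) * X

end Run7.h291.WL
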